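import Mathlib

/-!
Definitions for MP_8e96ff_co (size of convex decompositions of CPWL functions).
-/

open Set

namespace Pool.Agent.H337_cpwl

/-! ### The definitions of the problem -/

/-- A polyhedron of `ℝⁿ`: a finite intersection of closed half-spaces. -/
def IsPolyhedron {n : ℕ} (P : Set (Fin n → ℝ)) : Prop :=
  ∃ (m : ℕ) (a : Fin m → Fin n → ℝ) (b : Fin m → ℝ), P = {x | ∀ i, ∑ j, a i j * x j ≤ b i}

/-- `F` is a face of `P`: it is empty, or it is the set of points of `P` at which some linear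
functional attains its maximum over `P` (the zero functional gives `F = P`). -/
def IsFace {n : ℕ} (P F : Set (Fin n → ℝ)) : Prop :=
  F = ∅ ∨ ∃ c : Fin n → ℝ, F = {x | x ∈ P ∧ ∀ y ∈ P, ∑ j, c j * y j ≤ ∑ j, c j * x j}

/-- A complete polyhedral complex in `ℝⁿ`. -/
structure CompleteComplex (n : ℕ) where
  /-- the (nonempty) cells -/
  cells : Set (Set (Fin n → ℝ))
  finite : cells.Finite
  poly : ∀ P ∈ cells, IsPolyhedron P
  nonempty : ∀ P ∈ cells, P.Nonempty
  face_mem : ∀ P ∈ cells, ∀ F, IsFace P F → F.Nonempty → F ∈ cells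
  inter_face : ∀ P ∈ cells, ∀ Q ∈ cells, IsFace P (P ∩ Q)
  cover : ⋃₀ cells = univ

namespace CompleteComplex

variable {n : ℕ}

/-- the `n`-dimensional cells -/
def maxCells (C : CompleteComplex n) : Set (Set (Fin n → ℝ)) :=
  {P | P ∈ C.cells ∧ (interior P).Nonempty}

/-- the number of `n`-dimensional cells -/
noncomputable def numMax (C : CompleteComplex n) : ℕ := C.maxCells.ncard

/-- `f` is affine on every `n`-dimensional cell -/
def Compatible (C : CompleteComplex n) (f : (Fin n → ℝ) → ℝ) : Prop :=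
  ∀ P ∈ C.maxCells, ∃ (a : Fin n → ℝ) (b : ℝ), ∀ x ∈ P, f x = ∑ j, a j * x j + b

end CompleteComplex

/-- continuous piecewise linear functions -/
def IsCPWL {n : ℕ} (f : (Fin n → ℝ) → ℝ) : Prop :=
  Continuous f ∧ ∃ (k : ℕ) (a : Fin k → Fin n → ℝ) (b : Fin k → ℝ),
    ∀ x, ∃ i, f x = ∑ j, a i j * x j + b i

/-- `f` has exactly `q` pieces: `q` is the least number of `n`-dimensional cells of a complete
polyhedral complex compatible with `f`. -/
def HasPieces {n : ℕ} (f : (Fin n → ℝ) → ℝ) (q : ℕ) : Prop :=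
  IsLeast {m : ℕ | ∃ C : CompleteComplex n, C.Compatible f ∧ C.numMax = m} q

/-! ### The construction -/

/-- coordinates of one level: pairs of hosts (only those with first < second matter) -/
abbrev Crd (t : ℕ) : Type := Fin t × Fin t

/-- sign of host `q` at the coordinate `c`: `1`, `-1` or `0` -/
def sg {t : ℕ} (q : Fin t) (c : Crd t) : ℝ :=
  if c.1 < c.2 then (if q = c.1 then 1 else if q = c.2 then -1 else 0) else 0

/-- the homogeneous space of one level: `(z, s)` -/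
abbrev Lv (t : ℕ) : Type := (Crd t → ℝ) × ℝ

/-- the homogeneous space of `N` levels -/
abbrev Tw (t N : ℕ) : Type := (Fin N → Crd t → ℝ) × ℝ

/-- the coordinate functional `z_c` on one level -/
def zc {t : ℕ} (c : Crd t) : Lv t →ₗ[ℝ] ℝ := (LinearMap.proj c).comp (LinearMap.fst ℝ _ _)

/-- the functional `s` on one level -/
def ss {t : ℕ} : Lv t →ₗ[ℝ] ℝ := LinearMap.snd ℝ _ _

@[simp] lemma zc_apply {t : ℕ} (c : Crd t) (x : Lv t) : zc c x = x.1 c := rfl
@[simp] lemma ss_apply {t : ℕ} (x : Lv t) : (ss : Lv t →ₗ[ℝ] ℝ) x = x.2 := rfl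

/-- the linear functionals `μ_j` of host `q`
(`-s`; `s - 2 sg z_c`; `2 z_c - (1+2R) s`; `-2 z_c - (1+2R) s`) -/
noncomputable def mu {t : ℕ} (R : ℝ) (q : Fin t) : Option (Crd t × Fin 3) → (Lv t →ₗ[ℝ] ℝ)
  | none => -ss
  | some (c, 0) => if sg q c = 0 then -ss else ss - (2 * sg q c) • zc c
  | some (c, 1) => (2 : ℝ) • zc c - (1 + 2 * R) • ss
  | some (c, 2) => (-2 : ℝ) • zc c - (1 + 2 * R) • ss

/-- `max_j μ_j`, that is `- m_q` -/
noncomputable def Mx {t : ℕ} (R : ℝ) (q : Fin t) (x : Lv t) : ℝ :=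
  Finset.univ.sup' ⟨none, Finset.mem_univ _⟩ (fun j => mu R q j x)

/-- `Σ(z,s) = max(0, max_q m_q)` with `m_q = - max_j μ_j` -/
noncomputable def Sig {t : ℕ} (R : ℝ) (x : Lv t) : ℝ :=
  Finset.univ.sup' ⟨none, Finset.mem_univ _⟩
    (fun o : Option (Fin t) => o.elim 0 (fun q => -(Mx R q x)))

/-- the tower: `Phi 0 (x,s) = s`, `Phi (N+1) (x,s) = Phi N (tail x, Σ(x_0,s))` -/
noncomputable def Phi {t : ℕ} (R : ℝ) : (N : ℕ) → Tw t N → ℝ
  | 0, x => x.2
  | N + 1, x => Phi R N (fun i => x.1 i.succ, Sig R (x.1 0, x.2))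

/-- the identification of the index sets -/
def eqv (N t : ℕ) : Fin N × Crd t ≃ Fin (N * (t * t)) :=
  (Equiv.prodCongr (Equiv.refl _) finProdFinEquiv).trans finProdFinEquiv

/-- unflattening of a point of `ℝ^{N t²}` -/
def unfl {N t : ℕ} (x : Fin (N * (t * t)) → ℝ) : Fin N → Crd t → ℝ :=
  fun i c => x (eqv N t (i, c))

/-- the CPWL function of the counterexample -/
noncomputable def fN (N t : ℕ) (R : ℝ) (x : Fin (N * (t * t)) → ℝ) : ℝ := Phi R N (unfl x, 1)

/-! ### Families of cones -/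

/-- a polyhedral cone: finitely many homogeneous linear inequalities -/
def IsPolyCone {E : Type} [AddCommGroup E] [Module ℝ E] (K : Set E) : Prop :=
  ∃ (m : ℕ) (a : Fin m → (E →ₗ[ℝ] ℝ)), K = {x | ∀ i, 0 ≤ a i x}

/-- a face-to-face family of polyhedral cones covering the half-space `0 ≤ s` -/
structure GoodFam {E I : Type} [AddCommGroup E] [Module ℝ E] (s : E →ₗ[ℝ] ℝ) (K : I → Set E) :
    Prop where
  cone : ∀ i, IsPolyCone (K i)
  nonneg : ∀ i, ∀ x ∈ K i, 0 ≤ s x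
  cover : ∀ x, 0 ≤ s x → ∃ i, x ∈ K i
  face : ∀ i j, ∃ l : E →ₗ[ℝ] ℝ, (∀ x ∈ K i, 0 ≤ l x) ∧ ∀ x ∈ K i, (l x = 0 ↔ x ∈ K j)

/-- the number of positive members of the gadget -/
def sPos (t : ℕ) : ℕ := t * (1 + 3 * t ^ 2)

/-- bound for the number of all members of the gadget -/
def sAll (t : ℕ) : ℕ := 2 ^ (4 * t ^ 2) + 2 * t * (1 + 3 * t ^ 2) + 2 * t ^ 2

/-- bound for the number of pieces of `fN N t R` -/
def Qb (t : ℕ) : ℕ → ℕ
  | 0 => 1
  | N + 1 => sPos t * Qb t N + sAll t * (2 * t ^ 2) ^ N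

end Pool.Agent.H337_cpwl
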