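import Mathlib
import Pool.Agent.H337_cpwl.Defs

/-!
Statements of the parts of the proof.
-/

open Set

namespace Pool.Agent.H337_cpwl

/-- Part A. A face-to-face finite cover of `ℝⁿ` by polyhedra gives a complete polyhedral complex
whose `n`-dimensional cells are members of the cover. -/
def S_A : Prop :=
  ∀ (n : ℕ) (I : Type) (_ : Finite I) (P : I → Set (Fin n → ℝ)),
    (∀ i, IsPolyhedron (P i)) → (⋃ i, P i) = univ → (∀ i j, IsFace (P i) (P i ∩ P j)) →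
    ∃ C : CompleteComplex n, ∀ X ∈ C.maxCells, ∃ i, (interior (P i)).Nonempty ∧ X = P i

/-- Part B1. The gluing lemma of the gadget. `y` are the hyperplanes, `A_r = ∑ w_r |y|`,
`B_r = max {B β | ρ β = r}`; the sets `X_r = {A_r ≤ B_r}` meet only in `0`. -/
def S_B1 : Prop :=
  ∀ (E : Type) (_ : AddCommGroup E) (_ : Module ℝ E) (s : E →ₗ[ℝ] ℝ)
    (Y : Type) (_ : Fintype Y) (y : Y → (E →ₗ[ℝ] ℝ))
    (Rr : Type) (_ : Nonempty Rr) (w : Rr → Y → ℝ)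
    (T : Type) (_ : Fintype T) (ρ : T → Rr) (B : T → (E →ₗ[ℝ] ℝ)),
    (∀ r c, 0 < w r c) →
    -- the sets `X_r` meet only in `0`
    (∀ β β' x, ρ β ≠ ρ β' → 0 ≤ s x → (∑ c, w (ρ β) c * |y c x|) ≤ B β x →
      (∑ c, w (ρ β') c * |y c x|) ≤ B β' x → x = 0) →
    -- `A_r` vanishes only at `0`
    (∀ x, 0 ≤ s x → (∀ c, y c x = 0) → x = 0) →
    ∃ D : ((Y → Bool) ⊕ T) → Set E,
      GoodFam s D ∧
      (∀ ε x, x ∈ D (Sum.inl ε) ↔ 0 ≤ s x ∧ (∀ c, 0 ≤ (if ε c then (1 : ℝ) else -1) * y c x) ∧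
        ∀ β, B β x ≤ ∑ c, w (ρ β) c * |y c x|) ∧
      (∀ β x, x ∈ D (Sum.inr β) ↔ 0 ≤ s x ∧ (∑ c, w (ρ β) c * |y c x|) ≤ B β x ∧
        ∀ β', ρ β' = ρ β → B β' x ≤ B β x)

/-- Part B. The gadget. -/
def S_B : Prop :=
  ∀ (t : ℕ) (R : ℝ), 2 ≤ t → 1 ≤ R →
    ∃ (G : Type) (_ : Fintype G) (D : G → Set (Lv t)) (σ : G → (Lv t →ₗ[ℝ] ℝ)),
      GoodFam ss D ∧ (∀ g, ∀ x ∈ D g, Sig R x = σ g x) ∧
      Nat.card {g // σ g ≠ 0} ≤ sPos t ∧ Nat.card G ≤ sAll t ∧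
      Nat.card {g // (interior {z : Crd t → ℝ | (z, (0 : ℝ)) ∈ D g}).Nonempty} ≤ 2 * t ^ 2

/-- Part C. The tower. -/
def S_C : Prop :=
  ∀ (t : ℕ) (R : ℝ) (N : ℕ), 2 ≤ t → 1 ≤ R →
    ∃ (I : Type) (_ : Fintype I) (K : I → Set (Tw t N)) (φ : I → (Tw t N →ₗ[ℝ] ℝ)),
      GoodFam (LinearMap.snd ℝ (Fin N → Crd t → ℝ) ℝ) K ∧ (∀ i, ∀ x ∈ K i, Phi R N x = φ i x) ∧
      Nat.card {i // (interior {z : Fin N → Crd t → ℝ | (z, (1 : ℝ)) ∈ K i}).Nonempty} ≤ Qb t N ∧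
      Nat.card {i // (interior {z : Fin N → Crd t → ℝ | (z, (0 : ℝ)) ∈ K i}).Nonempty} ≤
        (2 * t ^ 2) ^ N

/-- Part D. The adversary theorem. `ι` is the set of coordinates, `l` finitely many affine
functions with maximum `H`, `f` is midpoint affine wherever `H` is, `W` is a weight on
subcubes (`J` is the set of free coordinates, `p` gives the values of the others). -/
def S_D : Prop :=
  ∀ (κ : Type) (_ : Fintype κ) (_ : DecidableEq κ) (m : ℕ) (R : ℝ)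
    (H f : (κ → ℝ) → ℝ) (l : Fin m → ((κ → ℝ) →ᵃ[ℝ] ℝ)) (W : Finset κ → (κ → ℝ) → ℕ),
    2 * (4 * (Fintype.card κ : ℝ) + 1) ^ (Fintype.card κ) ≤ R →
    (∀ i x, l i x ≤ H x) → (∀ x, ∃ i, l i x = H x) →
    (∀ x y, H (midpoint ℝ x y) = (H x + H y) / 2 → f (midpoint ℝ x y) = (f x + f y) / 2) →
    -- splitting
    (∀ (J : Finset κ) (p : κ → ℝ), (∀ c, c ∉ J → 2 ≤ |p c| ∧ |p c| ≤ R) → ∀ c ∈ J, ∀ r : ℝ,
      2 ≤ r → r ≤ R →
      W J p ≤ W (J.erase c) (Function.update p c r) + W (J.erase c) (Function.update p c (-r))) →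
    -- if the weight is at least 2, then `f` is not affine on the inner box
    (∀ (J : Finset κ) (p : κ → ℝ), (∀ c, c ∉ J → 2 ≤ |p c| ∧ |p c| ≤ R) → 2 ≤ W J p →
      ∃ x y : κ → ℝ, (∀ c, c ∉ J → x c = p c ∧ y c = p c) ∧ (∀ c ∈ J, |x c| ≤ 2 ∧ |y c| ≤ 2) ∧
        f (midpoint ℝ x y) ≠ (f x + f y) / 2) →
    W Finset.univ 0 ≤ m

/-- Part E. The lower bound for the function of the tower. -/
def S_E : Prop :=
  ∀ (t N m : ℕ) (R : ℝ), 2 ≤ t →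
    2 * (4 * ((N * (t * t) : ℕ) : ℝ) + 1) ^ (N * (t * t)) ≤ R →
    ∀ (H : (Fin N × Crd t → ℝ) → ℝ) (l : Fin m → ((Fin N × Crd t → ℝ) →ᵃ[ℝ] ℝ)),
      (∀ i x, l i x ≤ H x) → (∀ x, ∃ i, l i x = H x) →
      (∀ x y, H (midpoint ℝ x y) = (H x + H y) / 2 →
        Phi R N (Function.curry (midpoint ℝ x y), 1) =
          (Phi R N (Function.curry x, 1) + Phi R N (Function.curry y, 1)) / 2) →
      2 ^ ((t - 1) * N) ≤ m

/-- Part F. The upper bound for the number of pieces. -/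
def S_F : Prop :=
  ∀ (t N : ℕ) (R : ℝ), 2 ≤ t → 1 ≤ R →
    IsCPWL (fN N t R) ∧ ∃ C : CompleteComplex (N * (t * t)), C.Compatible (fN N t R) ∧
      C.numMax ≤ Qb t N

/-- Part G. A convex function compatible with a complex with `a` maximal cells is the maximum of
`a` affine functions; and a complete complex has a maximal cell. -/
def S_G : Prop :=
  ∀ (n : ℕ) (C : CompleteComplex n), 1 ≤ C.numMax ∧
    ∀ g : (Fin n → ℝ) → ℝ, ConvexOn ℝ univ g → C.Compatible g →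
      ∃ l : Fin C.numMax → ((Fin n → ℝ) →ᵃ[ℝ] ℝ), (∀ i x, l i x ≤ g x) ∧ ∀ x, ∃ i, l i x = g x

/-- Part H. The lower bound beats every polynomial. -/
def S_H : Prop :=
  ∀ p : MvPolynomial (Fin 2) ℝ, ∃ t N : ℕ, 2 ≤ t ∧ 1 ≤ N ∧ ∀ q : ℕ, q ≤ Qb t N →
    ∀ m : ℕ, (m : ℝ) ≤ MvPolynomial.eval ![((N * (t * t) : ℕ) : ℝ), (q : ℝ)] p →
      m * m < 2 ^ ((t - 1) * N)

/-- The final theorem. -/
def S_Main : Prop :=
  ∀ p : MvPolynomial (Fin 2) ℝ, ∃ n q : ℕ, 1 ≤ n ∧ 1 ≤ q ∧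
    ∃ f : (Fin n → ℝ) → ℝ, IsCPWL f ∧ HasPieces f q ∧
      ∀ g h : (Fin n → ℝ) → ℝ, IsCPWL g → IsCPWL h → ConvexOn ℝ univ g → ConvexOn ℝ univ h →
        (∀ x, f x = g x - h x) →
        ∀ P Q : CompleteComplex n, P.Compatible g → Q.Compatible h →
          MvPolynomial.eval ![(n : ℝ), (q : ℝ)] p < P.numMax ∨
            MvPolynomial.eval ![(n : ℝ), (q : ℝ)] p < Q.numMax

end Pool.Agent.H337_cpwl
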