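import Mathlib
import Pool.Agent.H337_cpwl.Stmts

/-!
Part A: a face-to-face finite cover of `ℝⁿ` by polyhedra gives a complete polyhedral complex.
-/

open Set

namespace Pool.Agent.H337_cpwl

namespace PartA

variable {n : ℕ}

lemma comb (a x y : Fin n → ℝ) (s t : ℝ) :
    ∑ j, a j * (s • x + t • y) j = s * ∑ j, a j * x j + t * ∑ j, a j * y j := by
  rw [Finset.mul_sum, Finset.mul_sum, ← Finset.sum_add_distrib]
  apply Finset.sum_congr rfl
  intro j _
  simp only [Pi.add_apply, Pi.smul_apply, smul_eq_mul]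
  ring

/-- convex extreme subsets -/
def Ext (P F : Set (Fin n → ℝ)) : Prop :=
  F ⊆ P ∧ Convex ℝ F ∧ ∀ x ∈ P, ∀ y ∈ P, ∀ s t : ℝ, 0 < s → 0 < t → s + t = 1 →
    s • x + t • y ∈ F → x ∈ F

lemma poly_convex {P : Set (Fin n → ℝ)} (hP : IsPolyhedron P) : Convex ℝ P := by
  obtain ⟨m, a, b, rfl⟩ := hP
  intro x hx y hy s t hs ht hst i
  rw [comb]
  have h1 := mul_le_mul_of_nonneg_left (hx i) hs
  have h2 := mul_le_mul_of_nonneg_left (hy i) ht
  have h3 : b i = s * b i + t * b i := by rw [← add_mul, hst, one_mul]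
  linarith

lemma poly_closed {P : Set (Fin n → ℝ)} (hP : IsPolyhedron P) : IsClosed P := by
  obtain ⟨m, a, b, rfl⟩ := hP
  have : {x : Fin n → ℝ | ∀ i, ∑ j, a i j * x j ≤ b i} =
      ⋂ i, {x : Fin n → ℝ | ∑ j, a i j * x j ≤ b i} := by
    ext x
    simp only [Set.mem_iInter]
    rfl
  rw [this]
  apply isClosed_iInter
  intro i
  exact isClosed_le (by fun_prop) continuous_const

lemma face_ext {P F : Set (Fin n → ℝ)} (hP : Convex ℝ P) (h : IsFace P F) : Ext P F := by
  rcases h with rfl | ⟨c, rfl⟩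
  · exact ⟨Set.empty_subset _, convex_empty, fun x _ y _ s t _ _ _ h => h.elim⟩
  · refine ⟨fun x hx => hx.1, ?_, ?_⟩
    · intro x hx y hy s t hs ht hst
      refine ⟨hP hx.1 hy.1 hs ht hst, ?_⟩
      intro z hz
      rw [comb]
      have h1 := mul_le_mul_of_nonneg_left (hx.2 z hz) hs
      have h2 := mul_le_mul_of_nonneg_left (hy.2 z hz) ht
      have h3 : ∑ j, c j * z j = s * ∑ j, c j * z j + t * ∑ j, c j * z j := by
        rw [← add_mul, hst, one_mul]
      linarith
    · intro x hx y hy s t hs ht hst hz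
      refine ⟨hx, ?_⟩
      intro w hw
      have h1 := hz.2 w hw
      have h2 := hz.2 y hy
      rw [comb] at h1 h2
      have h3 : s * (∑ j, c j * y j) ≤ s * (∑ j, c j * x j) := by
        have : ∑ j, c j * y j = s * (∑ j, c j * y j) + t * (∑ j, c j * y j) := by
          rw [← add_mul, hst, one_mul]
        linarith
      have h4 := le_of_mul_le_mul_left h3 hs
      have h5 := mul_le_mul_of_nonneg_left h4 ht.le
      have h6 : s * (∑ j, c j * x j) + t * (∑ j, c j * x j) = ∑ j, c j * x j := by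
        rw [← add_mul, hst, one_mul]
      linarith

/-- the subset of `{a ≤ b}` where the constraints of `S` are tight -/
def Tight {m : ℕ} (a : Fin m → Fin n → ℝ) (b : Fin m → ℝ) (S : Set (Fin m)) :
    Set (Fin n → ℝ) :=
  {x | (∀ i, ∑ j, a i j * x j ≤ b i) ∧ ∀ i ∈ S, ∑ j, a i j * x j = b i}

lemma ext_tight {m : ℕ} (a : Fin m → Fin n → ℝ) (b : Fin m → ℝ) {F : Set (Fin n → ℝ)}
    (hF : Ext {x | ∀ i, ∑ j, a i j * x j ≤ b i} F) (hne : F.Nonempty) :
    ∃ S : Set (Fin m), F = Tight a b S := by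
  classical
  obtain ⟨hsub, hconv, hext⟩ := hF
  refine ⟨{i | ∀ x ∈ F, ∑ j, a i j * x j = b i}, ?_⟩
  -- a point of `F` with all others slack
  have hslack : ∀ T : Finset (Fin m), (∀ i ∈ T, ∃ x ∈ F, ∑ j, a i j * x j ≠ b i) →
      ∃ x ∈ F, ∀ i ∈ T, ∑ j, a i j * x j < b i := by
    intro T
    induction T using Finset.induction_on with
    | empty =>
      intro _
      obtain ⟨x, hx⟩ := hne
      exact ⟨x, hx, fun i hi => absurd hi (Finset.notMem_empty i)⟩
    | insert i T hi ih =>
      intro h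
      obtain ⟨x, hx, hxT⟩ := ih (fun k hk => h k (Finset.mem_insert_of_mem hk))
      obtain ⟨y, hy, hyi⟩ := h i (Finset.mem_insert_self i T)
      refine ⟨(1 / 2 : ℝ) • x + (1 / 2 : ℝ) • y,
        hconv hx hy (by norm_num) (by norm_num) (by norm_num), ?_⟩
      intro k hk
      rw [comb]
      rcases Finset.mem_insert.1 hk with rfl | hk
      · have h1 := hsub hx k
        have h2 := lt_of_le_of_ne (hsub hy k) hyi
        linarith
      · have h1 := hxT k hk
        have h2 := hsub hy k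
        linarith
  obtain ⟨x0, hx0, hx0s⟩ := hslack (Finset.univ.filter (fun i => ∃ x ∈ F, ∑ j, a i j * x j ≠ b i))
    (fun i hi => (Finset.mem_filter.1 hi).2)
  apply Set.Subset.antisymm
  · intro x hx
    exact ⟨hsub hx, fun i hi => hi x hx⟩
  · intro y hy
    -- a point beyond x0
    have hev : ∀ᶠ ε : ℝ in nhdsWithin 0 (Set.Ioi 0), ∀ i,
        ∑ j, a i j * ((1 + ε) • x0 + (-ε) • y) j ≤ b i := by
      rw [Filter.eventually_all]
      intro i
      by_cases hi : ∀ x ∈ F, ∑ j, a i j * x j = b i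
      · filter_upwards with ε
        rw [comb, hi x0 hx0, hy.2 i hi]
        apply le_of_eq
        ring
      · have hi' : ∃ x ∈ F, ∑ j, a i j * x j ≠ b i := by
          by_contra hcon
          exact hi (fun x hx => by
            by_contra h
            exact hcon ⟨x, hx, h⟩)
        have h1 : ∑ j, a i j * x0 j < b i :=
          hx0s i (Finset.mem_filter.2 ⟨Finset.mem_univ _, hi'⟩)
        have hc : Continuous (fun ε : ℝ => (1 + ε) * (∑ j, a i j * x0 j) +
            (-ε) * (∑ j, a i j * y j)) := by fun_prop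
        have h2 : ∀ᶠ ε : ℝ in nhds 0, (1 + ε) * (∑ j, a i j * x0 j) +
            (-ε) * (∑ j, a i j * y j) < b i := by
          apply hc.continuousAt.eventually_lt continuousAt_const
          simpa using h1
        filter_upwards [nhdsWithin_le_nhds h2] with ε hε
        rw [comb]
        exact hε.le
    obtain ⟨ε, hε, hε0⟩ := (hev.and self_mem_nhdsWithin).exists
    have hε0' : (0 : ℝ) < ε := hε0
    have hpos : (0 : ℝ) < 1 + ε := by linarith
    refine hext y hy.1 _ hε (ε / (1 + ε)) (1 / (1 + ε)) (by positivity) (by positivity)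
      (by field_simp; ring) ?_
    have : (ε / (1 + ε)) • y + (1 / (1 + ε)) • ((1 + ε) • x0 + (-ε) • y) = x0 := by
      ext j
      simp only [Pi.add_apply, Pi.smul_apply, smul_eq_mul]
      field_simp
      ring
    rw [this]
    exact hx0

lemma tight_face {m : ℕ} (a : Fin m → Fin n → ℝ) (b : Fin m → ℝ) (S : Set (Fin m))
    (hne : (Tight a b S).Nonempty) :
    IsFace {x | ∀ i, ∑ j, a i j * x j ≤ b i} (Tight a b S) := by
  classical
  right
  refine ⟨fun j => ∑ i ∈ Finset.univ.filter (fun i => i ∈ S), a i j, ?_⟩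
  have hsum : ∀ x : Fin n → ℝ,
      ∑ j, (∑ i ∈ Finset.univ.filter (fun i => i ∈ S), a i j) * x j =
        ∑ i ∈ Finset.univ.filter (fun i => i ∈ S), ∑ j, a i j * x j := by
    intro x
    simp_rw [Finset.sum_mul]
    exact Finset.sum_comm
  have hle : ∀ x ∈ {x : Fin n → ℝ | ∀ i, ∑ j, a i j * x j ≤ b i},
      ∑ j, (∑ i ∈ Finset.univ.filter (fun i => i ∈ S), a i j) * x j ≤
        ∑ i ∈ Finset.univ.filter (fun i => i ∈ S), b i := by
    intro x hx
    rw [hsum]
    exact Finset.sum_le_sum (fun i _ => hx i)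
  have heq : ∀ x ∈ Tight a b S,
      ∑ j, (∑ i ∈ Finset.univ.filter (fun i => i ∈ S), a i j) * x j =
        ∑ i ∈ Finset.univ.filter (fun i => i ∈ S), b i := by
    intro x hx
    rw [hsum]
    exact Finset.sum_congr rfl (fun i hi => hx.2 i (Finset.mem_filter.1 hi).2)
  apply Set.Subset.antisymm
  · intro x hx
    refine ⟨hx.1, fun y hy => ?_⟩
    rw [heq x hx]
    exact hle y hy
  · rintro x ⟨hx, hmax⟩
    refine ⟨hx, ?_⟩
    obtain ⟨x0, hx0⟩ := hne
    have h1 := hmax x0 hx0.1
    rw [heq x0 hx0, hsum] at h1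
    have h2 : ∑ i ∈ Finset.univ.filter (fun i => i ∈ S), ∑ j, a i j * x j =
        ∑ i ∈ Finset.univ.filter (fun i => i ∈ S), b i :=
      le_antisymm (Finset.sum_le_sum (fun i _ => hx i)) h1
    have h3 := (Finset.sum_eq_sum_iff_of_le (fun i _ => hx i)).1 h2
    intro i hi
    exact h3 i (Finset.mem_filter.2 ⟨Finset.mem_univ _, hi⟩)

lemma poly_of_fintype {ι : Type} [Fintype ι] (a : ι → Fin n → ℝ) (b : ι → ℝ) :
    IsPolyhedron {x : Fin n → ℝ | ∀ i, ∑ j, a i j * x j ≤ b i} := by
  refine ⟨Fintype.card ι, fun k => a ((Fintype.equivFin ι).symm k),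
    fun k => b ((Fintype.equivFin ι).symm k), ?_⟩
  apply Set.Subset.antisymm
  · intro x hx k
    exact hx _
  · intro x hx i
    have := hx (Fintype.equivFin ι i)
    simpa using this

lemma tight_poly {m : ℕ} (a : Fin m → Fin n → ℝ) (b : Fin m → ℝ) (S : Set (Fin m)) :
    IsPolyhedron (Tight a b S) := by
  classical
  have := poly_of_fintype (ι := Fin m ⊕ Fin m)
    (fun i => Sum.elim (fun i => a i) (fun i => if i ∈ S then -a i else a i) i)
    (fun i => Sum.elim (fun i => b i) (fun i => if i ∈ S then -b i else b i) i)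
  convert this using 1
  apply Set.Subset.antisymm
  · intro x hx i
    rcases i with i | i
    · exact hx.1 i
    · by_cases hi : i ∈ S
      · simp only [Sum.elim_inr, if_pos hi, Pi.neg_apply, neg_mul, Finset.sum_neg_distrib]
        exact (neg_le_neg_iff.2 (hx.2 i hi).ge)
      · simp only [Sum.elim_inr, if_neg hi]
        exact hx.1 i
  · intro x hx
    refine ⟨fun i => hx (Sum.inl i), ?_⟩
    intro i hi
    have h1 := hx (Sum.inr i)
    simp only [Sum.elim_inr, if_pos hi, Pi.neg_apply, neg_mul, Finset.sum_neg_distrib] at h1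
    exact le_antisymm (hx (Sum.inl i)) (neg_le_neg_iff.1 h1)

/-- on a polyhedron the faces are the convex extreme subsets -/
lemma face_iff_ext {P F : Set (Fin n → ℝ)} (hP : IsPolyhedron P) : IsFace P F ↔ Ext P F := by
  constructor
  · exact face_ext (poly_convex hP)
  · intro h
    rcases Set.eq_empty_or_nonempty F with rfl | hne
    · exact Or.inl rfl
    · obtain ⟨m, a, b, rfl⟩ := hP
      obtain ⟨S, rfl⟩ := ext_tight a b h hne
      exact tight_face a b S hne

lemma face_poly {P F : Set (Fin n → ℝ)} (hP : IsPolyhedron P) (h : IsFace P F)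
    (hne : F.Nonempty) : IsPolyhedron F := by
  have h1 := face_ext (poly_convex hP) h
  obtain ⟨m, a, b, rfl⟩ := hP
  obtain ⟨S, rfl⟩ := ext_tight a b h1 hne
  exact tight_poly a b S

lemma faces_finite {P : Set (Fin n → ℝ)} (hP : IsPolyhedron P) :
    {F : Set (Fin n → ℝ) | F.Nonempty ∧ IsFace P F}.Finite := by
  have h0 := poly_convex hP
  obtain ⟨m, a, b, rfl⟩ := hP
  apply (Set.finite_range (fun S : Set (Fin m) => Tight a b S)).subset
  rintro F ⟨hne, hF⟩
  obtain ⟨S, hS⟩ := ext_tight a b (face_ext h0 hF) hne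
  exact ⟨S, hS.symm⟩

lemma ext_trans {P F G : Set (Fin n → ℝ)} (h1 : Ext P F) (h2 : Ext F G) : Ext P G := by
  refine ⟨h2.1.trans h1.1, h2.2.1, ?_⟩
  intro x hx y hy s t hs ht hst hz
  have hzF := h2.1 hz
  have hxF := h1.2.2 x hx y hy s t hs ht hst hzF
  have hyF := h1.2.2 y hy x hx t s ht hs (by rw [add_comm]; exact hst)
    (by rw [add_comm]; exact hzF)
  exact h2.2.2 x hxF y hyF s t hs ht hst hz

lemma ext_inter {P Q F G : Set (Fin n → ℝ)} (hPQ : Ext P (P ∩ Q)) (hF : Ext P F) (hG : Ext Q G) :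
    Ext F (F ∩ G) := by
  refine ⟨Set.inter_subset_left, hF.2.1.inter hG.2.1, ?_⟩
  intro x hx y hy s t hs ht hst hz
  have hzPQ : s • x + t • y ∈ P ∩ Q := ⟨hF.1 hz.1, hG.1 hz.2⟩
  have hxQ := (hPQ.2.2 x (hF.1 hx) y (hF.1 hy) s t hs ht hst hzPQ).2
  have hyQ := (hPQ.2.2 y (hF.1 hy) x (hF.1 hx) t s ht hs (by rw [add_comm]; exact hst)
    (by rw [add_comm]; exact hzPQ)).2
  exact ⟨hx, hG.2.2 x hxQ y hyQ s t hs ht hst hz.2⟩

lemma ext_full {P F : Set (Fin n → ℝ)} (h : Ext P F) (hint : (interior F).Nonempty) :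
    F = P := by
  obtain ⟨x0, hx0⟩ := hint
  apply Set.Subset.antisymm h.1
  intro y hy
  have hc : Continuous (fun ε : ℝ => (1 + ε) • x0 + (-ε) • y) := by fun_prop
  have h2 : ∀ᶠ ε : ℝ in nhds 0, (1 + ε) • x0 + (-ε) • y ∈ F := by
    apply hc.continuousAt.eventually_mem
    simp only [add_zero, one_smul, neg_zero, zero_smul]
    exact mem_interior_iff_mem_nhds.1 hx0
  obtain ⟨ε, hε, hε0⟩ := ((h2.filter_mono (nhdsWithin_le_nhds (s := Set.Ioi 0))).and
    self_mem_nhdsWithin).exists
  have hε0' : (0 : ℝ) < ε := hε0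
  have hpos : (0 : ℝ) < 1 + ε := by linarith
  refine h.2.2 y hy _ (h.1 hε) (ε / (1 + ε)) (1 / (1 + ε)) (by positivity) (by positivity)
    (by field_simp; ring) ?_
  have : (ε / (1 + ε)) • y + (1 / (1 + ε)) • ((1 + ε) • x0 + (-ε) • y) = x0 := by
    ext j
    simp only [Pi.add_apply, Pi.smul_apply, smul_eq_mul]
    field_simp
    ring
  rw [this]
  exact interior_subset hx0

end PartA

open PartA in
theorem t_A : S_A := by
  intro n I _ P hP hcov hface
  have hfe : ∀ i j, Ext (P i) (P i ∩ P j) := fun i j => face_ext (poly_convex (hP i)) (hface i j)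
  let cells : Set (Set (Fin n → ℝ)) :=
    {F | ∃ i, (interior (P i)).Nonempty ∧ F.Nonempty ∧ IsFace (P i) F}
  have hself : ∀ i, IsFace (P i) (P i) := by
    intro i
    rw [face_iff_ext (hP i)]
    exact ⟨Set.Subset.rfl, poly_convex (hP i), fun x hx _ _ _ _ _ _ _ _ => hx⟩
  let C : CompleteComplex n :=
    { cells := cells
      finite := by
        have : cells ⊆ ⋃ i, {F : Set (Fin n → ℝ) | F.Nonempty ∧ IsFace (P i) F} := by
          rintro F ⟨i, _, h1, h2⟩
          exact Set.mem_iUnion.2 ⟨i, h1, h2⟩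
        exact (Set.finite_iUnion (fun i => faces_finite (hP i))).subset this
      poly := by
        rintro F ⟨i, _, h1, h2⟩
        exact face_poly (hP i) h2 h1
      nonempty := by
        rintro F ⟨i, _, h1, h2⟩
        exact h1
      face_mem := by
        rintro F ⟨i, hi, h1, h2⟩ G hG hGne
        refine ⟨i, hi, hGne, ?_⟩
        rw [face_iff_ext (hP i)] at h2 ⊢
        have hFp := face_poly (hP i) ((face_iff_ext (hP i)).2 h2) h1
        exact ext_trans h2 ((face_iff_ext hFp).1 hG)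
      inter_face := by
        rintro F ⟨i, hi, h1, h2⟩ G ⟨j, hj, h3, h4⟩
        have hFp := face_poly (hP i) h2 h1
        rw [face_iff_ext hFp]
        exact ext_inter (hfe i j) ((face_iff_ext (hP i)).1 h2) ((face_iff_ext (hP j)).1 h4)
      cover := by
        apply Set.eq_univ_of_forall
        have hd : Dense (⋃ i, interior (P i)) :=
          dense_iUnion_interior_of_closed (fun i => poly_closed (hP i)) hcov
        have hcl : IsClosed (⋃ i : {i // (interior (P i)).Nonempty}, P i.1) :=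
          isClosed_iUnion_of_finite (fun i => poly_closed (hP i.1))
        have hsub : (⋃ i, interior (P i)) ⊆ ⋃ i : {i // (interior (P i)).Nonempty}, P i.1 := by
          intro x hx
          obtain ⟨i, hi⟩ := Set.mem_iUnion.1 hx
          exact Set.mem_iUnion.2 ⟨⟨i, ⟨x, hi⟩⟩, interior_subset hi⟩
        intro x
        have hx : x ∈ ⋃ i : {i // (interior (P i)).Nonempty}, P i.1 :=
          (closure_minimal hsub hcl) (hd x)
        obtain ⟨i, hi⟩ := Set.mem_iUnion.1 hx
        exact Set.mem_sUnion.2 ⟨P i.1, ⟨i.1, i.2, ⟨x, hi⟩, hself i.1⟩, hi⟩ }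
  refine ⟨C, ?_⟩
  rintro X ⟨⟨i, hi, h1, h2⟩, hX⟩
  exact ⟨i, hi, ext_full ((face_iff_ext (hP i)).1 h2) hX⟩

end Pool.Agent.H337_cpwl
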