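import Mathlib
import Pool.Agent.H337_cpwl.Defs

/-!
Basic facts on the signs and on `Sig`.
-/

set_option linter.unusedSectionVars false

open Set Finset

namespace Pool.Agent.H337_cpwl

variable {t : ℕ}

lemma sg_eq_one {q : Fin t} {c : Crd t} : sg q c = 1 ↔ c.1 < c.2 ∧ q = c.1 := by
  unfold sg
  by_cases h : c.1 < c.2
  · by_cases h1 : q = c.1
    · simp [h, h1]
    · by_cases h2 : q = c.2
      · simp [h, h2, h.ne']
        norm_num
      · simp [h, h1, h2]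
  · simp [h]

lemma sg_eq_neg_one {q : Fin t} {c : Crd t} : sg q c = -1 ↔ c.1 < c.2 ∧ q = c.2 := by
  unfold sg
  by_cases h : c.1 < c.2
  · by_cases h1 : q = c.1
    · simp [h, h1, h.ne]
      norm_num
    · by_cases h2 : q = c.2
      · simp [h, h2, h.ne']
      · simp [h, h1, h2]
  · simp [h]

lemma sg_cases (q : Fin t) (c : Crd t) : sg q c = 1 ∨ sg q c = -1 ∨ sg q c = 0 := by
  unfold sg
  split_ifs <;> simp

lemma sg_sq {q : Fin t} {c : Crd t} (h : sg q c ≠ 0) : sg q c * sg q c = 1 := by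
  rcases sg_cases q c with h1 | h1 | h1
  · rw [h1]; norm_num
  · rw [h1]; norm_num
  · exact absurd h1 h

lemma abs_sg_le (q : Fin t) (c : Crd t) : |sg q c| ≤ 1 := by
  rcases sg_cases q c with h1 | h1 | h1 <;> rw [h1] <;> norm_num

/-- the unique coordinate where the hosts `q`, `r` have opposite signs -/
lemma exists_conflict {q r : Fin t} (h : q ≠ r) : ∃ c : Crd t, sg q c ≠ 0 ∧ sg r c = -sg q c := by
  rcases lt_or_gt_of_ne h with h1 | h1
  · refine ⟨(q, r), ?_, ?_⟩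
    · rw [(sg_eq_one (q := q) (c := (q, r))).2 ⟨h1, rfl⟩]
      norm_num
    · rw [(sg_eq_one (q := q) (c := (q, r))).2 ⟨h1, rfl⟩,
        (sg_eq_neg_one (q := r) (c := (q, r))).2 ⟨h1, rfl⟩]
  · refine ⟨(r, q), ?_, ?_⟩
    · rw [(sg_eq_neg_one (q := q) (c := (r, q))).2 ⟨h1, rfl⟩]
      norm_num
    · rw [(sg_eq_neg_one (q := q) (c := (r, q))).2 ⟨h1, rfl⟩,
        (sg_eq_one (q := r) (c := (r, q))).2 ⟨h1, rfl⟩]
      norm_num

lemma conflict_cases {q r : Fin t} {c : Crd t} (h1 : sg q c ≠ 0) (h2 : sg r c = -sg q c) :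
    c.1 < c.2 ∧ ((q = c.1 ∧ r = c.2) ∨ (q = c.2 ∧ r = c.1)) := by
  rcases sg_cases q c with h | h | h
  · rw [h] at h2
    obtain ⟨h3, h4⟩ := sg_eq_one.1 h
    obtain ⟨h5, h6⟩ := sg_eq_neg_one.1 h2
    exact ⟨h3, Or.inl ⟨h4, h6⟩⟩
  · rw [h, neg_neg] at h2
    obtain ⟨h3, h4⟩ := sg_eq_neg_one.1 h
    obtain ⟨h5, h6⟩ := sg_eq_one.1 h2
    exact ⟨h3, Or.inr ⟨h4, h6⟩⟩
  · exact absurd h h1

lemma conflict_unique {q r : Fin t} {c d : Crd t} (h1 : sg q c ≠ 0) (h2 : sg r c = -sg q c)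
    (h3 : sg q d ≠ 0) (h4 : sg r d = -sg q d) : c = d := by
  obtain ⟨h5, h6⟩ := conflict_cases h1 h2
  obtain ⟨h7, h8⟩ := conflict_cases h3 h4
  rcases h6 with ⟨a, b⟩ | ⟨a, b⟩ <;> rcases h8 with ⟨a', b'⟩ | ⟨a', b'⟩
  · exact Prod.ext (a.symm.trans a') (b.symm.trans b')
  · exfalso
    rw [← a, ← b] at h5
    rw [← a', ← b'] at h7
    exact lt_asymm h5 h7
  · exfalso
    rw [← a, ← b] at h5
    rw [← a', ← b'] at h7
    exact lt_asymm h5 h7
  · exact Prod.ext (b.symm.trans b') (a.symm.trans a')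

lemma conflict_ne {q r r' : Fin t} {c d : Crd t} (h1 : sg q c ≠ 0) (h2 : sg r c = -sg q c)
    (h3 : sg q d ≠ 0) (h4 : sg r' d = -sg q d) (hne : r ≠ r') : c ≠ d := by
  rintro rfl
  obtain ⟨h5, h6⟩ := conflict_cases h1 h2
  obtain ⟨h7, h8⟩ := conflict_cases h3 h4
  rcases h6 with ⟨a, b⟩ | ⟨a, b⟩ <;> rcases h8 with ⟨a', b'⟩ | ⟨a', b'⟩
  · exact hne (b.trans b'.symm)
  · exact absurd (a.symm.trans a') h5.ne
  · exact absurd (a'.symm.trans a) h5.ne
  · exact hne (b.trans b'.symm)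

/-! ### `mu`, `Mx`, `Sig` -/

variable (R : ℝ)

lemma mu_none (q : Fin t) (x : Lv t) : mu R q none x = -x.2 := by
  simp [mu]

lemma mu_zero_of_ne {q : Fin t} {c : Crd t} (h : sg q c ≠ 0) (x : Lv t) :
    mu R q (some (c, 0)) x = x.2 - 2 * sg q c * x.1 c := by
  simp [mu, h]

lemma mu_zero_of_eq {q : Fin t} {c : Crd t} (h : sg q c = 0) (x : Lv t) :
    mu R q (some (c, 0)) x = -x.2 := by
  simp [mu, h]

lemma mu_one (q : Fin t) (c : Crd t) (x : Lv t) :
    mu R q (some (c, 1)) x = 2 * x.1 c - (1 + 2 * R) * x.2 := by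
  simp [mu]

lemma mu_two (q : Fin t) (c : Crd t) (x : Lv t) :
    mu R q (some (c, 2)) x = -2 * x.1 c - (1 + 2 * R) * x.2 := by
  simp [mu]

lemma mu_le_Mx (q : Fin t) (x : Lv t) (j : Option (Crd t × Fin 3)) : mu R q j x ≤ Mx R q x := by
  unfold Mx
  exact Finset.le_sup' (fun j => mu R q j x) (Finset.mem_univ j)

lemma exists_mu_eq_Mx (q : Fin t) (x : Lv t) : ∃ j, Mx R q x = mu R q j x := by
  unfold Mx
  obtain ⟨j, -, hj⟩ := Finset.exists_mem_eq_sup' (s := Finset.univ) ⟨none, Finset.mem_univ _⟩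
    (fun j => mu R q j x)
  exact ⟨j, hj⟩

lemma Mx_le (q : Fin t) (x : Lv t) (v : ℝ) (h0 : -x.2 ≤ v)
    (h1 : ∀ c, sg q c ≠ 0 → x.2 - 2 * sg q c * x.1 c ≤ v)
    (h2 : ∀ c, 2 * x.1 c - (1 + 2 * R) * x.2 ≤ v)
    (h3 : ∀ c, -2 * x.1 c - (1 + 2 * R) * x.2 ≤ v) : Mx R q x ≤ v := by
  unfold Mx
  apply Finset.sup'_le
  rintro (_ | ⟨c, i⟩) -
  · rw [mu_none]; exact h0
  · fin_cases i
    · by_cases h : sg q c = 0
      · change mu R q (some (c, 0)) x ≤ v
        rw [mu_zero_of_eq R h]; exact h0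
      · change mu R q (some (c, 0)) x ≤ v
        rw [mu_zero_of_ne R h]; exact h1 c h
    · change mu R q (some (c, 1)) x ≤ v
      rw [mu_one]; exact h2 c
    · change mu R q (some (c, 2)) x ≤ v
      rw [mu_two]; exact h3 c

lemma Sig_nonneg (x : Lv t) : 0 ≤ Sig R x := by
  unfold Sig
  exact Finset.le_sup' (fun o : Option (Fin t) => o.elim 0 (fun q => -(Mx R q x)))
    (Finset.mem_univ none)

lemma neg_Mx_le_Sig (q : Fin t) (x : Lv t) : -(Mx R q x) ≤ Sig R x := by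
  unfold Sig
  exact Finset.le_sup' (fun o : Option (Fin t) => o.elim 0 (fun q => -(Mx R q x)))
    (Finset.mem_univ (some q))

lemma Sig_le (x : Lv t) (v : ℝ) (h0 : 0 ≤ v) (h : ∀ q, -(Mx R q x) ≤ v) : Sig R x ≤ v := by
  unfold Sig
  apply Finset.sup'_le
  rintro (_ | q) -
  · exact h0
  · exact h q

lemma Sig_zero (z : Crd t → ℝ) : Sig R (z, 0) = 0 := by
  apply le_antisymm _ (Sig_nonneg R _)
  apply Sig_le R _ _ le_rfl
  intro q
  have := mu_le_Mx R q (z, 0) none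
  rw [mu_none] at this
  simp at this
  linarith

lemma Sig_le_snd (x : Lv t) (hx : 0 ≤ x.2) : Sig R x ≤ x.2 := by
  apply Sig_le R _ _ hx
  intro q
  have := mu_le_Mx R q x none
  rw [mu_none] at this
  linarith

lemma Sig_on {q : Fin t} {z : Crd t → ℝ} (h : ∀ c, sg q c ≠ 0 → 1 ≤ sg q c * z c)
    (hR : ∀ c, |z c| ≤ R) : Sig R (z, 1) = 1 := by
  apply le_antisymm (Sig_le_snd R _ (by norm_num))
  have h1 : Mx R q (z, 1) ≤ -1 := by
    apply Mx_le
    · norm_num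
    · intro c hc
      have := h c hc
      simp only
      linarith
    · intro c
      have := (abs_le.1 (hR c)).2
      simp only
      linarith
    · intro c
      have := (abs_le.1 (hR c)).1
      simp only
      linarith
  have := neg_Mx_le_Sig R q (z, 1)
  linarith

lemma Sig_off {z : Crd t → ℝ} (h : ∀ r : Fin t, ∃ c, sg r c ≠ 0 ∧ sg r c * z c ≤ 0) :
    Sig R (z, 1) = 0 := by
  apply le_antisymm _ (Sig_nonneg R _)
  apply Sig_le R _ _ le_rfl
  intro r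
  obtain ⟨c, h1, h2⟩ := h r
  have := mu_le_Mx R r (z, 1) (some (c, 0))
  rw [mu_zero_of_ne R h1] at this
  simp only at this
  linarith

lemma Phi_zero (N : ℕ) : ∀ x : Fin N → Crd t → ℝ, Phi R N (x, 0) = 0 := by
  induction N with
  | zero => intro x; rfl
  | succ N ih =>
    intro x
    change Phi R N (fun i => x i.succ, Sig R (x 0, 0)) = 0
    rw [Sig_zero]
    exact ih _

lemma Phi_on (N : ℕ) : ∀ x : Fin N → Crd t → ℝ, (∀ l, Sig R (x l, 1) = 1) →
    Phi R N (x, 1) = 1 := by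
  induction N with
  | zero => intro x _; rfl
  | succ N ih =>
    intro x hx
    change Phi R N (fun i => x i.succ, Sig R (x 0, 1)) = 1
    rw [hx 0]
    exact ih _ (fun l => hx l.succ)

lemma Phi_off (N : ℕ) : ∀ (x : Fin N → Crd t → ℝ) (l0 : Fin N), Sig R (x l0, 1) = 0 →
    (∀ l, l ≠ l0 → Sig R (x l, 1) = 1) → Phi R N (x, 1) = 0 := by
  induction N with
  | zero => intro x l0; exact l0.elim0
  | succ N ih =>
    intro x l0 h0 hx
    change Phi R N (fun i => x i.succ, Sig R (x 0, 1)) = 0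
    by_cases hl : l0 = 0
    · subst hl
      rw [h0]
      exact Phi_zero R N _
    · rw [hx 0 (Ne.symm hl)]
      obtain ⟨l1, rfl⟩ := Fin.exists_succ_eq.2 hl
      exact ih _ l1 h0 (fun l hl' => hx l.succ (fun h => hl' (Fin.succ_injective _ h)))

end Pool.Agent.H337_cpwl
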