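import Mathlib
import Pool.Agent.H337_cpwl.Defs
import Pool.Agent.H337_cpwl.Stmts
import Pool.Agent.H337_cpwl.Basic

/-!
Part B: the gadget complex.
-/

open Set Finset

namespace Pool.Agent.H337_cpwl

namespace PartB

variable {t : ℕ}

/-! ### real numbers -/

lemma abs_ge_up (a lo hi s : ℝ) : 2 * (a - hi * s) ≤ |a - lo * s| + |a - hi * s| - (hi - lo) * s := by
  have h1 := le_abs_self (a - lo * s)
  have h2 := le_abs_self (a - hi * s)
  nlinarith

lemma abs_ge_lo (a lo hi s : ℝ) : 2 * (lo * s - a) ≤ |a - lo * s| + |a - hi * s| - (hi - lo) * s := by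
  have h1 := neg_abs_le (a - lo * s)
  have h2 := neg_abs_le (a - hi * s)
  nlinarith

lemma abs_ge_zero (a lo hi s : ℝ) : 0 ≤ |a - lo * s| + |a - hi * s| - (hi - lo) * s := by
  have h1 := le_abs_self (a - lo * s)
  have h2 := neg_abs_le (a - hi * s)
  nlinarith

lemma abs_eq (a lo hi s : ℝ) (h1 : lo * s ≤ a) (h2 : a ≤ hi * s) :
    |a - lo * s| + |a - hi * s| = (hi - lo) * s := by
  rw [abs_of_nonneg (by linarith), abs_of_nonpos (by linarith)]
  ring

/-! ### the data -/

/-- slopes -/
noncomputable def bv (R : ℝ) : Fin 4 → ℝ := ![-(R + 1), -(1 / 2), 1 / 2, R + 1]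

/-- lower end -/
noncomputable def lo (R : ℝ) (q : Fin t) (c : Crd t) : ℝ := if sg q c = 1 then 1 / 2 else -(R + 1)

/-- upper end -/
noncomputable def hi (R : ℝ) (q : Fin t) (c : Crd t) : ℝ := if sg q c = -1 then -(1 / 2) else R + 1

/-- index of the lower end -/
noncomputable def li (q : Fin t) (c : Crd t) : Fin 4 := if sg q c = 1 then 2 else 0

/-- index of the upper end -/
noncomputable def hx (q : Fin t) (c : Crd t) : Fin 4 := if sg q c = -1 then 1 else 3

/-- `K` -/
noncomputable def KK (t : ℕ) (R : ℝ) : ℝ := 4 * (t : ℝ) ^ 2 * (R + 1) + 2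

/-- `W` -/
noncomputable def WW (t : ℕ) (R : ℝ) : ℝ := 4 * (KK t R + 2) + 2

/-- `Λ` -/
noncomputable def La (R : ℝ) (q : Fin t) : ℝ := ∑ c, (hi R q c - lo R q c)

/-- the hyperplanes -/
noncomputable def yy (R : ℝ) (p : Crd t × Fin 4) : Lv t →ₗ[ℝ] ℝ := zc p.1 - (bv R p.2) • ss

/-- the weights -/
noncomputable def ww (R : ℝ) : Option (Fin t) → Crd t × Fin 4 → ℝ
  | none, _ => 1
  | some q, p => if p.2 = li q p.1 ∨ p.2 = hx q p.1 then WW t R else 1

/-- index set of the functionals -/
abbrev TT (t : ℕ) : Type := (Fin t × Option (Crd t × Fin 3) × Bool) ⊕ (Crd t × Bool)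

/-- class of a functional -/
def rho : TT t → Option (Fin t)
  | Sum.inl p => some p.1
  | Sum.inr _ => none

/-- the functionals -/
noncomputable def BB (R : ℝ) : TT t → (Lv t →ₗ[ℝ] ℝ)
  | Sum.inl (q, j, false) => (WW t R * La R q + KK t R) • ss + mu R q j
  | Sum.inl (q, j, true) => (WW t R * La R q + KK t R) • ss + (2 : ℝ) • mu R q j
  | Sum.inr (c, b) => (4 * (t : ℝ) ^ 2 + 1) • ((if b then (1 : ℝ) else -1) • zc c - (R + 2) • ss)

/-- the values of `Sig` on the members -/
noncomputable def sig (R : ℝ) : ((Crd t × Fin 4 → Bool) ⊕ TT t) → (Lv t →ₗ[ℝ] ℝ)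
  | Sum.inl _ => 0
  | Sum.inr (Sum.inl (q, j, false)) => -mu R q j
  | Sum.inr (Sum.inl (_, _, true)) => 0
  | Sum.inr (Sum.inr _) => 0

lemma yy_apply (R : ℝ) (p : Crd t × Fin 4) (x : Lv t) : yy R p x = x.1 p.1 - bv R p.2 * x.2 := by
  simp [yy]

lemma BB_f (R : ℝ) (q : Fin t) (j : Option (Crd t × Fin 3)) (x : Lv t) :
    BB R (Sum.inl (q, j, false)) x = (WW t R * La R q + KK t R) * x.2 + mu R q j x := by
  simp [BB]

lemma BB_t (R : ℝ) (q : Fin t) (j : Option (Crd t × Fin 3)) (x : Lv t) :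
    BB R (Sum.inl (q, j, true)) x = (WW t R * La R q + KK t R) * x.2 + 2 * mu R q j x := by
  simp [BB]

lemma BB_o (R : ℝ) (c : Crd t) (b : Bool) (x : Lv t) :
    BB R (Sum.inr (c, b)) x =
      (4 * (t : ℝ) ^ 2 + 1) * ((if b then (1 : ℝ) else -1) * x.1 c - (R + 2) * x.2) := by
  cases b <;> simp [BB]

lemma KK_pos (t : ℕ) {R : ℝ} (hR : 1 ≤ R) : 2 ≤ KK t R := by
  unfold KK
  have : 0 ≤ 4 * (t : ℝ) ^ 2 * (R + 1) := by positivity
  linarith

lemma WW_pos (t : ℕ) {R : ℝ} (hR : 1 ≤ R) : 18 ≤ WW t R := by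
  unfold WW
  have := KK_pos t hR
  linarith

lemma lo_ge {R : ℝ} (hR : 1 ≤ R) (q : Fin t) (c : Crd t) : -(R + 1) ≤ lo R q c := by
  unfold lo
  split_ifs <;> linarith

lemma hi_le {R : ℝ} (hR : 1 ≤ R) (q : Fin t) (c : Crd t) : hi R q c ≤ R + 1 := by
  unfold hi
  split_ifs <;> linarith

lemma ww_some (R : ℝ) (q : Fin t) (c : Crd t) (b : Fin 4) :
    ww R (some q) (c, b) = if b = li q c ∨ b = hx q c then WW t R else 1 := rfl

lemma ww_none (R : ℝ) (p : Crd t × Fin 4) : ww R (none : Option (Fin t)) p = 1 := rfl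

lemma bv0 (R : ℝ) : bv R 0 = -(R + 1) := rfl
lemma bv1 (R : ℝ) : bv R 1 = -(1 / 2) := rfl
lemma bv2 (R : ℝ) : bv R 2 = 1 / 2 := rfl
lemma bv3 (R : ℝ) : bv R 3 = R + 1 := rfl

/-- the part of `A_q` at one coordinate -/
lemma row_eq (R : ℝ) (q : Fin t) (c : Crd t) (x : Lv t) :
    ∑ b : Fin 4, ww R (some q) (c, b) * |yy R (c, b) x| =
      WW t R * (|x.1 c - lo R q c * x.2| + |x.1 c - hi R q c * x.2|) +
        (if sg q c = 1 then |x.1 c - bv R 0 * x.2| + |x.1 c - bv R 1 * x.2| else
          if sg q c = -1 then |x.1 c - bv R 2 * x.2| + |x.1 c - bv R 3 * x.2| else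
            |x.1 c - bv R 1 * x.2| + |x.1 c - bv R 2 * x.2|) := by
  rw [Fin.sum_univ_four]
  simp only [yy_apply, ww_some]
  rcases sg_cases q c with h | h | h
  · have h2 : ¬ (sg q c = -1) := by rw [h]; norm_num
    have e1 : li q c = 2 := by unfold li; rw [if_pos h]
    have e2 : hx q c = 3 := by unfold hx; rw [if_neg h2]
    have e3 : lo R q c = 1 / 2 := by unfold lo; rw [if_pos h]
    have e4 : hi R q c = R + 1 := by unfold hi; rw [if_neg h2]
    rw [e1, e2, e3, e4, if_pos h, if_neg (by decide), if_neg (by decide), if_pos (by decide),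
      if_pos (by decide), bv2, bv3]
    ring
  · have h2 : ¬ (sg q c = 1) := by rw [h]; norm_num
    have e1 : li q c = 0 := by unfold li; rw [if_neg h2]
    have e2 : hx q c = 1 := by unfold hx; rw [if_pos h]
    have e3 : lo R q c = -(R + 1) := by unfold lo; rw [if_neg h2]
    have e4 : hi R q c = -(1 / 2) := by unfold hi; rw [if_pos h]
    rw [e1, e2, e3, e4, if_neg h2, if_pos h, if_pos (by decide), if_pos (by decide),
      if_neg (by decide), if_neg (by decide), bv0, bv1]
    ring
  · have h1 : ¬ (sg q c = 1) := by rw [h]; norm_num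
    have h2 : ¬ (sg q c = -1) := by rw [h]; norm_num
    have e1 : li q c = 0 := by unfold li; rw [if_neg h1]
    have e2 : hx q c = 3 := by unfold hx; rw [if_neg h2]
    have e3 : lo R q c = -(R + 1) := by unfold lo; rw [if_neg h1]
    have e4 : hi R q c = R + 1 := by unfold hi; rw [if_neg h2]
    rw [e1, e2, e3, e4, if_neg h1, if_neg h2, if_pos (by decide), if_neg (by decide),
      if_neg (by decide), if_pos (by decide), bv0, bv3]
    ring

/-- the defect -/
noncomputable def DD (R : ℝ) (q : Fin t) (x : Lv t) (c : Crd t) : ℝ :=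
  |x.1 c - lo R q c * x.2| + |x.1 c - hi R q c * x.2| - (hi R q c - lo R q c) * x.2

lemma DD_nonneg (R : ℝ) (q : Fin t) (x : Lv t) (c : Crd t) : 0 ≤ DD R q x c :=
  abs_ge_zero _ _ _ _

lemma DD_lo (R : ℝ) (q : Fin t) (x : Lv t) (c : Crd t) :
    2 * (lo R q c * x.2 - x.1 c) ≤ DD R q x c := abs_ge_lo _ _ _ _

lemma DD_hi (R : ℝ) (q : Fin t) (x : Lv t) (c : Crd t) :
    2 * (x.1 c - hi R q c * x.2) ≤ DD R q x c := abs_ge_up _ _ _ _

/-- `A_r` -/
noncomputable def AA (R : ℝ) (r : Option (Fin t)) (x : Lv t) : ℝ :=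
  ∑ p, ww R r p * |yy R p x|

lemma AA_some (R : ℝ) (q : Fin t) (x : Lv t) :
    AA R (some q) x = WW t R * (∑ c, DD R q x c) + WW t R * La R q * x.2 + 
      ∑ c, (if sg q c = 1 then |x.1 c - bv R 0 * x.2| + |x.1 c - bv R 1 * x.2| else
          if sg q c = -1 then |x.1 c - bv R 2 * x.2| + |x.1 c - bv R 3 * x.2| else
            |x.1 c - bv R 1 * x.2| + |x.1 c - bv R 2 * x.2|) := by
  unfold AA
  rw [Fintype.sum_prod_type]
  simp only [row_eq]
  rw [Finset.sum_add_distrib]
  congr 1
  unfold La DD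
  rw [Finset.mul_sum, Finset.mul_sum, Finset.sum_mul, ← Finset.sum_add_distrib]
  apply Finset.sum_congr rfl
  intro c _
  ring

lemma AA_ge (R : ℝ) (q : Fin t) (x : Lv t) :
    WW t R * (∑ c, DD R q x c) + WW t R * La R q * x.2 ≤ AA R (some q) x := by
  rw [AA_some]
  have : 0 ≤ ∑ c, (if sg q c = 1 then |x.1 c - bv R 0 * x.2| + |x.1 c - bv R 1 * x.2| else
          if sg q c = -1 then |x.1 c - bv R 2 * x.2| + |x.1 c - bv R 3 * x.2| else
            |x.1 c - bv R 1 * x.2| + |x.1 c - bv R 2 * x.2|) := by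
    apply Finset.sum_nonneg
    intro c _
    split_ifs <;> positivity
  linarith

lemma AA_none_nonneg (R : ℝ) (x : Lv t) : 0 ≤ AA R none x := by
  unfold AA
  apply Finset.sum_nonneg
  intro c _
  rw [ww_none]
  positivity

lemma mu_le {R : ℝ} (hR : 1 ≤ R) (q : Fin t) (x : Lv t) (hs : 0 ≤ x.2)
    (j : Option (Crd t × Fin 3)) : mu R q j x ≤ x.2 + ∑ c, DD R q x c := by
  have hle : ∀ c, DD R q x c ≤ ∑ c, DD R q x c := fun c =>
    Finset.single_le_sum (f := fun c => DD R q x c) (fun c _ => DD_nonneg R q x c) (mem_univ c)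
  have hnn : 0 ≤ ∑ c, DD R q x c := Finset.sum_nonneg (fun c _ => DD_nonneg R q x c)
  have key : Mx R q x ≤ x.2 + ∑ c, DD R q x c := by
    apply Mx_le
    · linarith
    · intro c hc
      rcases sg_cases q c with h | h | h
      · have h1 := DD_lo R q x c
        have h2 := hle c
        have e3 : lo R q c = 1 / 2 := by unfold lo; rw [if_pos h]
        rw [h]
        rw [e3] at h1
        linarith
      · have h1 := DD_hi R q x c
        have h2 := hle c
        have e4 : hi R q c = -(1 / 2) := by unfold hi; rw [if_pos h]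
        rw [h]
        rw [e4] at h1
        linarith
      · exact absurd h hc
    · intro c
      have h1 := DD_hi R q x c
      have h2 := hle c
      have h3 := mul_le_mul_of_nonneg_right (hi_le hR q c) hs
      linarith
    · intro c
      have h1 := DD_lo R q x c
      have h2 := hle c
      have h3 := mul_le_mul_of_nonneg_right (lo_ge hR q c) hs
      linarith
  exact (mu_le_Mx R q x j).trans key

lemma X_bound {R : ℝ} (hR : 1 ≤ R) (q : Fin t) (j : Option (Crd t × Fin 3)) (b : Bool)
    (x : Lv t) (hs : 0 ≤ x.2) (h : AA R (some q) x ≤ BB R (Sum.inl (q, j, b)) x) (c : Crd t) :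
    lo R q c * x.2 - x.2 / 8 ≤ x.1 c ∧ x.1 c ≤ hi R q c * x.2 + x.2 / 8 := by
  have hnn : 0 ≤ ∑ c, DD R q x c := Finset.sum_nonneg (fun c _ => DD_nonneg R q x c)
  have hle : DD R q x c ≤ ∑ c, DD R q x c :=
    Finset.single_le_sum (f := fun c => DD R q x c) (fun c _ => DD_nonneg R q x c) (mem_univ c)
  have h1 := AA_ge R q x
  have h2 := mu_le hR q x hs j
  have h3 : BB R (Sum.inl (q, j, b)) x ≤
      (WW t R * La R q + KK t R) * x.2 + 2 * (x.2 + ∑ c, DD R q x c) := by
    cases b
    · rw [BB_f]; linarith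
    · rw [BB_t]; linarith
  have hK := KK_pos t hR
  have h4 : 4 * (KK t R + 2) * (∑ c, DD R q x c) ≤ (KK t R + 2) * x.2 := by
    have h5 := h1.trans (h.trans h3)
    have h6 : WW t R = 4 * (KK t R + 2) + 2 := rfl
    have h7 : WW t R * (∑ c, DD R q x c) ≤ KK t R * x.2 + 2 * (x.2 + ∑ c, DD R q x c) := by
      linarith
    rw [h6] at h7
    linarith
  have h5 : ∑ c, DD R q x c ≤ x.2 / 4 := by
    have h6 : 0 < KK t R + 2 := by linarith
    have h7 : (KK t R + 2) * (4 * ∑ c, DD R q x c) ≤ (KK t R + 2) * x.2 := by linarith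
    have h8 := le_of_mul_le_mul_left h7 h6
    linarith
  have h8 := DD_lo R q x c
  have h9 := DD_hi R q x c
  constructor
  · linarith
  · linarith

/-- a point of `X_q` with `s = 0` is `0` -/
lemma eq_zero_of_s {R : ℝ} (hR : 1 ≤ R) (q : Fin t) (j : Option (Crd t × Fin 3)) (b : Bool)
    (x : Lv t) (hs : x.2 = 0) (h : AA R (some q) x ≤ BB R (Sum.inl (q, j, b)) x) : x = 0 := by
  have h1 := X_bound hR q j b x hs.ge h
  apply Prod.ext
  · funext c
    obtain ⟨h2, h3⟩ := h1 c
    rw [hs] at h2 h3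
    simp only [Prod.fst_zero, Pi.zero_apply]
    linarith
  · exact hs

lemma disj_qq {R : ℝ} (hR : 1 ≤ R) {q q' : Fin t} (hq : q ≠ q') (j j' : Option (Crd t × Fin 3))
    (b b' : Bool) (x : Lv t) (hs : 0 ≤ x.2)
    (h : AA R (some q) x ≤ BB R (Sum.inl (q, j, b)) x)
    (h' : AA R (some q') x ≤ BB R (Sum.inl (q', j', b')) x) : x = 0 := by
  obtain ⟨c, h1, h2⟩ := exists_conflict hq
  have h3 := X_bound hR q j b x hs h c
  have h4 := X_bound hR q' j' b' x hs h' c
  apply eq_zero_of_s hR q j b x _ h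
  rcases sg_cases q c with h5 | h5 | h5
  · have e3 : lo R q c = 1 / 2 := by unfold lo; rw [if_pos h5]
    have e4 : hi R q' c = -(1 / 2) := by unfold hi; rw [if_pos (by rw [h2, h5])]
    rw [e3] at h3
    rw [e4] at h4
    linarith [h3.1, h4.2]
  · have e3 : lo R q' c = 1 / 2 := by unfold lo; rw [if_pos (by rw [h2, h5, neg_neg])]
    have e4 : hi R q c = -(1 / 2) := by unfold hi; rw [if_pos h5]
    rw [e3] at h4
    rw [e4] at h3
    linarith [h3.2, h4.1]
  · exact absurd h5 h1

lemma disj_qo {R : ℝ} (hR : 1 ≤ R) {q : Fin t} (j : Option (Crd t × Fin 3))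
    (b : Bool) (c : Crd t) (b' : Bool) (x : Lv t) (hs : 0 ≤ x.2)
    (h : AA R (some q) x ≤ BB R (Sum.inl (q, j, b)) x)
    (h' : AA R none x ≤ BB R (Sum.inr (c, b')) x) : x = 0 := by
  have h3 := X_bound hR q j b x hs h c
  apply eq_zero_of_s hR q j b x _ h
  have h4 := (AA_none_nonneg R x).trans h'
  rw [BB_o] at h4
  have h5 : 0 < 4 * (t : ℝ) ^ 2 + 1 := by positivity
  have h6 := nonneg_of_mul_nonneg_right h4 h5
  have h7 := mul_le_mul_of_nonneg_right (hi_le hR q c) hs
  have h8 := mul_le_mul_of_nonneg_right (lo_ge hR q c) hs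
  cases b'
  · simp only [Bool.false_eq_true, if_false] at h6
    linarith [h3.1]
  · simp only [if_true] at h6
    linarith [h3.2]

lemma disj {R : ℝ} (hR : 1 ≤ R) (β β' : TT t) (x : Lv t) (hne : rho β ≠ rho β') (hs : 0 ≤ x.2)
    (h : AA R (rho β) x ≤ BB R β x) (h' : AA R (rho β') x ≤ BB R β' x) : x = 0 := by
  rcases β with ⟨q, j, b⟩ | ⟨c, b⟩ <;> rcases β' with ⟨q', j', b'⟩ | ⟨c', b'⟩
  · have hq : q ≠ q' := fun h => hne (by rw [h]; rfl)
    exact disj_qq hR hq j j' b b' x hs h h'
  · exact disj_qo hR j b c' b' x hs h h'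
  · exact disj_qo hR j' b' c b x hs h' h
  · exact absurd rfl hne

/-- a point with `m_q > 0` is in the interior of `X_q` -/
lemma Mx_neg {R : ℝ} (hR : 1 ≤ R) (q : Fin t) (x : Lv t) (h : Mx R q x < 0) :
    AA R (some q) x < BB R (Sum.inl (q, none, false)) x := by
  have hm : ∀ j, mu R q j x < 0 := fun j => (mu_le_Mx R q x j).trans_lt h
  have hs : 0 < x.2 := by
    have := hm none
    rw [mu_none] at this
    linarith
  have hup : ∀ c, x.1 c ≤ (R + 1 / 2) * x.2 := by
    intro c
    have := hm (some (c, 1))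
    rw [mu_one] at this
    linarith
  have hlow : ∀ c, -((R + 1 / 2) * x.2) ≤ x.1 c := by
    intro c
    have := hm (some (c, 2))
    rw [mu_two] at this
    linarith
  have hab : ∀ c, |x.1 c| ≤ (R + 1 / 2) * x.2 := fun c => abs_le.2 ⟨hlow c, hup c⟩
  have hD : ∀ c, DD R q x c = 0 := by
    intro c
    unfold DD
    rw [sub_eq_zero]
    apply abs_eq
    · unfold lo
      split_ifs with h1
      · have h2 : sg q c ≠ 0 := by rw [h1]; norm_num
        have := hm (some (c, 0))
        rw [mu_zero_of_ne R h2, h1] at this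
        linarith
      · have := hlow c
        nlinarith
    · unfold hi
      split_ifs with h1
      · have h2 : sg q c ≠ 0 := by rw [h1]; norm_num
        have := hm (some (c, 0))
        rw [mu_zero_of_ne R h2, h1] at this
        linarith
      · have := hup c
        nlinarith
  rw [AA_some, BB_f, mu_none]
  have hD2 : ∑ c, DD R q x c = 0 := Finset.sum_eq_zero (fun c _ => hD c)
  rw [hD2]
  have hb : ∀ c, ∀ v : ℝ, |v| ≤ R + 1 → |x.1 c - v * x.2| ≤ 2 * (R + 1) * x.2 := by
    intro c v hv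
    have h1 := abs_sub (x.1 c) (v * x.2)
    rw [abs_mul, abs_of_pos hs] at h1
    have h2 := mul_le_mul_of_nonneg_right hv hs.le
    have h3 := hab c
    nlinarith
  have hb0 : |bv R 0| ≤ R + 1 := by
    rw [bv0, abs_neg, abs_of_pos (by linarith)]
  have hb1 : |bv R 1| ≤ R + 1 := by
    rw [bv1, abs_neg, abs_of_pos (by norm_num)]; linarith
  have hb2 : |bv R 2| ≤ R + 1 := by
    rw [bv2, abs_of_pos (by norm_num)]; linarith
  have hb3 : |bv R 3| ≤ R + 1 := by
    rw [bv3, abs_of_pos (by linarith)]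
  have hsum : ∑ c : Crd t, (if sg q c = 1 then |x.1 c - bv R 0 * x.2| + |x.1 c - bv R 1 * x.2| else
          if sg q c = -1 then |x.1 c - bv R 2 * x.2| + |x.1 c - bv R 3 * x.2| else
            |x.1 c - bv R 1 * x.2| + |x.1 c - bv R 2 * x.2|) ≤
      ∑ _c : Crd t, 4 * (R + 1) * x.2 := by
    apply Finset.sum_le_sum
    intro c _
    have g0 := hb c _ hb0
    have g1 := hb c _ hb1
    have g2 := hb c _ hb2
    have g3 := hb c _ hb3
    split_ifs <;> linarith
  have hcard : ∑ _c : Crd t, 4 * (R + 1) * x.2 = 4 * (t : ℝ) ^ 2 * (R + 1) * x.2 := by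
    rw [Finset.sum_const, Finset.card_univ, Fintype.card_prod, Fintype.card_fin, nsmul_eq_mul]
    push_cast
    ring
  rw [hcard] at hsum
  have hK : KK t R = 4 * (t : ℝ) ^ 2 * (R + 1) + 2 := rfl
  rw [hK]
  nlinarith

lemma exists_crd (ht : 2 ≤ t) : Nonempty (Crd t) :=
  ⟨(⟨0, by omega⟩, ⟨0, by omega⟩)⟩

lemma yy_zero {R : ℝ} (ht : 2 ≤ t) (x : Lv t) (h : ∀ p, yy R p x = 0) : x = 0 := by
  obtain ⟨c0⟩ := exists_crd ht
  have hs : x.2 = 0 := by
    have h1 := h (c0, 1)
    have h2 := h (c0, 2)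
    rw [yy_apply] at h1 h2
    simp only [bv1, bv2] at h1 h2
    linarith
  apply Prod.ext
  · funext c
    have h1 := h (c, 1)
    rw [yy_apply] at h1
    rw [hs] at h1
    simp only [Prod.fst_zero, Pi.zero_apply]
    linarith
  · exact hs

/-- at `s = 0`, the outer functionals win -/
lemma outer_wins {R : ℝ} (ht : 2 ≤ t) (z : Crd t → ℝ) (hz : z ≠ 0) :
    ∃ c b, AA R none (z, (0 : ℝ)) < BB R (Sum.inr (c, b)) (z, (0 : ℝ)) := by
  have := exists_crd ht
  obtain ⟨c, hc⟩ := Finite.exists_max (fun c => |z c|)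
  have hpos : 0 < |z c| := by
    rw [abs_pos]
    intro h0
    apply hz
    funext d
    have := hc d
    rw [h0, abs_zero] at this
    simpa using abs_nonpos_iff.1 this
  have hA : AA R (none : Option (Fin t)) (z, (0 : ℝ)) ≤ 4 * (t : ℝ) ^ 2 * |z c| := by
    unfold AA
    calc ∑ p, ww R none p * |yy R p (z, (0 : ℝ))| ≤ ∑ _p : Crd t × Fin 4, |z c| := by
          apply Finset.sum_le_sum
          intro p _
          rw [ww_none, yy_apply, one_mul]
          simp only [mul_zero, sub_zero]
          exact hc p.1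
      _ = 4 * (t : ℝ) ^ 2 * |z c| := by
          rw [Finset.sum_const, Finset.card_univ, Fintype.card_prod, Fintype.card_prod,
            Fintype.card_fin, Fintype.card_fin, nsmul_eq_mul]
          push_cast
          ring
  rcases le_total 0 (z c) with h | h
  · refine ⟨c, true, ?_⟩
    rw [BB_o]
    simp only [if_true, mul_zero, sub_zero, one_mul]
    rw [abs_of_nonneg h] at hA hpos
    nlinarith
  · refine ⟨c, false, ?_⟩
    rw [BB_o]
    simp only [Bool.false_eq_true, if_false, mul_zero, sub_zero]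
    rw [abs_of_nonpos h] at hA hpos
    nlinarith

lemma card_sub_le {G X : Type} [Finite X] (P : G → Prop) (f : X → G)
    (h : ∀ g, P g → ∃ x, f x = g) : Nat.card {g // P g} ≤ Nat.card X := by
  choose k hk using h
  apply Nat.card_le_card_of_injective (fun g : {g // P g} => k g.1 g.2)
  intro a b hab
  apply Subtype.ext
  have h1 := hk a.1 a.2
  have h2 := hk b.1 b.2
  simp only at hab
  rw [← h1, ← h2, hab]

lemma interior_empty (ht : 2 ≤ t) (S : Set (Crd t → ℝ)) (h : ∀ z ∈ S, z = 0) :
    ¬ (interior S).Nonempty := by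
  have := exists_crd ht
  rintro ⟨z, hz⟩
  have hsub : S ⊆ {0} := fun z hz => h z hz
  have h2 := interior_mono hsub hz
  rw [interior_singleton] at h2
  exact h2

end PartB

open PartB

theorem t_B : S_B1 → S_B := by
  intro hB1 t R ht hR
  obtain ⟨D, hG, hl, hr⟩ := hB1 (Lv t) _ _ ss (Crd t × Fin 4) inferInstance (yy R)
    (Option (Fin t)) inferInstance (ww R) (TT t) inferInstance rho (BB R)
    (by
      intro r p
      rcases r with _ | q
      · rw [ww_none]; norm_num
      · obtain ⟨c, b⟩ := p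
        rw [ww_some]
        have := WW_pos t hR
        split_ifs
        · linarith
        · norm_num)
    (by
      intro β β' x hne hs h h'
      exact disj hR β β' x hne hs h h')
    (by
      intro x _ h
      exact yy_zero ht x h)
  have hsg : ∀ x : Lv t, 0 ≤ x.2 → ∀ q : Fin t, (∀ j, BB R (Sum.inl (q, j, false)) x ≤
      AA R (some q) x) → -(Mx R q x) ≤ 0 := by
    intro x _ q h
    by_contra hcon
    have h1 : Mx R q x < 0 := by linarith
    have h2 := Mx_neg hR q x h1
    have h3 := h none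
    linarith
  have hother : ∀ (x : Lv t) (q : Fin t) (β : TT t), 0 ≤ x.2 → rho β ≠ some q →
      AA R (rho β) x ≤ BB R β x → -(Mx R q x) ≤ 0 := by
    intro x q β hs hne h
    by_contra hcon
    have h1 : Mx R q x < 0 := by linarith
    have h2 := Mx_neg hR q x h1
    have h3 := disj hR β (Sum.inl (q, none, false)) x hne hs h h2.le
    have h4 := mu_le_Mx R q x none
    rw [mu_none, h3] at h4
    rw [h3] at h1
    simp only [Prod.snd_zero, neg_zero] at h4
    linarith
  refine ⟨(Crd t × Fin 4 → Bool) ⊕ TT t, inferInstance, D, sig R, hG, ?_, ?_, ?_, ?_⟩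
  · rintro (ε | ⟨q, j, b⟩ | ⟨c, b⟩) x hx
    · obtain ⟨hs, -, h⟩ := (hl ε x).1 hx
      change Sig R x = 0
      apply le_antisymm _ (Sig_nonneg R x)
      apply Sig_le R x 0 le_rfl
      intro q
      apply hsg x hs q
      intro j
      exact h (Sum.inl (q, j, false))
    · obtain ⟨hs, h1, h2⟩ := (hr _ x).1 hx
      cases b
      · change Sig R x = (-mu R q j) x
        rw [LinearMap.neg_apply]
        have hmu0 : mu R q j x ≤ 0 := by
          have := h2 (Sum.inl (q, j, true)) rfl
          rw [BB_t, BB_f] at this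
          linarith
        have hmx : Mx R q x = mu R q j x := by
          apply le_antisymm _ (mu_le_Mx R q x j)
          obtain ⟨j', hj'⟩ := exists_mu_eq_Mx R q x
          rw [hj']
          have := h2 (Sum.inl (q, j', false)) rfl
          rw [BB_f, BB_f] at this
          linarith
        apply le_antisymm
        · apply Sig_le R x _ (by linarith)
          intro q'
          by_cases hq : q' = q
          · rw [hq, hmx]
          · have := hother x q' (Sum.inl (q, j, false)) hs
              (fun h => hq (Option.some_injective _ h).symm) h1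
            linarith
        · have := neg_Mx_le_Sig R q x
          rw [hmx] at this
          exact this
      · change Sig R x = 0
        have hmu0 : 0 ≤ mu R q j x := by
          have := h2 (Sum.inl (q, j, false)) rfl
          rw [BB_t, BB_f] at this
          linarith
        apply le_antisymm _ (Sig_nonneg R x)
        apply Sig_le R x 0 le_rfl
        intro q'
        by_cases hq : q' = q
        · rw [hq]
          have := mu_le_Mx R q x j
          linarith
        · exact hother x q' (Sum.inl (q, j, true)) hs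
            (fun h => hq (Option.some_injective _ h).symm) h1
    · obtain ⟨hs, h1, h2⟩ := (hr _ x).1 hx
      change Sig R x = 0
      apply le_antisymm _ (Sig_nonneg R x)
      apply Sig_le R x 0 le_rfl
      intro q
      exact hother x q (Sum.inr (c, b)) hs (by simp [rho]) h1
  · have h1 := card_sub_le (fun g => sig (t := t) R g ≠ 0)
      (fun p : Fin t × Option (Crd t × Fin 3) => Sum.inr (Sum.inl (p.1, p.2, false))) (by
        rintro (ε | ⟨q, j, b⟩ | ⟨c, b⟩) hg
        · exact absurd rfl hg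
        · cases b
          · exact ⟨(q, j), rfl⟩
          · exact absurd rfl hg
        · exact absurd rfl hg)
    refine h1.trans (le_of_eq ?_)
    rw [Nat.card_eq_fintype_card]
    simp only [Fintype.card_prod, Fintype.card_option, Fintype.card_fin, sPos]
    ring
  · rw [Nat.card_eq_fintype_card]
    apply le_of_eq
    simp only [Fintype.card_sum, Fintype.card_fun, Fintype.card_prod, Fintype.card_option,
      Fintype.card_fin, Fintype.card_bool, sAll]
    ring_nf
  · have h1 := card_sub_le (fun g => (interior {z : Crd t → ℝ | (z, (0 : ℝ)) ∈ D g}).Nonempty)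
      (fun p : Crd t × Bool => Sum.inr (Sum.inr p)) (by
        rintro (ε | ⟨q, j, b⟩ | ⟨c, b⟩) hg
        · exfalso
          apply interior_empty ht _ _ hg
          intro z hz
          by_contra hz0
          obtain ⟨c, b, h⟩ := outer_wins (R := R) ht z hz0
          obtain ⟨-, -, h3⟩ := (hl ε _).1 hz
          have h4 := h3 (Sum.inr (c, b))
          exact absurd h4 (not_le.2 h)
        · exfalso
          apply interior_empty ht _ _ hg
          intro z hz
          obtain ⟨-, h3, -⟩ := (hr _ _).1 hz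
          have h4 := eq_zero_of_s hR q j b (z, (0 : ℝ)) rfl h3
          exact congrArg Prod.fst h4
        · exact ⟨(c, b), rfl⟩)
    refine h1.trans (le_of_eq ?_)
    rw [Nat.card_eq_fintype_card]
    simp only [Fintype.card_prod, Fintype.card_fin, Fintype.card_bool]
    ring

end Pool.Agent.H337_cpwl
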