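import Mathlib
import Pool.Agent.H337_cpwl.Defs
import Pool.Agent.H337_cpwl.Stmts

/-!
Part B1: the gluing lemma.
-/

set_option autoImplicit false

open Set

namespace Pool.Agent.H337_cpwl

namespace PartB1

variable {E : Type} [AddCommGroup E] [Module ℝ E]

/-- polyhedral cones given by a finite family indexed by any finite type -/
lemma polyCone_of {ι : Type} [Finite ι] (a : ι → (E →ₗ[ℝ] ℝ)) (K : Set E)
    (hK : ∀ x, x ∈ K ↔ ∀ i, 0 ≤ a i x) : IsPolyCone K := by
  cases nonempty_fintype ι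
  refine ⟨Fintype.card ι, fun i => a ((Fintype.equivFin ι).symm i), ?_⟩
  ext x
  rw [hK]
  constructor
  · intro h i
    exact h _
  · intro h i
    have h1 : 0 ≤ a ((Fintype.equivFin ι).symm (Fintype.equivFin ι i)) x := h (Fintype.equivFin ι i)
    rwa [Equiv.symm_apply_apply] at h1

/-- the sign -/
def sn (b : Bool) : ℝ := if b then (1 : ℝ) else -1

lemma sn_mul_le (b : Bool) (v : ℝ) : sn b * v ≤ |v| := by
  unfold sn
  cases b
  · simp only [Bool.false_eq_true, if_false]
    rw [neg_one_mul]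
    exact neg_le_abs v
  · simp only [if_true, one_mul]
    exact le_abs_self v

lemma sn_mul_eq {b : Bool} {v : ℝ} (h : 0 ≤ sn b * v) : sn b * v = |v| := by
  unfold sn at h ⊢
  cases b
  · simp only [Bool.false_eq_true, if_false, neg_one_mul] at h ⊢
    rw [abs_of_nonpos (by linarith)]
  · simp only [if_true, one_mul] at h ⊢
    rw [abs_of_nonneg h]

lemma sn_decide (v : ℝ) [Decidable (0 ≤ v)] : 0 ≤ sn (decide (0 ≤ v)) * v := by
  unfold sn
  by_cases h : 0 ≤ v
  · simp [h]
  · simp only [h, decide_false, Bool.false_eq_true, if_false, neg_one_mul]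
    linarith

variable {Y Rr T : Type} [Fintype Y] [Fintype T]

/-- the weighted sum of absolute values -/
def AA (y : Y → (E →ₗ[ℝ] ℝ)) (w : Rr → Y → ℝ) (r : Rr) (x : E) : ℝ := ∑ c, w r c * |y c x|

/-- the linear functional for a sign vector -/
def al (y : Y → (E →ₗ[ℝ] ℝ)) (w : Rr → Y → ℝ) (r : Rr) (ε : Y → Bool) : E →ₗ[ℝ] ℝ :=
  ∑ c, (w r c * sn (ε c)) • y c

lemma al_apply (y : Y → (E →ₗ[ℝ] ℝ)) (w : Rr → Y → ℝ) (r : Rr) (ε : Y → Bool) (x : E) :
    al y w r ε x = ∑ c, w r c * (sn (ε c) * y c x) := by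
  unfold al
  rw [LinearMap.sum_apply]
  refine Finset.sum_congr rfl fun c _ => ?_
  rw [LinearMap.smul_apply, smul_eq_mul, mul_assoc]

variable {y : Y → (E →ₗ[ℝ] ℝ)} {w : Rr → Y → ℝ}

lemma al_le (hw : ∀ r c, 0 < w r c) (r : Rr) (ε : Y → Bool) (x : E) :
    al y w r ε x ≤ AA y w r x := by
  rw [al_apply]
  unfold AA
  exact Finset.sum_le_sum fun c _ => mul_le_mul_of_nonneg_left (sn_mul_le _ _) (hw r c).le

lemma al_eq (r : Rr) (ε : Y → Bool) (x : E)
    (h : ∀ c, 0 ≤ sn (ε c) * y c x) : al y w r ε x = AA y w r x := by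
  rw [al_apply]
  unfold AA
  exact Finset.sum_congr rfl fun c _ => by rw [sn_mul_eq (h c)]

lemma of_al_eq (hw : ∀ r c, 0 < w r c) (r : Rr) (ε : Y → Bool) (x : E)
    (h : al y w r ε x = AA y w r x) : ∀ c, 0 ≤ sn (ε c) * y c x := by
  rw [al_apply] at h
  unfold AA at h
  intro c
  have h1 := (Finset.sum_eq_sum_iff_of_le (s := Finset.univ)
    (fun c _ => mul_le_mul_of_nonneg_left (sn_mul_le (ε c) (y c x)) (hw r c).le)).1 h c
    (Finset.mem_univ c)
  rw [mul_left_cancel₀ (hw r c).ne' h1]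
  exact abs_nonneg _

lemma AA_nonneg (hw : ∀ r c, 0 < w r c) (r : Rr) (x : E) : 0 ≤ AA y w r x :=
  Finset.sum_nonneg fun c _ => mul_nonneg (hw r c).le (abs_nonneg _)

lemma AA_zero (r : Rr) : AA y w r 0 = 0 := by
  unfold AA
  simp

lemma of_AA_zero (hw : ∀ r c, 0 < w r c) (r : Rr) (x : E) (h : AA y w r x ≤ 0) : ∀ c, y c x = 0 := by
  have h0 : AA y w r x = 0 := le_antisymm h (AA_nonneg hw r x)
  unfold AA at h0
  intro c
  have h1 := (Finset.sum_eq_zero_iff_of_nonneg
    (fun c _ => mul_nonneg (hw r c).le (abs_nonneg (y c x)))).1 h0 c (Finset.mem_univ c)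
  rcases mul_eq_zero.1 h1 with h2 | h2
  · exact absurd h2 (hw r c).ne'
  · exact abs_eq_zero.1 h2

omit [Fintype Y] in
/-- the best sign vector -/
lemma exists_sign (x : E) : ∃ ε : Y → Bool, ∀ c, 0 ≤ sn (ε c) * y c x := by
  classical
  exact ⟨fun c => decide (0 ≤ y c x), fun c => sn_decide _⟩

lemma AA_le_iff (hw : ∀ r c, 0 < w r c) (r : Rr) (x : E) (b : ℝ) :
    AA y w r x ≤ b ↔ ∀ ε : Y → Bool, al y w r ε x ≤ b := by
  constructor
  · intro h ε
    exact (al_le hw r ε x).trans h
  · intro h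
    obtain ⟨ε, hε⟩ := exists_sign (y := y) x
    rw [← al_eq r ε x hε]
    exact h ε

/-- the members -/
def DD (s : E →ₗ[ℝ] ℝ) (y : Y → (E →ₗ[ℝ] ℝ)) (w : Rr → Y → ℝ) (ρ : T → Rr)
    (B : T → (E →ₗ[ℝ] ℝ)) : ((Y → Bool) ⊕ T) → Set E
  | Sum.inl ε => {x | 0 ≤ s x ∧ (∀ c, 0 ≤ sn (ε c) * y c x) ∧ ∀ β, B β x ≤ AA y w (ρ β) x}
  | Sum.inr β => {x | 0 ≤ s x ∧ AA y w (ρ β) x ≤ B β x ∧ ∀ β', ρ β' = ρ β → B β' x ≤ B β x}

end PartB1

open PartB1

theorem t_B1 : S_B1 := by
  intro E _ _ s Y _ y Rr hRr w T _ ρ B hw hX hA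
  classical
  refine ⟨DD s y w ρ B, ⟨?_, ?_, ?_, ?_⟩, ?_, ?_⟩
  · -- polyhedral
    rintro (ε | β)
    · refine polyCone_of (ι := Unit ⊕ (Y ⊕ T))
        (Sum.elim (fun _ => s) (Sum.elim (fun c => sn (ε c) • y c)
          (fun β => al y w (ρ β) ε - B β))) _ ?_
      intro x
      constructor
      · rintro ⟨h1, h2, h3⟩ (i | c | β)
        · exact h1
        · exact h2 c
        · simp only [Sum.elim_inr, LinearMap.sub_apply]
          rw [al_eq (ρ β) ε x h2]
          exact sub_nonneg.2 (h3 β)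
      · intro h
        have h2 : ∀ c, 0 ≤ sn (ε c) * y c x := fun c => h (Sum.inr (Sum.inl c))
        refine ⟨h (Sum.inl ()), h2, fun β => ?_⟩
        have h3 := h (Sum.inr (Sum.inr β))
        simp only [Sum.elim_inr, LinearMap.sub_apply] at h3
        rw [al_eq (ρ β) ε x h2] at h3
        exact sub_nonneg.1 h3
    · refine polyCone_of (ι := Unit ⊕ ((Y → Bool) ⊕ T))
        (Sum.elim (fun _ => s) (Sum.elim (fun ε => B β - al y w (ρ β) ε)
          (fun β' => if ρ β' = ρ β then B β - B β' else 0))) _ ?_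
      intro x
      constructor
      · rintro ⟨h1, h2, h3⟩ (i | ε | β')
        · exact h1
        · simp only [Sum.elim_inr, Sum.elim_inl, LinearMap.sub_apply]
          exact sub_nonneg.2 ((al_le hw _ _ _).trans h2)
        · simp only [Sum.elim_inr]
          split_ifs with hr
          · exact sub_nonneg.2 (h3 β' hr)
          · exact le_refl _
      · intro h
        refine ⟨h (Sum.inl ()), ?_, fun β' hr => ?_⟩
        · rw [AA_le_iff hw]
          intro ε
          have h3 := h (Sum.inr (Sum.inl ε))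
          simp only [Sum.elim_inr, Sum.elim_inl, LinearMap.sub_apply] at h3
          exact sub_nonneg.1 h3
        · have h3 := h (Sum.inr (Sum.inr β'))
          simp only [Sum.elim_inr, if_pos hr, LinearMap.sub_apply] at h3
          exact sub_nonneg.1 h3
  · rintro (ε | β) x hx
    · exact hx.1
    · exact hx.1
  · -- cover
    intro x hx
    by_cases h : ∀ β, B β x ≤ AA y w (ρ β) x
    · obtain ⟨ε, hε⟩ := exists_sign (y := y) x
      exact ⟨Sum.inl ε, hx, hε, h⟩
    · push Not at h
      obtain ⟨β, hβ⟩ := h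
      obtain ⟨β', hβ', hmax⟩ := Finset.exists_max_image (Finset.univ.filter (fun b => ρ b = ρ β))
        (fun b => B b x) ⟨β, by simp⟩
      rw [Finset.mem_filter] at hβ'
      refine ⟨Sum.inr β', hx, ?_, fun b hb => ?_⟩
      · rw [hβ'.2]
        exact hβ.le.trans (hmax β (by simp))
      · exact hmax b (by rw [Finset.mem_filter]; exact ⟨Finset.mem_univ _, hb.trans hβ'.2⟩)
  · -- faces
    obtain ⟨r⟩ := hRr
    rintro (ε | β) (ε' | β')
    · refine ⟨al y w r ε - al y w r ε', ?_, ?_⟩
      · rintro x ⟨h1, h2, h3⟩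
        rw [LinearMap.sub_apply, al_eq r ε x h2]
        exact sub_nonneg.2 (al_le hw r ε' x)
      · rintro x ⟨h1, h2, h3⟩
        rw [LinearMap.sub_apply, al_eq r ε x h2, sub_eq_zero]
        constructor
        · intro h
          exact ⟨h1, of_al_eq hw r ε' x h.symm, h3⟩
        · rintro ⟨_, h5, _⟩
          exact (al_eq r ε' x h5).symm
    · refine ⟨al y w (ρ β') ε - B β', ?_, ?_⟩
      · rintro x ⟨h1, h2, h3⟩
        rw [LinearMap.sub_apply, al_eq _ ε x h2]
        exact sub_nonneg.2 (h3 β')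
      · rintro x ⟨h1, h2, h3⟩
        rw [LinearMap.sub_apply, al_eq _ ε x h2, sub_eq_zero]
        constructor
        · intro h
          refine ⟨h1, h.le, fun b hb => ?_⟩
          rw [← h, ← hb]
          exact h3 b
        · rintro ⟨_, h5, _⟩
          exact le_antisymm h5 (h3 β')
    · refine ⟨B β - al y w (ρ β) ε', ?_, ?_⟩
      · rintro x ⟨h1, h2, h3⟩
        rw [LinearMap.sub_apply]
        exact sub_nonneg.2 ((al_le hw _ _ _).trans h2)
      · rintro x ⟨h1, h2, h3⟩
        rw [LinearMap.sub_apply, sub_eq_zero]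
        constructor
        · intro h
          have h4 : al y w (ρ β) ε' x = AA y w (ρ β) x :=
            le_antisymm (al_le hw _ _ _) (by rw [← h]; exact h2)
          refine ⟨h1, of_al_eq hw _ _ _ h4, fun b => ?_⟩
          by_cases hb : ρ b = ρ β
          · rw [hb, ← h4, ← h]
            exact h3 b hb
          · by_contra hcon
            push Not at hcon
            have hx0 : x = 0 := hX b β x hb h1 hcon.le h2
            rw [hx0, AA_zero, map_zero] at hcon
            exact lt_irrefl _ hcon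
        · rintro ⟨_, h5, h6⟩
          rw [al_eq _ _ x h5]
          exact le_antisymm (h6 β) h2
    · by_cases hr : ρ β' = ρ β
      · refine ⟨B β - B β', ?_, ?_⟩
        · rintro x ⟨h1, h2, h3⟩
          rw [LinearMap.sub_apply]
          exact sub_nonneg.2 (h3 β' hr)
        · rintro x ⟨h1, h2, h3⟩
          rw [LinearMap.sub_apply, sub_eq_zero]
          constructor
          · intro h
            refine ⟨h1, ?_, fun b hb => ?_⟩
            · rw [hr, ← h]
              exact h2
            · rw [← h]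
              exact h3 b (hb.trans hr)
          · rintro ⟨_, h5, h6⟩
            exact le_antisymm (h6 β hr.symm) (h3 β' hr)
      · refine ⟨B β, ?_, ?_⟩
        · rintro x ⟨h1, h2, h3⟩
          exact (AA_nonneg hw _ _).trans h2
        · rintro x ⟨h1, h2, h3⟩
          constructor
          · intro h
            rw [h] at h2
            have hx0 : x = 0 := hA x h1 (of_AA_zero hw _ x h2)
            subst hx0
            refine ⟨by rw [map_zero], ?_, fun b _ => ?_⟩
            · rw [AA_zero, map_zero]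
            · rw [map_zero, map_zero]
          · rintro ⟨_, h5, h6⟩
            rw [hX β β' x (fun h => hr h.symm) h1 h2 h5, map_zero]
  · intro ε x
    exact Iff.rfl
  · intro β x
    exact Iff.rfl

end Pool.Agent.H337_cpwl
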