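import Mathlib
import Pool.Agent.H337_cpwl.Defs
import Pool.Agent.H337_cpwl.Stmts
import Pool.Agent.H337_cpwl.Basic

/-!
Part C: the tower.
-/

open Set

namespace Pool.Agent.H337_cpwl

namespace PartC

/-! ### cones -/

section cones

variable {E F : Type} [AddCommGroup E] [Module ℝ E] [AddCommGroup F] [Module ℝ F]

lemma polyCone_preimage (f : E →ₗ[ℝ] F) {K : Set F} (hK : IsPolyCone K) :
    IsPolyCone (f ⁻¹' K) := by
  obtain ⟨m, a, rfl⟩ := hK
  exact ⟨m, fun i => (a i).comp f, rfl⟩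

lemma polyCone_inter {K L : Set E} (hK : IsPolyCone K) (hL : IsPolyCone L) :
    IsPolyCone (K ∩ L) := by
  obtain ⟨m, a, rfl⟩ := hK
  obtain ⟨n, b, rfl⟩ := hL
  refine ⟨m + n, Fin.append a b, ?_⟩
  ext x
  simp only [Set.mem_inter_iff, Set.mem_ofPred_eq]
  constructor
  · rintro ⟨h1, h2⟩ i
    refine Fin.addCases (fun i => ?_) (fun i => ?_) i
    · rw [Fin.append_left]; exact h1 i
    · rw [Fin.append_right]; exact h2 i
  · intro h
    refine ⟨fun i => ?_, fun i => ?_⟩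
    · have := h (Fin.castAdd n i)
      rwa [Fin.append_left] at this
    · have := h (Fin.natAdd m i)
      rwa [Fin.append_right] at this

lemma polyCone_smul {K : Set E} (hK : IsPolyCone K) {c : ℝ} (hc : 0 ≤ c) {x : E} (hx : x ∈ K) :
    c • x ∈ K := by
  obtain ⟨m, a, rfl⟩ := hK
  intro i
  rw [map_smul, smul_eq_mul]
  exact mul_nonneg hc (hx i)

/-- The pullback lemma. -/
lemma pullback {I J : Type} (s : E →ₗ[ℝ] ℝ) (D : J → Set E) (hD : GoodFam s D)
    (sF : F →ₗ[ℝ] ℝ) (K : I → Set F) (hK : GoodFam sF K) (φ : J → (E →ₗ[ℝ] F))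
    (h0 : ∀ j, ∀ x ∈ D j, 0 ≤ sF (φ j x))
    (h1 : ∀ j j', ∀ x ∈ D j, x ∈ D j' → φ j x = φ j' x) :
    GoodFam s (fun p : J × I => D p.1 ∩ (φ p.1) ⁻¹' (K p.2)) where
  cone := fun p => polyCone_inter (hD.cone p.1) (polyCone_preimage _ (hK.cone p.2))
  nonneg := fun p x hx => hD.nonneg p.1 x hx.1
  cover := fun x hx => by
    obtain ⟨j, hj⟩ := hD.cover x hx
    obtain ⟨i, hi⟩ := hK.cover (φ j x) (h0 j x hj)
    exact ⟨(j, i), hj, hi⟩
  face := fun p p' => by
    obtain ⟨l, hl0, hl⟩ := hD.face p.1 p'.1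
    obtain ⟨m, hm0, hm⟩ := hK.face p.2 p'.2
    refine ⟨l + m.comp (φ p.1), ?_, ?_⟩
    · rintro x ⟨hx1, hx2⟩
      exact add_nonneg (hl0 x hx1) (hm0 _ hx2)
    · rintro x ⟨hx1, hx2⟩
      have e1 := hl0 x hx1
      have e2 := hm0 _ hx2
      constructor
      · intro h
        have h' : l x + m (φ p.1 x) = 0 := h
        have h3 : l x = 0 := by linarith
        have h4 : m (φ p.1 x) = 0 := by linarith
        have h5 := (hl x hx1).1 h3
        refine ⟨h5, ?_⟩
        have h6 := (hm _ hx2).1 h4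
        rw [h1 p.1 p'.1 x hx1 h5] at h6
        exact h6
      · rintro ⟨h5, h6⟩
        have h3 := (hl x hx1).2 h5
        have h7 : φ p.1 x ∈ K p'.2 := by
          rw [h1 p.1 p'.1 x hx1 h5]
          exact h6
        have h4 := (hm _ hx2).2 h7
        change l x + m (φ p.1 x) = 0
        rw [h3, h4, add_zero]

/-- pull back along a linear map -/
lemma goodFam_comap {J : Type} (s : F →ₗ[ℝ] ℝ) (D : J → Set F) (hD : GoodFam s D)
    (π : E →ₗ[ℝ] F) : GoodFam (s.comp π) (fun j => π ⁻¹' (D j)) where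
  cone := fun p => polyCone_preimage _ (hD.cone p)
  nonneg := fun p x hx => hD.nonneg p _ hx
  cover := fun x hx => hD.cover (π x) hx
  face := fun p p' => by
    obtain ⟨l, hl0, hl⟩ := hD.face p p'
    exact ⟨l.comp π, fun x hx => hl0 _ hx, fun x hx => hl _ hx⟩

end cones

/-! ### the maps of the tower -/

variable {t : ℕ}

/-- `(x, s) ↦ (x 0, s)` -/
def prj (t N : ℕ) : Tw t (N + 1) →ₗ[ℝ] Lv t where
  toFun := fun w => (w.1 0, w.2)
  map_add' := fun _ _ => rfl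
  map_smul' := fun _ _ => rfl

/-- `(x, s) ↦ (tail x, σ (x 0, s))` -/
def stp (t N : ℕ) (σ : Lv t →ₗ[ℝ] ℝ) : Tw t (N + 1) →ₗ[ℝ] Tw t N where
  toFun := fun w => (fun i => w.1 i.succ, σ (w.1 0, w.2))
  map_add' := fun v w => by
    have : ((v + w).1 0, (v + w).2) = ((v.1 0, v.2) : Lv t) + (w.1 0, w.2) := rfl
    rw [this, map_add]
    rfl
  map_smul' := fun c w => by
    have : ((c • w).1 0, (c • w).2) = c • ((w.1 0, w.2) : Lv t) := rfl
    rw [this, map_smul]
    rfl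

/-! ### interiors of sections -/

lemma sec_tail {N : ℕ} {A : Set (Fin (N + 1) → Crd t → ℝ)} {x : Fin (N + 1) → Crd t → ℝ}
    (hx : x ∈ interior A) :
    (interior {y : Fin N → Crd t → ℝ | (Fin.cons (x 0) y : Fin (N + 1) → Crd t → ℝ) ∈ A}).Nonempty := by
  have hc : Continuous (fun y : Fin N → Crd t → ℝ =>
      (Fin.cons (x 0) y : Fin (N + 1) → Crd t → ℝ)) := by
    fun_prop
  refine ⟨fun i => x i.succ, ?_⟩
  rw [mem_interior]
  refine ⟨(fun y : Fin N → Crd t → ℝ =>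
      (Fin.cons (x 0) y : Fin (N + 1) → Crd t → ℝ)) ⁻¹' (interior A), ?_, ?_, ?_⟩
  · intro y hy
    have hy' : (Fin.cons (x 0) y : Fin (N + 1) → Crd t → ℝ) ∈ interior A := hy
    have hy2 : (Fin.cons (x 0) y : Fin (N + 1) → Crd t → ℝ) ∈ A := interior_subset hy'
    exact hy2
  · exact isOpen_interior.preimage hc
  · change (Fin.cons (x 0) (fun i => x i.succ) : Fin (N + 1) → Crd t → ℝ) ∈ interior A
    have : (Fin.cons (x 0) (fun i => x i.succ) : Fin (N + 1) → Crd t → ℝ) = x :=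
      Fin.cons_self_tail x
    rw [this]
    exact hx

lemma sec_head {N : ℕ} {A : Set (Fin (N + 1) → Crd t → ℝ)} {x : Fin (N + 1) → Crd t → ℝ}
    (hx : x ∈ interior A) :
    ∃ V : Set (Crd t → ℝ), IsOpen V ∧ x 0 ∈ V ∧
      ∀ z ∈ V, (Fin.cons z (fun i => x i.succ) : Fin (N + 1) → Crd t → ℝ) ∈ interior A := by
  have hc : Continuous (fun z : Crd t → ℝ =>
      (Fin.cons z (fun i => x i.succ) : Fin (N + 1) → Crd t → ℝ)) := by
    fun_prop
  refine ⟨(fun z : Crd t → ℝ =>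
      (Fin.cons z (fun i => x i.succ) : Fin (N + 1) → Crd t → ℝ)) ⁻¹' (interior A),
      isOpen_interior.preimage hc, ?_, fun z hz => hz⟩
  change (Fin.cons (x 0) (fun i => x i.succ) : Fin (N + 1) → Crd t → ℝ) ∈ interior A
  have : (Fin.cons (x 0) (fun i => x i.succ) : Fin (N + 1) → Crd t → ℝ) = x :=
    Fin.cons_self_tail x
  rw [this]
  exact hx

lemma eq_zero_of_open (τ : Lv t →ₗ[ℝ] ℝ) {V : Set (Crd t → ℝ)} (hV : IsOpen V) {z0 : Crd t → ℝ}
    (hz0 : z0 ∈ V) (h : ∀ z ∈ V, τ (z, 1) = 0) : τ = 0 := by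
  have h1 : ∀ w : Crd t → ℝ, τ (w, 0) = 0 := by
    intro w
    have hc : Continuous (fun ε : ℝ => z0 + ε • w) := by fun_prop
    have ho : IsOpen ((fun ε : ℝ => z0 + ε • w) ⁻¹' V) := hV.preimage hc
    have h0 : (0 : ℝ) ∈ ((fun ε : ℝ => z0 + ε • w) ⁻¹' V) := by
      change z0 + (0 : ℝ) • w ∈ V
      rw [zero_smul, add_zero]
      exact hz0
    obtain ⟨ε, hε, hb⟩ := Metric.isOpen_iff.1 ho 0 h0
    have h2 : ε / 2 ∈ Metric.ball (0 : ℝ) ε := by
      rw [Metric.mem_ball, Real.dist_eq, sub_zero, abs_of_pos (by linarith)]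
      linarith
    have h3 : z0 + (ε / 2) • w ∈ V := hb h2
    have h4 := h _ h3
    have h5 := h _ hz0
    have h6 : ((z0 + (ε / 2) • w, 1) : Lv t) = (z0, 1) + (ε / 2) • (w, 0) := by
      ext <;> simp
    rw [h6, map_add, map_smul, h5, zero_add, smul_eq_mul] at h4
    rcases mul_eq_zero.1 h4 with h7 | h7
    · linarith
    · exact h7
  have h2 : τ (0, 1) = 0 := by
    have h5 := h _ hz0
    have h6 : ((z0, 1) : Lv t) = (z0, 0) + (0, 1) := by
      ext <;> simp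
    rw [h6, map_add, h1, zero_add] at h5
    exact h5
  apply LinearMap.ext
  rintro ⟨w, c⟩
  have h6 : ((w, c) : Lv t) = (w, 0) + c • (0, 1) := by
    ext <;> simp
  rw [h6, map_add, map_smul, h1, h2]
  simp

/-- the slice of a cone at a positive height -/
lemma slice_pos {N : ℕ} {K : Set (Tw t N)} (hK : IsPolyCone K) {v : ℝ} (hv : 0 < v)
    (h : (interior {z : Fin N → Crd t → ℝ | (z, v) ∈ K}).Nonempty) :
    (interior {z : Fin N → Crd t → ℝ | (z, (1 : ℝ)) ∈ K}).Nonempty := by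
  obtain ⟨y, hy⟩ := h
  refine ⟨v⁻¹ • y, ?_⟩
  rw [mem_interior]
  refine ⟨(fun z : Fin N → Crd t → ℝ => v • z) ⁻¹' (interior {z | (z, v) ∈ K}), ?_, ?_, ?_⟩
  · intro z hz
    have hz' : v • z ∈ interior {z : Fin N → Crd t → ℝ | (z, v) ∈ K} := hz
    have h0 : v • z ∈ {z : Fin N → Crd t → ℝ | (z, v) ∈ K} := interior_subset hz'
    have h1 : (v • z, v) ∈ K := h0
    have h2 := polyCone_smul hK (inv_nonneg.2 hv.le) h1
    have h3 : v⁻¹ • ((v • z, v) : Tw t N) = (z, 1) := by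
      rw [Prod.smul_mk, smul_smul, inv_mul_cancel₀ hv.ne', one_smul, smul_eq_mul,
        inv_mul_cancel₀ hv.ne']
    rw [h3] at h2
    exact h2
  · exact isOpen_interior.preimage (continuous_const_smul v)
  · change v • (v⁻¹ • y) ∈ interior {z : Fin N → Crd t → ℝ | (z, v) ∈ K}
    rw [smul_smul, mul_inv_cancel₀ hv.ne', one_smul]
    exact hy

/-! ### the induction -/

/-- the statement for one `N` -/
def Stt (t : ℕ) (R : ℝ) (N : ℕ) : Prop :=
  ∃ (I : Type) (_ : Fintype I) (K : I → Set (Tw t N)) (φ : I → (Tw t N →ₗ[ℝ] ℝ)),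
      GoodFam (LinearMap.snd ℝ (Fin N → Crd t → ℝ) ℝ) K ∧ (∀ i, ∀ x ∈ K i, Phi R N x = φ i x) ∧
      Nat.card {i // (interior {z : Fin N → Crd t → ℝ | (z, (1 : ℝ)) ∈ K i}).Nonempty} ≤ Qb t N ∧
      Nat.card {i // (interior {z : Fin N → Crd t → ℝ | (z, (0 : ℝ)) ∈ K i}).Nonempty} ≤
        (2 * t ^ 2) ^ N

lemma stt_zero (t : ℕ) (R : ℝ) : Stt t R 0 := by
  refine ⟨Unit, inferInstance, fun _ => {w | 0 ≤ w.2}, fun _ => LinearMap.snd ℝ _ _, ?_, ?_, ?_, ?_⟩
  · refine ⟨?_, ?_, ?_, ?_⟩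
    · intro _
      refine ⟨1, fun _ => LinearMap.snd ℝ _ _, ?_⟩
      ext w
      constructor
      · intro h _
        exact h
      · intro h
        exact h 0
    · intro _ x hx
      exact hx
    · intro x hx
      exact ⟨(), hx⟩
    · intro _ _
      refine ⟨0, fun x _ => le_rfl, fun x hx => ⟨fun _ => hx, fun _ => rfl⟩⟩
  · intro _ x _
    rfl
  · refine (Nat.card_le_card_of_injective Subtype.val Subtype.val_injective).trans ?_
    simp [Qb]
  · refine (Nat.card_le_card_of_injective Subtype.val Subtype.val_injective).trans ?_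
    simp

lemma stt_succ (hB : S_B) (t : ℕ) (R : ℝ) (ht : 2 ≤ t) (hR : 1 ≤ R) (N : ℕ) (ih : Stt t R N) :
    Stt t R (N + 1) := by
  obtain ⟨G, _, D, σ, hD, hσ, hc1, hc2, hc3⟩ := hB t R ht hR
  obtain ⟨I, _, K, φ, hK, hφ, hd1, hd2⟩ := ih
  -- the pulled back gadget
  have hD' : GoodFam (LinearMap.snd ℝ (Fin (N + 1) → Crd t → ℝ) ℝ) (fun g => prj t N ⁻¹' (D g)) :=
    goodFam_comap ss D hD (prj t N)
  have hgood := pullback (LinearMap.snd ℝ (Fin (N + 1) → Crd t → ℝ) ℝ)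
    (fun g => prj t N ⁻¹' (D g)) hD' (LinearMap.snd ℝ (Fin N → Crd t → ℝ) ℝ) K hK
    (fun g => stp t N (σ g))
    (by
      intro g x hx
      change 0 ≤ σ g (x.1 0, x.2)
      have h1 : Sig R (x.1 0, x.2) = σ g (x.1 0, x.2) := hσ g _ hx
      rw [← h1]
      exact Sig_nonneg R _)
    (by
      intro g g' x hx hx'
      change ((fun i => x.1 i.succ, σ g (x.1 0, x.2)) : Tw t N) =
        (fun i => x.1 i.succ, σ g' (x.1 0, x.2))
      have h1 : Sig R (x.1 0, x.2) = σ g (x.1 0, x.2) := hσ g _ hx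
      have h2 : Sig R (x.1 0, x.2) = σ g' (x.1 0, x.2) := hσ g' _ hx'
      rw [← h1, ← h2])
  refine ⟨G × I, inferInstance, _, fun p => (φ p.2).comp (stp t N (σ p.1)), hgood, ?_, ?_, ?_⟩
  · rintro ⟨g, i⟩ x ⟨hx1, hx2⟩
    change Phi R N (fun i => x.1 i.succ, Sig R (x.1 0, x.2)) = φ i (stp t N (σ g) x)
    have h1 : Sig R (x.1 0, x.2) = σ g (x.1 0, x.2) := hσ g _ hx1
    rw [h1]
    exact hφ i _ hx2
  · -- the slice at height one
    have hsub : {p : G × I | (interior {z : Fin (N + 1) → Crd t → ℝ |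
        (z, (1 : ℝ)) ∈ (prj t N ⁻¹' (D p.1)) ∩ (stp t N (σ p.1)) ⁻¹' (K p.2)}).Nonempty} ⊆
        ({g | σ g ≠ 0} ×ˢ {i | (interior {z : Fin N → Crd t → ℝ | (z, (1 : ℝ)) ∈ K i}).Nonempty}) ∪
        ((univ : Set G) ×ˢ
          {i | (interior {z : Fin N → Crd t → ℝ | (z, (0 : ℝ)) ∈ K i}).Nonempty}) := by
      rintro ⟨g, i⟩ ⟨x, hx⟩
      by_cases hs : σ g = 0
      · right
        refine ⟨Set.mem_univ _, ?_⟩
        refine (sec_tail hx).mono (interior_mono ?_)
        rintro y ⟨-, hy⟩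
        have hy' : ((fun i => (Fin.cons (x 0) y : Fin (N + 1) → Crd t → ℝ) i.succ,
          σ g ((Fin.cons (x 0) y : Fin (N + 1) → Crd t → ℝ) 0, 1)) : Tw t N) ∈ K i := hy
        rw [hs] at hy'
        exact hy'
      · left
        refine ⟨hs, ?_⟩
        obtain ⟨V, hV, hxV, hVsub⟩ := sec_head hx
        have hex : ∃ z ∈ V, σ g (z, 1) ≠ 0 := by
          by_contra hcon
          push Not at hcon
          exact hs (eq_zero_of_open (σ g) hV hxV hcon)
        obtain ⟨z, hz, hne⟩ := hex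
        have hx' := hVsub z hz
        have hmem := interior_subset hx'
        have hnn : 0 ≤ σ g (z, 1) := by
          have h1 : Sig R (z, 1) = σ g (z, 1) := hσ g _ hmem.1
          rw [← h1]
          exact Sig_nonneg R _
        have hpos : 0 < σ g (z, 1) := lt_of_le_of_ne hnn (Ne.symm hne)
        apply slice_pos (hK.cone i) hpos
        refine (sec_tail hx').mono (interior_mono ?_)
        rintro y ⟨-, hy⟩
        exact hy
    refine le_trans (le_trans (Set.ncard_le_ncard hsub (Set.toFinite _))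
      (Set.ncard_union_le _ _)) ?_
    rw [Set.ncard_prod, Set.ncard_prod, Set.ncard_univ]
    change _ ≤ sPos t * Qb t N + sAll t * (2 * t ^ 2) ^ N
    exact Nat.add_le_add (Nat.mul_le_mul hc1 hd1) (Nat.mul_le_mul hc2 hd2)
  · have hsub : {p : G × I | (interior {z : Fin (N + 1) → Crd t → ℝ |
        (z, (0 : ℝ)) ∈ (prj t N ⁻¹' (D p.1)) ∩ (stp t N (σ p.1)) ⁻¹' (K p.2)}).Nonempty} ⊆
        ({g | (interior {z : Crd t → ℝ | (z, (0 : ℝ)) ∈ D g}).Nonempty} ×ˢ
          {i | (interior {z : Fin N → Crd t → ℝ | (z, (0 : ℝ)) ∈ K i}).Nonempty}) := by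
      rintro ⟨g, i⟩ ⟨x, hx⟩
      obtain ⟨V, hV, hxV, hVsub⟩ := sec_head hx
      refine ⟨⟨x 0, ?_⟩, ?_⟩
      · rw [mem_interior]
        refine ⟨V, ?_, hV, hxV⟩
        intro z hz
        exact (interior_subset (hVsub z hz)).1
      · refine (sec_tail hx).mono (interior_mono ?_)
        rintro y ⟨hy0, hy⟩
        have hy' : ((y, σ g (x 0, 0)) : Tw t N) ∈ K i := hy
        have h1 : Sig R (x 0, 0) = σ g (x 0, 0) := hσ g _ hy0
        rw [← h1, Sig_zero] at hy'
        exact hy'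
    refine le_trans (Set.ncard_le_ncard hsub (Set.toFinite _)) ?_
    rw [Set.ncard_prod, pow_succ, mul_comm]
    exact Nat.mul_le_mul hd2 hc3

end PartC

theorem t_C (hB : S_B) : S_C := by
  intro t R N ht hR
  change PartC.Stt t R N
  induction N with
  | zero => exact PartC.stt_zero t R
  | succ N ih => exact PartC.stt_succ hB t R ht hR N ih

end Pool.Agent.H337_cpwl
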