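import Mathlib
import Pool.Agent.H337_cpwl.Stmts
import Pool.Agent.H337_cpwl.Basic

/-!
Part F: the transfer from the cones of the tower to a complete polyhedral complex.
-/

set_option linter.unusedSectionVars false

open Set

namespace Pool.Agent.H337_cpwl

namespace PartF

variable {t N : ℕ}

/-- the unflattening as a linear equivalence -/
def unflL (N t : ℕ) : (Fin (N * (t * t)) → ℝ) ≃ₗ[ℝ] (Fin N → Crd t → ℝ) where
  toFun := unfl
  invFun y := fun k => y ((eqv N t).symm k).1 ((eqv N t).symm k).2
  map_add' _ _ := rfl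
  map_smul' _ _ := rfl
  left_inv x := by
    funext k
    simp [unfl]
  right_inv y := by
    funext i c
    simp [unfl]

/-- the unflattening as a homeomorphism -/
def unflH (N t : ℕ) : (Fin (N * (t * t)) → ℝ) ≃ₜ (Fin N → Crd t → ℝ) where
  toEquiv := (unflL N t).toEquiv
  continuous_toFun := by
    refine continuous_pi fun i => continuous_pi fun c => ?_
    exact continuous_apply _
  continuous_invFun := by
    refine continuous_pi fun k => ?_
    exact continuous_apply_apply ((eqv N t).symm k).1 ((eqv N t).symm k).2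

lemma unflH_apply (x : Fin (N * (t * t)) → ℝ) : unflH N t x = unfl x := rfl

/-- a linear functional at `(unfl x, 1)` is affine in `x` -/
lemma aff (l : Tw t N →ₗ[ℝ] ℝ) : ∃ (c : Fin (N * (t * t)) → ℝ) (b : ℝ), ∀ x,
    l (unfl x, 1) = ∑ j, c j * x j + b := by
  let g : (Fin (N * (t * t)) → ℝ) →ₗ[ℝ] ℝ :=
    l.comp ((LinearMap.inl ℝ (Fin N → Crd t → ℝ) ℝ).comp (unflL N t).toLinearMap)
  refine ⟨fun j => g (Pi.single j 1), l (0, 1), fun x => ?_⟩
  have h1 : l (unfl x, 1) = l (unfl x, 0) + l (0, 1) := by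
    rw [← map_add]
    simp
  have h2 : l (unfl x, 0) = g x := rfl
  rw [h1, h2]
  congr 1
  conv_lhs => rw [← Finset.univ_sum_single x]
  rw [map_sum]
  refine Finset.sum_congr rfl fun j _ => ?_
  have h3 : Pi.single j (x j) = x j • (Pi.single j (1 : ℝ) : Fin (N * (t * t)) → ℝ) := by
    rw [← Pi.single_smul]
    simp
  rw [h3, map_smul, smul_eq_mul, mul_comm]

lemma continuous_mu (R : ℝ) (q : Fin t) (j : Option (Crd t × Fin 3)) : Continuous (mu R q j) :=
  LinearMap.continuous_of_finiteDimensional _

lemma continuous_Mx (R : ℝ) (q : Fin t) : Continuous (Mx R q) := by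
  unfold Mx
  exact Continuous.finset_sup'_apply _ fun j _ => continuous_mu R q j

lemma continuous_Sig (R : ℝ) : Continuous (Sig (t := t) R) := by
  unfold Sig
  refine Continuous.finset_sup'_apply _ fun o _ => ?_
  cases o with
  | none => exact continuous_const
  | some q => exact (continuous_Mx R q).neg

lemma continuous_Phi (R : ℝ) (N : ℕ) : Continuous (Phi (t := t) R N) := by
  induction N with
  | zero => exact continuous_snd
  | succ N ih =>
    refine ih.comp (f := fun x : Tw t (N + 1) =>
      ((fun i => x.1 i.succ, Sig R (x.1 0, x.2)) : Tw t N)) ?_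
    refine Continuous.prodMk ?_ ?_
    · fun_prop
    · exact (continuous_Sig R).comp (by fun_prop)

end PartF

open PartF in
theorem t_F : S_A → S_C → S_F := by
  intro hA hC t N R ht hR
  obtain ⟨I, hI, K, φ, hK, hφ, hc1, -⟩ := hC t R N ht hR
  set P : I → Set (Fin (N * (t * t)) → ℝ) := fun i => {x | (unfl x, (1 : ℝ)) ∈ K i} with hP
  -- the members are polyhedra
  have hpoly : ∀ i, IsPolyhedron (P i) := by
    intro i
    obtain ⟨m, a, ha⟩ := hK.cone i
    choose c b hcb using fun k : Fin m => aff (a k)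
    refine ⟨m, fun k j => -(c k j), b, ?_⟩
    ext x
    simp only [hP, mem_ofPred_eq, ha]
    refine forall_congr' fun k => ?_
    rw [hcb k x]
    have : ∑ j, -(c k j) * x j = -∑ j, c k j * x j := by
      rw [← Finset.sum_neg_distrib]
      refine Finset.sum_congr rfl fun j _ => by ring
    rw [this]
    constructor <;> intro h <;> linarith
  -- they cover
  have hcov : (⋃ i, P i) = univ := by
    refine eq_univ_of_forall fun x => ?_
    obtain ⟨i, hi⟩ := hK.cover (unfl x, (1 : ℝ)) (by simp)
    exact mem_iUnion.2 ⟨i, hi⟩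
  -- face-to-face
  have hface : ∀ i j, IsFace (P i) (P i ∩ P j) := by
    intro i j
    by_cases hne : (P i ∩ P j) = ∅
    · exact Or.inl hne
    right
    obtain ⟨x0, hx0⟩ := nonempty_iff_ne_empty.2 hne
    obtain ⟨l, hl1, hl2⟩ := hK.face i j
    obtain ⟨c, b, hcb⟩ := aff l
    have hneg : ∀ x : Fin (N * (t * t)) → ℝ, ∑ j, -(c j) * x j = b - l (unfl x, 1) := by
      intro x
      rw [hcb x]
      have : ∑ j, -(c j) * x j = -∑ j, c j * x j := by
        rw [← Finset.sum_neg_distrib]
        refine Finset.sum_congr rfl fun j _ => by ring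
      rw [this]
      ring
    refine ⟨fun j => -(c j), ?_⟩
    ext x
    constructor
    · rintro ⟨h1, h2⟩
      refine ⟨h1, fun y hy => ?_⟩
      rw [hneg, hneg]
      have h3 : l (unfl x, 1) = 0 := (hl2 _ h1).2 h2
      have h4 := hl1 _ hy
      linarith
    · rintro ⟨h1, h2⟩
      refine ⟨h1, ?_⟩
      have h3 := h2 x0 hx0.1
      rw [hneg, hneg] at h3
      have h4 : l (unfl x0, 1) = 0 := (hl2 _ hx0.1).2 hx0.2
      have h5 := hl1 _ h1
      exact (hl2 _ h1).1 (by linarith)
  obtain ⟨C, hCm⟩ := hA _ I inferInstance P hpoly hcov hface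
  have hval : ∀ i, ∀ x ∈ P i, fN N t R x = φ i (unfl x, 1) := fun i x hx => hφ i _ hx
  refine ⟨⟨?_, ?_⟩, C, ?_, ?_⟩
  · -- continuity
    exact (continuous_Phi R N).comp ((unflH N t).continuous.prodMk continuous_const)
  · -- finitely many affine functions
    choose c b hcb using fun i : I => aff (φ i)
    let e := Fintype.equivFin I
    refine ⟨Fintype.card I, fun k => c (e.symm k), fun k => b (e.symm k), fun x => ?_⟩
    have hx : x ∈ ⋃ i, P i := by rw [hcov]; trivial
    obtain ⟨i, hi⟩ := mem_iUnion.1 hx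
    refine ⟨e i, ?_⟩
    rw [hval i x hi, hcb i x]
    simp
  · intro X hX
    obtain ⟨i, -, rfl⟩ := hCm X hX
    obtain ⟨c, b, hcb⟩ := aff (φ i)
    exact ⟨c, b, fun x hx => by rw [hval i x hx, hcb x]⟩
  · -- the number of the maximal cells
    refine le_trans ?_ hc1
    have hint : ∀ i, (interior (P i)).Nonempty →
        (interior {z : Fin N → Crd t → ℝ | (z, (1 : ℝ)) ∈ K i}).Nonempty := by
      intro i hi
      have h1 : P i = (unflH N t) ⁻¹' {z : Fin N → Crd t → ℝ | (z, (1 : ℝ)) ∈ K i} := rfl
      rw [h1, ← (unflH N t).preimage_interior] at hi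
      obtain ⟨x, hx⟩ := hi
      exact ⟨_, hx⟩
    choose f hf1 hf2 using hCm
    let g : C.maxCells → {i // (interior {z : Fin N → Crd t → ℝ | (z, (1 : ℝ)) ∈ K i}).Nonempty} :=
      fun X => ⟨f X.1 X.2, hint _ (hf1 X.1 X.2)⟩
    have hg : Function.Injective g := by
      intro X Y hXY
      have h1 : f X.1 X.2 = f Y.1 Y.2 := congrArg Subtype.val hXY
      apply Subtype.ext
      have h2 := hf2 X.1 X.2
      have h3 := hf2 Y.1 Y.2
      rw [h1] at h2
      exact h2.trans h3.symm
    have := Nat.card_le_card_of_injective g hg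
    exact this

end Pool.Agent.H337_cpwl
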