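import Pool.Agent.H337_cpwl.Stmts

/-!
Part G: the maximal cells of a complete complex cover the space, and a convex function compatible
with the complex is the maximum of its affine pieces.
-/

open Set Filter Topology

namespace Pool.Agent.H337_cpwl

namespace PartG

variable {n : ℕ}

theorem isClosed_poly {P : Set (Fin n → ℝ)} (h : IsPolyhedron P) : IsClosed P := by
  obtain ⟨m, a, b, rfl⟩ := h
  rw [Set.ofPred_forall]
  refine isClosed_iInter fun i => ?_
  exact isClosed_le (continuous_finsetSum _ fun j _ => continuous_const.mul (continuous_apply j))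
    continuous_const

theorem maxCells_finite (C : CompleteComplex n) : C.maxCells.Finite :=
  C.finite.subset fun _ h => h.1

theorem cover_max (C : CompleteComplex n) (x : Fin n → ℝ) : ∃ P ∈ C.maxCells, x ∈ P := by
  have h1 : Dense (⋃ s ∈ C.cells, interior s) :=
    dense_biUnion_interior_of_closed (f := fun s : Set (Fin n → ℝ) => s)
      (fun s hs => isClosed_poly (C.poly s hs)) C.finite.countable (by
        rw [← sUnion_eq_biUnion]; exact C.cover)
  have h2 : IsClosed (⋃ P ∈ C.maxCells, P) :=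
    (maxCells_finite C).isClosed_biUnion fun P hP => isClosed_poly (C.poly P hP.1)
  have h3 : (⋃ s ∈ C.cells, interior s) ⊆ ⋃ P ∈ C.maxCells, P := by
    intro y hy
    simp only [mem_iUnion] at hy ⊢
    obtain ⟨s, hs, hys⟩ := hy
    exact ⟨s, ⟨hs, ⟨y, hys⟩⟩, interior_subset hys⟩
  have h4 : x ∈ ⋃ P ∈ C.maxCells, P := by
    have h5 : closure (⋃ s ∈ C.cells, interior s) ⊆ ⋃ P ∈ C.maxCells, P :=
      closure_minimal h3 h2
    exact h5 (h1 x)
  simp only [mem_iUnion] at h4
  obtain ⟨P, hP, hx⟩ := h4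
  exact ⟨P, hP, hx⟩

/-- the affine function with the coefficients `a`, `b` -/
noncomputable def aff (a : Fin n → ℝ) (b : ℝ) : (Fin n → ℝ) →ᵃ[ℝ] ℝ :=
  (∑ j, a j • (LinearMap.proj j : (Fin n → ℝ) →ₗ[ℝ] ℝ)).toAffineMap + AffineMap.const ℝ _ b

theorem aff_apply (a : Fin n → ℝ) (b : ℝ) (x : Fin n → ℝ) : aff a b x = ∑ j, a j * x j + b := by
  simp [aff]

theorem aff_le {g : (Fin n → ℝ) → ℝ} (hg : ConvexOn ℝ univ g) {P : Set (Fin n → ℝ)}
    (hP : (interior P).Nonempty) (l : (Fin n → ℝ) →ᵃ[ℝ] ℝ) (hl : ∀ x ∈ P, g x = l x)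
    (y : Fin n → ℝ) : l y ≤ g y := by
  obtain ⟨x0, hx0⟩ := hP
  have h1 : Tendsto (fun e : ℝ => AffineMap.lineMap x0 y e) (𝓝 0) (𝓝 x0) := by
    have h2 : Continuous (fun e : ℝ => AffineMap.lineMap x0 y e) := AffineMap.lineMap_continuous
    have h3 := h2.tendsto 0
    rwa [AffineMap.lineMap_apply_zero] at h3
  have h2 : ∀ᶠ e : ℝ in 𝓝 0, AffineMap.lineMap x0 y e ∈ P := h1 (mem_interior_iff_mem_nhds.1 hx0)
  have h3 : ∀ᶠ e : ℝ in 𝓝[>] 0, AffineMap.lineMap x0 y e ∈ P := h2.filter_mono nhdsWithin_le_nhds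
  have h4 : ∀ᶠ e : ℝ in 𝓝[>] 0, e ∈ Ioo (0 : ℝ) 1 := Ioo_mem_nhdsGT one_pos
  obtain ⟨e, he, he0, he1⟩ := (h3.and h4).exists
  have h5 := hg.2 (mem_univ x0) (mem_univ y) (sub_nonneg.2 he1.le) he0.le (by ring)
  have h6 : (1 - e) • x0 + e • y = AffineMap.lineMap x0 y e := by
    rw [AffineMap.lineMap_apply_module]
  rw [h6, hl _ he, hl x0 (interior_subset hx0)] at h5
  have h7 : l (AffineMap.lineMap x0 y e) = (1 - e) * l x0 + e * l y := by
    rw [AffineMap.apply_lineMap, AffineMap.lineMap_apply_module, smul_eq_mul, smul_eq_mul]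
  rw [h7, smul_eq_mul, smul_eq_mul] at h5
  have h8 : e * l y ≤ e * g y := by linarith
  exact le_of_mul_le_mul_left h8 he0

end PartG

theorem t_G : S_G := by
  intro n C
  have hfin := PartG.maxCells_finite C
  have : Finite ↥C.maxCells := hfin
  refine ⟨?_, ?_⟩
  · obtain ⟨P, hP, -⟩ := PartG.cover_max C 0
    exact (Set.ncard_pos hfin).2 ⟨P, hP⟩
  · intro g hg hC
    let e : ↥C.maxCells ≃ Fin C.numMax := Finite.equivFinOfCardEq rfl
    choose a b hab using hC
    refine ⟨fun i => PartG.aff (a (e.symm i).1 (e.symm i).2) (b (e.symm i).1 (e.symm i).2), ?_, ?_⟩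
    · intro i x
      refine PartG.aff_le hg (e.symm i).2.2 _ (fun z hz => ?_) x
      rw [PartG.aff_apply]
      exact hab _ _ z hz
    · intro x
      obtain ⟨P, hP, hx⟩ := PartG.cover_max C x
      refine ⟨e ⟨P, hP⟩, ?_⟩
      have hkey : ∀ Q : ↥C.maxCells, Q = ⟨P, hP⟩ →
          PartG.aff (a Q.1 Q.2) (b Q.1 Q.2) x = g x := by
        rintro Q rfl
        rw [PartG.aff_apply]
        exact (hab P hP x hx).symm
      exact hkey _ (e.symm_apply_apply _)

end Pool.Agent.H337_cpwl
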