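import Mathlib
import Pool.Agent.H337_cpwl.Stmts

/-!
Part H: the lower bound beats every polynomial.
-/

namespace Pool.Agent.H337_cpwl

namespace PartH

lemma poly_bound (p : MvPolynomial (Fin 2) ℝ) : ∃ C d : ℕ, ∀ x y : ℝ, 0 ≤ x → 0 ≤ y →
    |MvPolynomial.eval ![x, y] p| ≤ C * (1 + x + y) ^ d := by
  induction p using MvPolynomial.induction_on with
  | C a =>
    refine ⟨⌈|a|⌉₊, 0, fun x y _ _ => ?_⟩
    rw [MvPolynomial.eval_C, pow_zero, mul_one]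
    exact Nat.le_ceil _
  | add p q hp hq =>
    obtain ⟨C₁, d₁, h₁⟩ := hp
    obtain ⟨C₂, d₂, h₂⟩ := hq
    refine ⟨C₁ + C₂, d₁ + d₂, fun x y hx hy => ?_⟩
    have hb : 1 ≤ 1 + x + y := by linarith
    have e₁ : (1 + x + y) ^ d₁ ≤ (1 + x + y) ^ (d₁ + d₂) := pow_le_pow_right₀ hb (by omega)
    have e₂ : (1 + x + y) ^ d₂ ≤ (1 + x + y) ^ (d₁ + d₂) := pow_le_pow_right₀ hb (by omega)
    rw [map_add]
    calc |MvPolynomial.eval ![x, y] p + MvPolynomial.eval ![x, y] q|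
        ≤ |MvPolynomial.eval ![x, y] p| + |MvPolynomial.eval ![x, y] q| := abs_add_le _ _
      _ ≤ C₁ * (1 + x + y) ^ d₁ + C₂ * (1 + x + y) ^ d₂ := add_le_add (h₁ x y hx hy) (h₂ x y hx hy)
      _ ≤ C₁ * (1 + x + y) ^ (d₁ + d₂) + C₂ * (1 + x + y) ^ (d₁ + d₂) :=
        add_le_add (mul_le_mul_of_nonneg_left e₁ (Nat.cast_nonneg _))
          (mul_le_mul_of_nonneg_left e₂ (Nat.cast_nonneg _))
      _ = ((C₁ + C₂ : ℕ) : ℝ) * (1 + x + y) ^ (d₁ + d₂) := by push_cast; ring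
  | mul_X p i hp =>
    obtain ⟨C₁, d₁, h₁⟩ := hp
    refine ⟨C₁, d₁ + 1, fun x y hx hy => ?_⟩
    have hb : |MvPolynomial.eval ![x, y] (MvPolynomial.X i)| ≤ 1 + x + y := by
      rw [MvPolynomial.eval_X]
      fin_cases i
      · simp only [Fin.zero_eta, Matrix.cons_val_zero]
        rw [abs_of_nonneg hx]; linarith
      · simp only [Fin.mk_one, Matrix.cons_val_one, Matrix.cons_val_fin_one]
        rw [abs_of_nonneg hy]; linarith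
    rw [map_mul, abs_mul, pow_succ, ← mul_assoc]
    exact mul_le_mul (h₁ x y hx hy) hb (abs_nonneg _) (by positivity)

lemma Qb_le (t : ℕ) (ht : 1 ≤ t) (N : ℕ) : Qb t N ≤ (1 + N * sAll t) * (4 * t ^ 3) ^ N := by
  have h1 : sPos t ≤ 4 * t ^ 3 := by
    unfold sPos
    have : t ≤ t ^ 3 := Nat.le_self_pow (by norm_num) t
    nlinarith
  have h2 : 2 * t ^ 2 ≤ 4 * t ^ 3 := by
    have : t ^ 2 ≤ t ^ 3 := Nat.pow_le_pow_right ht (by norm_num)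
    omega
  have h3 : 1 ≤ 4 * t ^ 3 := by
    have : 1 ≤ t ^ 3 := Nat.one_le_pow _ _ ht
    omega
  induction N with
  | zero => simp [Qb]
  | succ N ih =>
    rw [Qb]
    calc sPos t * Qb t N + sAll t * (2 * t ^ 2) ^ N
        ≤ 4 * t ^ 3 * ((1 + N * sAll t) * (4 * t ^ 3) ^ N) + sAll t * (4 * t ^ 3) ^ (N + 1) := by
          refine Nat.add_le_add (Nat.mul_le_mul h1 ih) (Nat.mul_le_mul_left _ ?_)
          exact (Nat.pow_le_pow_left h2 N).trans (Nat.pow_le_pow_right h3 (by omega))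
      _ = (1 + (N + 1) * sAll t) * (4 * t ^ 3) ^ (N + 1) := by ring

lemma sAll_le (t : ℕ) (ht : 2 ≤ t) : sAll t ≤ 2 ^ (4 * t ^ 2 + 1) := by
  unfold sAll
  have h1 : 2 * t * (1 + 3 * t ^ 2) + 2 * t ^ 2 ≤ 2 ^ (4 * t ^ 2) := by
    have h2 : t ^ 2 < 2 ^ (t ^ 2) := Nat.lt_two_pow_self
    have h3 : 2 ^ (4 * t ^ 2) = 2 ^ (t ^ 2) * 2 ^ (t ^ 2) * (2 ^ (t ^ 2) * 2 ^ (t ^ 2)) := by
      rw [← pow_add, ← pow_add]; congr 1; ring
    have h4 : 16 ≤ 2 ^ (t ^ 2) := by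
      calc 16 = 2 ^ 4 := by norm_num
        _ ≤ 2 ^ (t ^ 2) := Nat.pow_le_pow_right (by norm_num) (by nlinarith)
    rw [h3]
    have h5 : t ^ 2 * t ^ 2 ≤ 2 ^ (t ^ 2) * 2 ^ (t ^ 2) := Nat.mul_le_mul h2.le h2.le
    have h6 : 16 * 16 ≤ 2 ^ (t ^ 2) * 2 ^ (t ^ 2) := Nat.mul_le_mul h4 h4
    have h7 : t ^ 2 * t ^ 2 * (16 * 16) ≤ 2 ^ (t ^ 2) * 2 ^ (t ^ 2) * (2 ^ (t ^ 2) * 2 ^ (t ^ 2)) :=
      Nat.mul_le_mul h5 h6
    refine le_trans ?_ h7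
    have h8 : t ≤ t ^ 4 := Nat.le_self_pow (by norm_num) t
    have h9 : t ^ 3 ≤ t ^ 4 := Nat.pow_le_pow_right (by omega) (by norm_num)
    have h10 : t ^ 2 ≤ t ^ 4 := Nat.pow_le_pow_right (by omega) (by norm_num)
    have e : t ^ 2 * t ^ 2 * (16 * 16) = 256 * t ^ 4 := by ring
    rw [e]
    have e2 : 2 * t * (1 + 3 * t ^ 2) + 2 * t ^ 2 = 2 * t + 6 * t ^ 3 + 2 * t ^ 2 := by ring
    rw [e2]
    omega
  have h2 : 2 ^ (4 * t ^ 2 + 1) = 2 ^ (4 * t ^ 2) + 2 ^ (4 * t ^ 2) := by rw [pow_succ]; ring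
  rw [h2, add_assoc]
  omega

lemma Qb_pow (u : ℕ) (hu : 1 ≤ u) : Qb (2 ^ u) (4 ^ u) ≤ 2 ^ ((8 + 3 * u) * 4 ^ u) := by
  have ht : 2 ≤ 2 ^ u := by
    calc 2 = 2 ^ 1 := by norm_num
      _ ≤ 2 ^ u := Nat.pow_le_pow_right (by norm_num) hu
  have h1 := Qb_le (2 ^ u) (by omega) (4 ^ u)
  have h2 := sAll_le (2 ^ u) ht
  have e1 : ((2 : ℕ) ^ u) ^ 2 = 4 ^ u := by rw [← pow_mul, mul_comm, pow_mul]; norm_num
  rw [e1] at h2
  have e2 : 4 * ((2 : ℕ) ^ u) ^ 3 = 2 ^ (2 + 3 * u) := by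
    rw [← pow_mul, pow_add, mul_comm u 3]; norm_num
  rw [e2, ← pow_mul] at h1
  have e3 : (4 : ℕ) ^ u = 2 ^ (2 * u) := by rw [pow_mul]; norm_num
  have h3 : 1 + 4 ^ u * sAll (2 ^ u) ≤ 2 ^ (2 * u + 4 * 4 ^ u + 2) := by
    have h4 : 4 ^ u * sAll (2 ^ u) ≤ 2 ^ (2 * u) * 2 ^ (4 * 4 ^ u + 1) := by
      refine Nat.mul_le_mul e3.le ?_
      exact h2
    rw [← pow_add] at h4
    have h5 : 1 ≤ 2 ^ (2 * u + (4 * 4 ^ u + 1)) := Nat.one_le_two_pow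
    have h6 : 2 ^ (2 * u + 4 * 4 ^ u + 2) = 2 ^ (2 * u + (4 * 4 ^ u + 1)) + 2 ^ (2 * u + (4 * 4 ^ u + 1)) := by
      have e4 : 2 * u + 4 * 4 ^ u + 2 = (2 * u + (4 * 4 ^ u + 1)) + 1 := by omega
      rw [e4, pow_succ, mul_two]
    omega
  refine h1.trans ((Nat.mul_le_mul_right _ h3).trans ?_)
  rw [← pow_add]
  refine Nat.pow_le_pow_right (by norm_num) ?_
  have h7 : 2 * u + 2 ≤ 2 * 4 ^ u := by
    have : u < 2 ^ u := Nat.lt_two_pow_self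
    have h8 : 2 ^ u ≤ 4 ^ u := Nat.pow_le_pow_left (by norm_num) u
    omega
  nlinarith

lemma exists_u (a b : ℕ) : ∃ u : ℕ, 1 ≤ u ∧ a + b * u < 2 ^ u := by
  set v := a + 2 * b + 1 with hv
  refine ⟨2 * v, by omega, ?_⟩
  have h1 : v < 2 ^ v := Nat.lt_two_pow_self
  have h2 : 2 ^ (2 * v) = 2 ^ v * 2 ^ v := by rw [← pow_add]; congr 1; ring
  rw [h2]
  have h3 : v * v ≤ 2 ^ v * 2 ^ v := Nat.mul_le_mul h1.le h1.le
  have h4 : a + b * (2 * v) < v * v := by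
    have h5 : v * v = a * v + 2 * b * v + v := by
      conv_lhs => rw [hv]
      ring
    rw [h5]
    have h6 : a ≤ a * v := Nat.le_mul_of_pos_right a (by omega)
    have h7 : b * (2 * v) = 2 * b * v := by ring
    rw [h7]
    omega
  omega

end PartH

open PartH in
theorem t_H : S_H := by
  intro p
  obtain ⟨C, d, hC⟩ := poly_bound p
  obtain ⟨u, hu1, hu⟩ := exists_u (2 * C + 20 * d + 1) (6 * d)
  have ht : 2 ≤ 2 ^ u := by
    calc 2 = 2 ^ 1 := by norm_num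
      _ ≤ 2 ^ u := Nat.pow_le_pow_right (by norm_num) hu1
  refine ⟨2 ^ u, 4 ^ u, ht, Nat.one_le_pow _ _ (by norm_num), ?_⟩
  intro q hq m hm
  have hq' : q ≤ 2 ^ ((8 + 3 * u) * 4 ^ u) := hq.trans (Qb_pow u hu1)
  have hpos4 : 1 ≤ 4 ^ u := Nat.one_le_pow _ _ (by norm_num)
  have hX : 4 ^ u * (2 ^ u * 2 ^ u) ≤ 2 ^ ((8 + 3 * u) * 4 ^ u) := by
    have e1 : (4 : ℕ) ^ u * (2 ^ u * 2 ^ u) = 2 ^ (4 * u) := by
      have : (4 : ℕ) ^ u = 2 ^ (2 * u) := by rw [pow_mul]; norm_num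
      rw [this, ← pow_add, ← pow_add]
      congr 1; ring
    rw [e1]
    refine Nat.pow_le_pow_right (by norm_num) ?_
    have h8 : u < 2 ^ u := Nat.lt_two_pow_self
    have h9 : 2 ^ u ≤ 4 ^ u := Nat.pow_le_pow_left (by norm_num) u
    nlinarith
  have hsum : 1 + 4 ^ u * (2 ^ u * 2 ^ u) + q ≤ 2 ^ ((10 + 3 * u) * 4 ^ u) := by
    have h1 : 1 ≤ 2 ^ ((8 + 3 * u) * 4 ^ u) := Nat.one_le_two_pow
    have h2 : 4 * 2 ^ ((8 + 3 * u) * 4 ^ u) ≤ 2 ^ ((10 + 3 * u) * 4 ^ u) := by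
      have : (4 : ℕ) = 2 ^ 2 := by norm_num
      conv_lhs => rw [this]
      rw [← pow_add]
      refine Nat.pow_le_pow_right (by norm_num) ?_
      have e : (2 : ℕ) ^ 2 = 4 := by norm_num
      rw [e]
      nlinarith
    omega
  have h1 : (m : ℝ) ≤ (C : ℝ) * (1 + ((4 ^ u * (2 ^ u * 2 ^ u) : ℕ) : ℝ) + (q : ℝ)) ^ d :=
    hm.trans ((le_abs_self _).trans (hC _ _ (Nat.cast_nonneg _) (Nat.cast_nonneg _)))
  have h2 : m ≤ C * (1 + 4 ^ u * (2 ^ u * 2 ^ u) + q) ^ d := by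
    have : (m : ℝ) ≤ ((C * (1 + 4 ^ u * (2 ^ u * 2 ^ u) + q) ^ d : ℕ) : ℝ) := by
      push_cast
      push_cast at h1
      exact h1
    exact_mod_cast this
  have h3 : m ≤ 2 ^ (C + d * ((10 + 3 * u) * 4 ^ u)) := by
    refine h2.trans ?_
    rw [pow_add]
    refine Nat.mul_le_mul Nat.lt_two_pow_self.le ?_
    rw [mul_comm d, pow_mul]
    exact Nat.pow_le_pow_left hsum d
  calc m * m ≤ 2 ^ (C + d * ((10 + 3 * u) * 4 ^ u)) * 2 ^ (C + d * ((10 + 3 * u) * 4 ^ u)) :=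
        Nat.mul_le_mul h3 h3
    _ = 2 ^ (2 * C + 2 * (d * ((10 + 3 * u) * 4 ^ u))) := by
        rw [← pow_add]; congr 1; ring
    _ < 2 ^ ((2 ^ u - 1) * 4 ^ u) := by
        refine Nat.pow_lt_pow_right (by norm_num) ?_
        have h5 : 2 * C + 20 * d + 6 * d * u < 2 ^ u - 1 := by omega
        calc 2 * C + 2 * (d * ((10 + 3 * u) * 4 ^ u))
            ≤ 2 * C * 4 ^ u + 2 * (d * ((10 + 3 * u) * 4 ^ u)) := by
              refine Nat.add_le_add_right ?_ _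
              exact Nat.le_mul_of_pos_right _ hpos4
          _ = (2 * C + 20 * d + 6 * d * u) * 4 ^ u := by ring
          _ < (2 ^ u - 1) * 4 ^ u := Nat.mul_lt_mul_of_pos_right h5 hpos4

end Pool.Agent.H337_cpwl
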