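import Pool.Agent.H337_cpwl.Final
import Pool.Agent.H337_cpwl.A
import Pool.Agent.H337_cpwl.B1
import Pool.Agent.H337_cpwl.B
import Pool.Agent.H337_cpwl.C
import Pool.Agent.H337_cpwl.F
import Pool.Agent.H337_cpwl.G
import Pool.Agent.H337_cpwl.H

/-!
All parts together.
-/

namespace Pool.Agent.H337_cpwl

theorem main : S_Main := t_Main (t_F t_A (t_C (t_B t_B1))) t_G t_H

end Pool.Agent.H337_cpwl
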