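import Mathlib
import Pool.Agent.H337_cpwl.Stmts

/-!
Part D: the adversary theorem.
-/

set_option linter.unusedSectionVars false

open Set Finset

namespace Pool.Agent.H337_cpwl

namespace PartD

variable {κ : Type} [Fintype κ] [DecidableEq κ]

/-- bound of a linear form at a point with one large coordinate -/
lemma lem_one (J : Finset κ) (δ L d0 : ℝ) (hδ : 0 ≤ δ) (g : κ → ℝ) (c : κ) (hc : c ∈ J)
    (x y : κ → ℝ) (hx : x c = L) (hy : y c = -L) (hxe : ∀ e ∈ J, e ≠ c → |x e| ≤ δ)
    (hye : ∀ e ∈ J, e ≠ c → |y e| ≤ δ) (h1 : 0 ≤ d0 + ∑ e ∈ J, g e * x e)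
    (h2 : 0 ≤ d0 + ∑ e ∈ J, g e * y e) :
    L * |g c| - δ * ∑ e ∈ J, |g e| ≤ d0 := by
  have key : ∀ z : κ → ℝ, (∀ e ∈ J, e ≠ c → |z e| ≤ δ) →
      ∑ e ∈ J, g e * z e ≤ g c * z c + δ * ∑ e ∈ J, |g e| := by
    intro z hz
    rw [← Finset.add_sum_erase J _ hc]
    have h3 : ∑ e ∈ J.erase c, g e * z e ≤ ∑ e ∈ J.erase c, δ * |g e| := by
      apply Finset.sum_le_sum
      intro e he
      have he' := Finset.mem_erase.1 he
      have h4 := hz e he'.2 he'.1
      calc g e * z e ≤ |g e * z e| := le_abs_self _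
        _ = |g e| * |z e| := abs_mul _ _
        _ ≤ |g e| * δ := mul_le_mul_of_nonneg_left h4 (abs_nonneg _)
        _ = δ * |g e| := mul_comm _ _
    rw [← Finset.mul_sum] at h3
    have h5 : ∑ e ∈ J.erase c, |g e| ≤ ∑ e ∈ J, |g e| :=
      Finset.sum_le_sum_of_subset_of_nonneg (Finset.erase_subset _ _)
        (fun _ _ _ => abs_nonneg _)
    have h6 := mul_le_mul_of_nonneg_left h5 hδ
    linarith
  have k1 := key x hxe
  have k2 := key y hye
  rw [hx] at k1
  rw [hy] at k2
  rcases abs_cases (g c) with ⟨h, _⟩ | ⟨h, _⟩ <;> rw [h] <;> nlinarith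

/-- the root lemma -/
lemma root (J : Finset κ) (hJ : J.Nonempty) (n δ L : ℝ) (hn : (J.card : ℝ) ≤ n) (hδ : 0 ≤ δ)
    (hL : 4 * n * δ < L) {m : ℕ} (S : Set (κ → ℝ)) (H : (κ → ℝ) → ℝ) (α : Fin m → ℝ)
    (a : Fin m → κ → ℝ) (hle : ∀ i, ∀ x ∈ S, α i + ∑ e ∈ J, a i e * x e ≤ H x)
    (hex : ∀ x ∈ S, ∃ i, α i + ∑ e ∈ J, a i e * x e = H x)
    (i : κ → Fin m) (xp xm : κ → κ → ℝ)
    (hp : ∀ c ∈ J, xp c ∈ S ∧ xp c c = L ∧ (∀ e ∈ J, e ≠ c → |xp c e| ≤ δ) ∧
      α (i c) + ∑ e ∈ J, a (i c) e * xp c e = H (xp c))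
    (hm : ∀ c ∈ J, xm c ∈ S ∧ xm c c = -L ∧ (∀ e ∈ J, e ≠ c → |xm c e| ≤ δ) ∧
      α (i c) + ∑ e ∈ J, a (i c) e * xm c e = H (xm c)) :
    ∀ y ∈ S, (∀ e ∈ J, |y e| ≤ δ) → ∀ c ∈ J, H y = α (i c) + ∑ e ∈ J, a (i c) e * y e := by
  have hn0 : 0 ≤ n := le_trans (Nat.cast_nonneg _) hn
  have hL0 : 0 ≤ L := le_trans (by positivity) hL.le
  -- the difference inequality for index `j` against index `i c`
  have diff : ∀ c ∈ J, ∀ j : Fin m,
      L * |a (i c) c - a j c| - δ * ∑ e ∈ J, |a (i c) e - a j e| ≤ α (i c) - α j := by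
    intro c hc j
    obtain ⟨p1, p2, p3, p4⟩ := hp c hc
    obtain ⟨m1, m2, m3, m4⟩ := hm c hc
    have e1 := hle j _ p1
    have e2 := hle j _ m1
    apply lem_one J δ L (α (i c) - α j) hδ (fun e => a (i c) e - a j e) c hc (xp c) (xm c)
      p2 m2 p3 m3 _ _
    · simp only [sub_mul, Finset.sum_sub_distrib]
      linarith
    · simp only [sub_mul, Finset.sum_sub_distrib]
      linarith
  -- gradients agree
  set Gd : κ → κ → ℝ := fun c d => ∑ e ∈ J, |a (i c) e - a (i d) e| with hGd
  have hGsymm : ∀ c d, Gd c d = Gd d c := by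
    intro c d
    simp only [hGd]
    exact Finset.sum_congr rfl (fun e _ => abs_sub_comm _ _)
  have hone : ∀ c ∈ J, ∀ d ∈ J, L * |a (i c) c - a (i d) c| ≤ 2 * δ * Gd c d := by
    intro c hc d hd
    have h1 := diff c hc (i d)
    have h2 := diff d hd (i c)
    have h3 : ∑ e ∈ J, |a (i d) e - a (i c) e| = Gd c d := hGsymm d c
    rw [h3] at h2
    change L * |a (i c) c - a (i d) c| - δ * Gd c d ≤ _ at h1
    have h4 : 0 ≤ L * |a (i d) d - a (i c) d| := mul_nonneg hL0 (abs_nonneg _)
    linarith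
  obtain ⟨⟨c0, d0⟩, hcd, hmax⟩ := Finset.exists_max_image (J ×ˢ J) (fun z => Gd z.1 z.2)
    (hJ.product hJ)
  have hc0 := (Finset.mem_product.1 hcd).1
  have hd0 := (Finset.mem_product.1 hcd).2
  simp only at hc0 hd0 hmax
  set Δ := Gd c0 d0 with hΔ
  have hmax' : ∀ c ∈ J, ∀ d ∈ J, Gd c d ≤ Δ := fun c hc d hd =>
    hmax (c, d) (Finset.mem_product.2 ⟨hc, hd⟩)
  have hΔ0 : 0 ≤ Δ := Finset.sum_nonneg (fun _ _ => abs_nonneg _)
  have hall : ∀ c ∈ J, ∀ d ∈ J, L * Gd c d ≤ 4 * n * δ * Δ := by
    intro c hc d hd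
    have h1 : L * Gd c d = ∑ e ∈ J, L * |a (i c) e - a (i d) e| := by
      rw [hGd, Finset.mul_sum]
    have h2 : ∑ e ∈ J, L * |a (i c) e - a (i d) e| ≤ ∑ e ∈ J, 4 * δ * Δ := by
      apply Finset.sum_le_sum
      intro e he
      have h3 : |a (i c) e - a (i d) e| ≤ |a (i e) e - a (i c) e| + |a (i e) e - a (i d) e| := by
        have := abs_sub_le (a (i c) e) (a (i e) e) (a (i d) e)
        rw [abs_sub_comm (a (i c) e) (a (i e) e)] at this
        exact this
      have h4 := hone e he c hc
      have h5 := hone e he d hd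
      have h6 := hmax' e he c hc
      have h7 := hmax' e he d hd
      have h8 := mul_le_mul_of_nonneg_left h3 hL0
      have h9 := mul_le_mul_of_nonneg_left h6 (show 0 ≤ 2 * δ by positivity)
      have h10 := mul_le_mul_of_nonneg_left h7 (show 0 ≤ 2 * δ by positivity)
      linarith
    rw [Finset.sum_const, nsmul_eq_mul] at h2
    have h3 : (J.card : ℝ) * (4 * δ * Δ) ≤ n * (4 * δ * Δ) :=
      mul_le_mul_of_nonneg_right hn (by positivity)
    rw [h1]
    linarith
  have hΔz : Δ = 0 := by
    have h1 := hall c0 hc0 d0 hd0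
    rw [← hΔ] at h1
    have h2 : (L - 4 * n * δ) * Δ ≤ 0 := by linarith
    have h3 : 0 < L - 4 * n * δ := by linarith
    nlinarith
  have hGz : ∀ c ∈ J, ∀ d ∈ J, Gd c d = 0 := fun c hc d hd =>
    le_antisymm (hΔz ▸ hmax' c hc d hd) (Finset.sum_nonneg (fun _ _ => abs_nonneg _))
  have hgrad : ∀ c ∈ J, ∀ d ∈ J, ∀ e ∈ J, a (i c) e = a (i d) e := by
    intro c hc d hd e he
    have h1 := (Finset.sum_eq_zero_iff_of_nonneg (fun _ _ => abs_nonneg _)).1 (hGz c hc d hd) e he
    exact sub_eq_zero.1 (abs_eq_zero.1 h1)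
  have hα : ∀ c ∈ J, ∀ d ∈ J, α (i c) = α (i d) := by
    intro c hc d hd
    have h1 := diff c hc (i d)
    have h2 := diff d hd (i c)
    have e1 : ∑ e ∈ J, |a (i c) e - a (i d) e| = 0 := hGz c hc d hd
    have e2 : ∑ e ∈ J, |a (i d) e - a (i c) e| = 0 := hGz d hd c hc
    rw [e1] at h1
    rw [e2] at h2
    have h3 : 0 ≤ L * |a (i c) c - a (i d) c| := mul_nonneg hL0 (abs_nonneg _)
    have h4 : 0 ≤ L * |a (i d) d - a (i c) d| := mul_nonneg hL0 (abs_nonneg _)
    linarith
  -- final step
  intro y hy hyb c hc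
  by_contra hne
  obtain ⟨j, hj⟩ := hex y hy
  have hlt : α (i c) + ∑ e ∈ J, a (i c) e * y e < H y :=
    lt_of_le_of_ne (hle _ _ hy) (fun h => hne h.symm)
  set g : κ → ℝ := fun e => a (i c) e - a j e with hg
  set G : ℝ := ∑ e ∈ J, |g e| with hG
  have hG0 : 0 ≤ G := Finset.sum_nonneg (fun _ _ => abs_nonneg _)
  have h1 : ∀ d ∈ J, L * |g d| - δ * G ≤ α (i c) - α j := by
    intro d hd
    have h2 := diff d hd j
    rw [hα d hd c hc, hgrad d hd c hc d hd] at h2
    have h3 : ∑ e ∈ J, |a (i d) e - a j e| = G := by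
      rw [hG]
      exact Finset.sum_congr rfl (fun e he => by rw [hg, hgrad d hd c hc e he])
    rw [h3] at h2
    exact h2
  have h2 : ∑ d ∈ J, (L * |g d| - δ * G) ≤ ∑ d ∈ J, (α (i c) - α j) := Finset.sum_le_sum h1
  rw [Finset.sum_sub_distrib, ← Finset.mul_sum, Finset.sum_const, Finset.sum_const, nsmul_eq_mul,
    nsmul_eq_mul, ← hG] at h2
  have hcard : (1 : ℝ) ≤ J.card := by exact_mod_cast hJ.card_pos
  -- D(y)
  have h3 : ∑ e ∈ J, (a j e - a (i c) e) * y e ≤ δ * G := by
    rw [hG, Finset.mul_sum]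
    apply Finset.sum_le_sum
    intro e he
    calc (a j e - a (i c) e) * y e ≤ |(a j e - a (i c) e) * y e| := le_abs_self _
      _ = |g e| * |y e| := by rw [abs_mul, abs_sub_comm]
      _ ≤ |g e| * δ := mul_le_mul_of_nonneg_left (hyb e he) (abs_nonneg _)
      _ = δ * |g e| := mul_comm _ _
  simp only [sub_mul, Finset.sum_sub_distrib] at h3
  rw [← hj] at hlt
  have h4 : 0 < (α j - α (i c)) + δ * G := by linarith
  have h5 : (J.card : ℝ) * (δ * G) ≤ n * (δ * G) :=
    mul_le_mul_of_nonneg_right hn (by positivity)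
  have h6 : 0 < (J.card : ℝ) * ((α j - α (i c)) + δ * G) := by positivity
  have h7 : 0 ≤ n * (δ * G) := by positivity
  have h8 : 4 * n * δ * G ≤ L * G := mul_le_mul_of_nonneg_right hL.le hG0
  nlinarith

/-- coordinates of an affine function -/
lemma aff_coord (l : (κ → ℝ) →ᵃ[ℝ] ℝ) :
    ∃ (a : κ → ℝ) (b : ℝ), ∀ x, l x = b + ∑ e, a e * x e := by
  refine ⟨fun e => l.linear (Pi.single e 1), l 0, fun x => ?_⟩
  have h1 : l x = l.linear x + l 0 := by
    have := l.map_vadd 0 x
    simpa using this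
  have h2 : l.linear x = ∑ e, l.linear (Pi.single e 1) * x e := by
    conv_lhs => rw [pi_eq_sum_univ' x]
    rw [map_sum]
    refine Finset.sum_congr rfl (fun e _ => ?_)
    rw [map_smul, smul_eq_mul, mul_comm]
  rw [h1, h2]
  ring

/-- the radii -/
noncomputable def rad (κ : Type) [Fintype κ] (m : ℕ) : ℝ := 2 * (4 * (Fintype.card κ : ℝ) + 1) ^ m

lemma rad_succ (m : ℕ) : rad κ (m + 1) = (4 * (Fintype.card κ : ℝ) + 1) * rad κ m := by
  unfold rad
  ring

lemma two_le_rad (m : ℕ) : 2 ≤ rad κ m := by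
  unfold rad
  have : (1 : ℝ) ≤ (4 * (Fintype.card κ : ℝ) + 1) ^ m := one_le_pow₀ (by
    have : (0 : ℝ) ≤ Fintype.card κ := Nat.cast_nonneg _
    linarith)
  linarith

lemma rad_mono {m k : ℕ} (h : m ≤ k) : rad κ m ≤ rad κ k := by
  unfold rad
  have : (4 * (Fintype.card κ : ℝ) + 1) ^ m ≤ (4 * (Fintype.card κ : ℝ) + 1) ^ k :=
    pow_le_pow_right₀ (by
      have : (0 : ℝ) ≤ Fintype.card κ := Nat.cast_nonneg _
      linarith) h
  linarith

/-- the boxes -/
def box (J : Finset κ) (p : κ → ℝ) : Set (κ → ℝ) :=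
  {x | (∀ c, c ∉ J → x c = p c) ∧ ∀ c ∈ J, |x c| ≤ rad κ J.card}

open Classical in
/-- the indices touching a box -/
noncomputable def tch {m : ℕ} (H : (κ → ℝ) → ℝ) (l : Fin m → ((κ → ℝ) →ᵃ[ℝ] ℝ)) (J : Finset κ)
    (p : κ → ℝ) : Finset (Fin m) :=
  Finset.univ.filter (fun i => ∃ x ∈ box J p, l i x = H x)

end PartD

open PartD in
theorem t_D : S_D := by
  intro κ _ _ m R H f l W hR hle hex hf hsplit hW2
  classical
  choose a b hab using fun i => aff_coord (l i)
  set n : ℝ := (Fintype.card κ : ℝ) with hn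
  have claim : ∀ k : ℕ, ∀ (J : Finset κ) (p : κ → ℝ), J.card = k →
      (∀ c, c ∉ J → 2 ≤ |p c| ∧ |p c| ≤ R) → W J p ≤ (tch H l J p).card := by
    intro k
    induction k with
    | zero =>
      intro J p hJ hadm
      have hJe : J = ∅ := Finset.card_eq_zero.1 hJ
      by_contra hcon
      push Not at hcon
      have hpos : 1 ≤ (tch H l J p).card := by
        obtain ⟨i, hi⟩ := hex p
        apply Finset.card_pos.2
        refine ⟨i, ?_⟩
        simp only [tch, Finset.mem_filter, Finset.mem_univ, true_and]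
        refine ⟨p, ⟨fun c _ => rfl, fun c hc => ?_⟩, hi⟩
        rw [hJe] at hc
        simp at hc
      obtain ⟨x, y, hxy, -, hne⟩ := hW2 J p hadm (by omega)
      apply hne
      have hx : x = p := by
        ext c
        exact (hxy c (by simp [hJe])).1
      have hy : y = p := by
        ext c
        exact (hxy c (by simp [hJe])).2
      rw [hx, hy, midpoint_self]
      ring
    | succ k ih =>
      intro J p hJ hadm
      have hJne : J.Nonempty := by
        rw [← Finset.card_pos]
        omega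
      by_contra hcon
      push Not at hcon
      have hpos : 1 ≤ (tch H l J p).card := by
        obtain ⟨i, hi⟩ := hex (fun c => if c ∈ J then 0 else p c)
        apply Finset.card_pos.2
        refine ⟨i, ?_⟩
        simp only [tch, Finset.mem_filter, Finset.mem_univ, true_and]
        refine ⟨_, ⟨fun c hc => by simp [hc], fun c hc => ?_⟩, hi⟩
        simp only [hc, if_true, abs_zero]
        have := two_le_rad (κ := κ) J.card
        linarith
      have hkn : k + 1 ≤ Fintype.card κ := hJ ▸ Finset.card_le_univ J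
      have hradR : rad κ (k + 1) ≤ R := le_trans (rad_mono hkn) hR
      have hrad2 : 2 ≤ rad κ (k + 1) := two_le_rad (k + 1)
      have hrad2' : 2 ≤ rad κ k := two_le_rad k
      set L := rad κ (k + 1) with hL
      set δ := rad κ k with hδ
      have hsub : ∀ c ∈ J, ∀ v : ℝ, |v| ≤ L →
          tch H l (J.erase c) (Function.update p c v) ⊆ tch H l J p := by
        intro c hc v hv i hi
        simp only [tch, Finset.mem_filter, Finset.mem_univ, true_and] at hi ⊢
        obtain ⟨x, ⟨hx1, hx2⟩, hx3⟩ := hi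
        have hcard : (J.erase c).card = k := by
          rw [Finset.card_erase_of_mem hc, hJ]
          rfl
        refine ⟨x, ⟨fun e he => ?_, fun e he => ?_⟩, hx3⟩
        · have hne : e ≠ c := fun h => he (h ▸ hc)
          rw [hx1 e (fun h => he (Finset.mem_of_mem_erase h)), Function.update_of_ne hne]
        · rw [hJ]
          by_cases hec : e = c
          · subst hec
            rw [hx1 e (Finset.notMem_erase _ _), Function.update_self]
            exact hv
          · have h1 := hx2 e (Finset.mem_erase.2 ⟨hec, he⟩)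
            rw [hcard] at h1
            exact le_trans h1 (rad_mono (Nat.le_succ k))
      -- for every free coordinate the two touching sets meet
      have hmeet : ∀ c ∈ J, ∃ i, i ∈ tch H l (J.erase c) (Function.update p c L) ∧
          i ∈ tch H l (J.erase c) (Function.update p c (-L)) := by
        intro c hc
        by_contra hno
        push Not at hno
        have hdisj : Disjoint (tch H l (J.erase c) (Function.update p c L))
            (tch H l (J.erase c) (Function.update p c (-L))) := by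
          rw [Finset.disjoint_left]
          exact hno
        have hcard : (J.erase c).card = k := by
          rw [Finset.card_erase_of_mem hc, hJ]
          rfl
        have habsL : |L| = L := abs_of_nonneg (by linarith)
        have adm : ∀ v : ℝ, |v| = L → ∀ e, e ∉ J.erase c →
            2 ≤ |Function.update p c v e| ∧ |Function.update p c v e| ≤ R := by
          intro v hv e he
          by_cases hec : e = c
          · subst hec
            rw [Function.update_self, hv]
            exact ⟨hrad2, hradR⟩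
          · rw [Function.update_of_ne hec]
            exact hadm e (fun h => he (Finset.mem_erase.2 ⟨hec, h⟩))
        have h1 := ih (J.erase c) (Function.update p c L) hcard (adm L habsL)
        have h2 := ih (J.erase c) (Function.update p c (-L)) hcard
          (adm (-L) (by rw [abs_neg, habsL]))
        have h3 := hsplit J p hadm c hc L hrad2 hradR
        have h4 : (tch H l (J.erase c) (Function.update p c L)).card +
            (tch H l (J.erase c) (Function.update p c (-L))).card ≤ (tch H l J p).card := by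
          rw [← Finset.card_union_of_disjoint hdisj]
          apply Finset.card_le_card
          apply Finset.union_subset
          · exact hsub c hc L (by rw [habsL])
          · exact hsub c hc (-L) (by rw [abs_neg, habsL])
        omega
      have hmeet' : ∀ c : κ, ∃ (i : Fin m) (xp xm : κ → ℝ), c ∈ J →
          (xp ∈ box (J.erase c) (Function.update p c L) ∧ l i xp = H xp) ∧
          (xm ∈ box (J.erase c) (Function.update p c (-L)) ∧ l i xm = H xm) := by
        intro c
        by_cases hc : c ∈ J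
        · obtain ⟨i, h1, h2⟩ := hmeet c hc
          simp only [tch, Finset.mem_filter, Finset.mem_univ, true_and] at h1 h2
          obtain ⟨xp, h3, h4⟩ := h1
          obtain ⟨xm, h5, h6⟩ := h2
          exact ⟨i, xp, xm, fun _ => ⟨⟨h3, h4⟩, ⟨h5, h6⟩⟩⟩
        · obtain ⟨i, hi⟩ := hex p
          exact ⟨i, p, p, fun h => absurd h hc⟩
      choose ic xp xm hxpm using hmeet'
      obtain ⟨x, y, hxy, hxyb, hne⟩ := hW2 J p hadm (by omega)
      apply hne
      -- slice
      set S : Set (κ → ℝ) := {z | ∀ c, c ∉ J → z c = p c} with hS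
      have hform : ∀ i, ∀ z ∈ S, l i z =
          (b i + ∑ e ∈ Jᶜ, a i e * p e) + ∑ e ∈ J, a i e * z e := by
        intro i z hz
        rw [hab i z, ← Finset.sum_add_sum_compl J (fun e => a i e * z e)]
        have : ∑ e ∈ Jᶜ, a i e * z e = ∑ e ∈ Jᶜ, a i e * p e :=
          Finset.sum_congr rfl (fun e he => by rw [hz e (Finset.mem_compl.1 he)])
        rw [this]
        ring
      have hbox : ∀ c ∈ J, ∀ v : ℝ, ∀ z ∈ box (J.erase c) (Function.update p c v),
          z ∈ S ∧ z c = v ∧ ∀ e ∈ J, e ≠ c → |z e| ≤ δ := by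
        intro c hc v z hz
        have hcard : (J.erase c).card = k := by
          rw [Finset.card_erase_of_mem hc, hJ]
          rfl
        refine ⟨fun e he => ?_, ?_, fun e he hec => ?_⟩
        · have hne : e ≠ c := fun h => he (h ▸ hc)
          rw [hz.1 e (fun h => he (Finset.mem_of_mem_erase h)), Function.update_of_ne hne]
        · rw [hz.1 c (Finset.notMem_erase _ _), Function.update_self]
        · have h1 := hz.2 e (Finset.mem_erase.2 ⟨hec, he⟩)
          rw [hcard] at h1
          exact h1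
      have hroot := root J hJne n δ L (by rw [hn]; exact_mod_cast Finset.card_le_univ J)
        (by linarith)
        (by rw [hL, rad_succ, ← hδ, ← hn]; nlinarith) S H
        (fun i => b i + ∑ e ∈ Jᶜ, a i e * p e) a
        (fun i z hz => by rw [← hform i z hz]; exact hle i z)
        (fun z hz => by
          obtain ⟨i, hi⟩ := hex z
          exact ⟨i, by rw [← hform i z hz]; exact hi⟩)
        ic xp xm
        (fun c hc => by
          obtain ⟨⟨h1, h2⟩, -⟩ := hxpm c hc
          obtain ⟨h3, h4, h5⟩ := hbox c hc L _ h1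
          exact ⟨h3, h4, h5, by rw [← hform _ _ h3]; exact h2⟩)
        (fun c hc => by
          obtain ⟨-, ⟨h1, h2⟩⟩ := hxpm c hc
          obtain ⟨h3, h4, h5⟩ := hbox c hc (-L) _ h1
          exact ⟨h3, h4, h5, by rw [← hform _ _ h3]; exact h2⟩)
      obtain ⟨c, hc⟩ := hJne
      have hH : ∀ z ∈ S, (∀ e ∈ J, |z e| ≤ δ) → H z = l (ic c) z := by
        intro z hz hzb
        rw [hform _ z hz]
        exact hroot z hz hzb c hc
      apply hf
      have hmid : ∀ e, midpoint ℝ x y e = (x e + y e) / 2 := by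
        intro e
        simp [midpoint_eq_smul_add]
        ring
      have hxS : x ∈ S := fun e he => (hxy e he).1
      have hyS : y ∈ S := fun e he => (hxy e he).2
      have hmS : midpoint ℝ x y ∈ S := by
        intro e he
        rw [hmid, (hxy e he).1, (hxy e he).2]
        ring
      rw [hH x hxS (fun e he => le_trans (hxyb e he).1 hrad2'),
        hH y hyS (fun e he => le_trans (hxyb e he).2 hrad2'),
        hH _ hmS (fun e he => by
          rw [hmid]
          have h1 := abs_le.1 (hxyb e he).1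
          have h2 := abs_le.1 (hxyb e he).2
          rw [abs_le]
          constructor <;> linarith)]
      have := (l (ic c)).map_midpoint x y
      rw [this]
      simp [midpoint_eq_smul_add]
      ring
  have h := claim _ Finset.univ 0 rfl (fun c hc => absurd (Finset.mem_univ c) hc)
  calc W Finset.univ 0 ≤ (tch H l Finset.univ 0).card := h
    _ ≤ (Finset.univ : Finset (Fin m)).card := Finset.card_le_univ _
    _ = m := by simp

end Pool.Agent.H337_cpwl
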