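import Mathlib
import Pool.Agent.H337_cpwl.Stmts
import Pool.Agent.H337_cpwl.Basic
import Pool.Agent.H337_cpwl.D

/-!
Part E: the lower bound for the tower.
-/

set_option linter.unusedSectionVars false

open Set Finset

namespace Pool.Agent.H337_cpwl

namespace PartE

variable {t N : ℕ}

/-- weight of a number of hosts -/
def wt (k : ℕ) : ℕ := if k = 0 then 0 else 2 ^ (k - 1)

lemma wt_split {k k1 k2 : ℕ} (h1 : k ≤ k1 + 1) (h2 : k ≤ k2 + 1) (h3 : k ≤ k1 + k2) :
    wt k ≤ wt k1 + wt k2 := by
  unfold wt
  rcases Nat.eq_zero_or_pos k with hk | hk
  · simp [hk]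
  rcases Nat.lt_or_ge k 2 with hk2 | hk2
  · have hk1 : k = 1 := by omega
    subst hk1
    rcases Nat.eq_zero_or_pos k1 with h | h
    · have h' : k2 ≠ 0 := by omega
      have := Nat.one_le_two_pow (n := k2 - 1)
      simp [h, h']
      omega
    · have h' : k1 ≠ 0 := by omega
      have := Nat.one_le_two_pow (n := k1 - 1)
      simp [h']
      omega
  · have hk0 : k ≠ 0 := by omega
    have hk10 : k1 ≠ 0 := by omega
    have hk20 : k2 ≠ 0 := by omega
    simp only [hk0, hk10, hk20, if_false]
    have e1 : 2 ^ (k - 2) ≤ 2 ^ (k1 - 1) := Nat.pow_le_pow_right (by norm_num) (by omega)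
    have e2 : 2 ^ (k - 2) ≤ 2 ^ (k2 - 1) := Nat.pow_le_pow_right (by norm_num) (by omega)
    have e3 : 2 ^ (k - 1) = 2 ^ (k - 2) + 2 ^ (k - 2) := by
      have : k - 1 = (k - 2) + 1 := by omega
      rw [this, pow_succ]
      ring
    omega

open Classical in
/-- the surviving hosts of level `l` -/
noncomputable def Al (J : Finset (Fin N × Crd t)) (p : Fin N × Crd t → ℝ) (l : Fin N) :
    Finset (Fin t) :=
  Finset.univ.filter (fun q => ∀ c, sg q c ≠ 0 → (l, c) ∈ J ∨ 0 < sg q c * p (l, c))

lemma mem_Al {J : Finset (Fin N × Crd t)} {p : Fin N × Crd t → ℝ} {l : Fin N} {q : Fin t} :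
    q ∈ Al J p l ↔ ∀ c, sg q c ≠ 0 → (l, c) ∈ J ∨ 0 < sg q c * p (l, c) := by
  simp [Al]

/-- the weight of a subcube -/
noncomputable def W (J : Finset (Fin N × Crd t)) (p : Fin N × Crd t → ℝ) : ℕ :=
  ∏ l, wt (Al J p l).card

lemma Al_other {J : Finset (Fin N × Crd t)} {p : Fin N × Crd t → ℝ} {c : Fin N × Crd t} {r : ℝ}
    {l : Fin N} (hl : l ≠ c.1) : Al (J.erase c) (Function.update p c r) l = Al J p l := by
  ext q
  rw [mem_Al, mem_Al]
  apply forall_congr'
  intro d
  have hne : (l, d) ≠ c := fun h => hl (by rw [← h])
  rw [Finset.mem_erase, Function.update_of_ne hne]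
  simp [hne]

lemma mem_Al_same {J : Finset (Fin N × Crd t)} {p : Fin N × Crd t → ℝ} {c : Fin N × Crd t} {r : ℝ}
    {q : Fin t} (hq : q ∈ Al J p c.1) (h : sg q c.2 = 0 ∨ 0 < sg q c.2 * r) :
    q ∈ Al (J.erase c) (Function.update p c r) c.1 := by
  rw [mem_Al] at hq ⊢
  intro d hd
  by_cases hdc : d = c.2
  · subst hdc
    right
    have : (c.1, c.2) = c := rfl
    rw [this, Function.update_self]
    rcases h with h | h
    · exact absurd h hd
    · exact h
  · have hne : (c.1, d) ≠ c := fun h' => hdc (by rw [← h'])
    rw [Finset.mem_erase, Function.update_of_ne hne]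
    rcases hq d hd with h1 | h1
    · exact Or.inl ⟨hne, h1⟩
    · exact Or.inr h1

lemma W_split (J : Finset (Fin N × Crd t)) (p : Fin N × Crd t → ℝ) (c : Fin N × Crd t)
    (r : ℝ) (hr : 2 ≤ r) :
    W J p ≤ W (J.erase c) (Function.update p c r) + W (J.erase c) (Function.update p c (-r)) := by
  classical
  unfold W
  rw [← Finset.mul_prod_erase Finset.univ _ (Finset.mem_univ c.1),
    ← Finset.mul_prod_erase Finset.univ
      (fun l => wt (Al (J.erase c) (Function.update p c r) l).card) (Finset.mem_univ c.1),
    ← Finset.mul_prod_erase Finset.univ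
      (fun l => wt (Al (J.erase c) (Function.update p c (-r)) l).card) (Finset.mem_univ c.1)]
  have h1 : ∏ l ∈ Finset.univ.erase c.1, wt (Al (J.erase c) (Function.update p c r) l).card =
      ∏ l ∈ Finset.univ.erase c.1, wt (Al J p l).card :=
    Finset.prod_congr rfl (fun l hl => by rw [Al_other (Finset.ne_of_mem_erase hl)])
  have h2 : ∏ l ∈ Finset.univ.erase c.1, wt (Al (J.erase c) (Function.update p c (-r)) l).card =
      ∏ l ∈ Finset.univ.erase c.1, wt (Al J p l).card :=
    Finset.prod_congr rfl (fun l hl => by rw [Al_other (Finset.ne_of_mem_erase hl)])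
  rw [h1, h2, ← Nat.add_mul]
  apply Nat.mul_le_mul_right
  have hplus : ∀ q ∈ Al J p c.1, sg q c.2 ≠ -1 →
      q ∈ Al (J.erase c) (Function.update p c r) c.1 := by
    intro q hq hs
    apply mem_Al_same hq
    rcases sg_cases q c.2 with h | h | h
    · right
      rw [h]
      linarith
    · exact absurd h hs
    · exact Or.inl h
  have hminus : ∀ q ∈ Al J p c.1, sg q c.2 ≠ 1 →
      q ∈ Al (J.erase c) (Function.update p c (-r)) c.1 := by
    intro q hq hs
    apply mem_Al_same hq
    rcases sg_cases q c.2 with h | h | h
    · exact absurd h hs
    · right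
      rw [h]
      linarith
    · exact Or.inl h
  apply wt_split
  · have : Al J p c.1 ⊆ insert c.2.2 (Al (J.erase c) (Function.update p c r) c.1) := by
      intro q hq
      rw [Finset.mem_insert]
      by_cases hs : sg q c.2 = -1
      · exact Or.inl (sg_eq_neg_one.1 hs).2
      · exact Or.inr (hplus q hq hs)
    exact le_trans (Finset.card_le_card this) (Finset.card_insert_le _ _)
  · have : Al J p c.1 ⊆ insert c.2.1 (Al (J.erase c) (Function.update p c (-r)) c.1) := by
      intro q hq
      rw [Finset.mem_insert]
      by_cases hs : sg q c.2 = 1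
      · exact Or.inl (sg_eq_one.1 hs).2
      · exact Or.inr (hminus q hq hs)
    exact le_trans (Finset.card_le_card this) (Finset.card_insert_le _ _)
  · have : Al J p c.1 ⊆ Al (J.erase c) (Function.update p c r) c.1 ∪
        Al (J.erase c) (Function.update p c (-r)) c.1 := by
      intro q hq
      rw [Finset.mem_union]
      by_cases hs : sg q c.2 = -1
      · right
        apply hminus q hq
        rw [hs]
        norm_num
      · exact Or.inl (hplus q hq hs)
    exact le_trans (Finset.card_le_card this) (Finset.card_union_le _ _)

lemma W_ge_two {J : Finset (Fin N × Crd t)} {p : Fin N × Crd t → ℝ} (h : 2 ≤ W J p) :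
    (∀ l, (Al J p l).Nonempty) ∧ ∃ l, 1 < (Al J p l).card := by
  constructor
  · intro l
    by_contra hl
    rw [Finset.not_nonempty_iff_eq_empty] at hl
    have : W J p = 0 := by
      unfold W
      apply Finset.prod_eq_zero (Finset.mem_univ l)
      simp [hl, wt]
    omega
  · by_contra hcon
    push Not at hcon
    have : W J p ≤ 1 := by
      unfold W
      apply Finset.prod_le_one'
      intro l _
      have h1 := hcon l
      unfold wt
      split_ifs with h2
      · exact Nat.zero_le _
      · have : (Al J p l).card = 1 := by omega
        rw [this]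
        norm_num
    omega

end PartE

open PartE in
theorem t_E : S_E := by
  intro t N m R ht hR H l hle hex hmid
  classical
  have hR2 : 2 ≤ R := by
    refine le_trans ?_ hR
    have : (1 : ℝ) ≤ (4 * ((N * (t * t) : ℕ) : ℝ) + 1) ^ (N * (t * t)) := one_le_pow₀ (by
      have : (0 : ℝ) ≤ ((N * (t * t) : ℕ) : ℝ) := Nat.cast_nonneg _
      linarith)
    linarith
  have hcard : Fintype.card (Fin N × Crd t) = N * (t * t) := by simp
  have key := t_D (Fin N × Crd t) inferInstance inferInstance m R H
    (fun x => Phi R N (Function.curry x, 1)) l W (by rw [hcard]; exact hR) hle hex hmid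
    (fun J p _ c _ r hr _ => W_split J p c r hr) ?_
  · have hW : W (Finset.univ : Finset (Fin N × Crd t)) 0 = 2 ^ ((t - 1) * N) := by
      unfold W
      have h1 : ∀ l : Fin N, wt (Al (Finset.univ : Finset (Fin N × Crd t)) 0 l).card =
          2 ^ (t - 1) := by
        intro l
        have : Al (Finset.univ : Finset (Fin N × Crd t)) 0 l = Finset.univ := by
          ext q
          rw [mem_Al]
          simp
        rw [this]
        have h0 : t ≠ 0 := by omega
        simp [wt, h0]
      rw [Finset.prod_congr rfl (fun l _ => h1 l)]
      rw [Finset.prod_const, ← pow_mul]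
      simp
    rw [← hW]
    exact key
  · intro J p hadm hW
    obtain ⟨hne, l0, hl0⟩ := W_ge_two hW
    obtain ⟨q, hq, q', hq', hqq⟩ := Finset.one_lt_card.1 hl0
    choose h hh using hne
    obtain ⟨cs, hcs1, hcs2⟩ := exists_conflict hqq
    rw [mem_Al] at hq hq'
    have hcs3 : sg q' cs ≠ 0 := by
      rw [hcs2]
      exact neg_ne_zero.2 hcs1
    -- the conflict coordinate is free
    have hfree : (l0, cs) ∈ J := by
      rcases hq cs hcs1 with h1 | h1
      · exact h1
      · rcases hq' cs hcs3 with h2 | h2
        · exact h2
        · exfalso
          rw [hcs2] at h2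
          linarith
    set x : Fin N × Crd t → ℝ := fun d =>
      if d ∈ J then (if d.1 = l0 then (if sg q d.2 ≠ 0 then 2 * sg q d.2 else 2 * sg q' d.2)
        else 2 * sg (h d.1) d.2) else p d with hx
    set y : Fin N × Crd t → ℝ := Function.update x (l0, cs) (2 * sg q' cs) with hy
    have habs : ∀ (r : Fin t) (c : Crd t), |2 * sg r c| ≤ 2 := by
      intro r c
      rw [abs_mul]
      have := abs_sg_le r c
      have h2 : |(2 : ℝ)| = 2 := abs_of_nonneg (by norm_num)
      rw [h2]
      linarith
    have hxb : ∀ d ∈ J, |x d| ≤ 2 := by
      intro d hd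
      simp only [hx, hd, if_true]
      split_ifs <;> exact habs _ _
    have hyb : ∀ d ∈ J, |y d| ≤ 2 := by
      intro d hd
      by_cases hdc : d = (l0, cs)
      · rw [hdc, hy, Function.update_self]
        exact habs _ _
      · rw [hy, Function.update_of_ne hdc]
        exact hxb d hd
    have hxp : ∀ d, d ∉ J → x d = p d := by
      intro d hd
      simp only [hx, hd, if_false]
    have hyp : ∀ d, d ∉ J → y d = p d := by
      intro d hd
      have hdc : d ≠ (l0, cs) := fun h' => hd (h' ▸ hfree)
      rw [hy, Function.update_of_ne hdc]
      exact hxp d hd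
    have hxR : ∀ d, |x d| ≤ R := by
      intro d
      by_cases hd : d ∈ J
      · exact le_trans (hxb d hd) hR2
      · rw [hxp d hd]
        exact (hadm d hd).2
    have hyR : ∀ d, |y d| ≤ R := by
      intro d
      by_cases hd : d ∈ J
      · exact le_trans (hyb d hd) hR2
      · rw [hyp d hd]
        exact (hadm d hd).2
    -- a fixed coordinate with the right sign is fine
    have hfix : ∀ (r : Fin t) (d : Fin N × Crd t), d ∉ J → sg r d.2 ≠ 0 → 0 < sg r d.2 * p d →
        1 ≤ sg r d.2 * p d := by
      intro r d hd hr hpos
      have h1 := (hadm d hd).1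
      have h2 : |sg r d.2 * p d| = |p d| := by
        rw [abs_mul]
        rcases sg_cases r d.2 with h | h | h
        · rw [h]; simp
        · rw [h]; simp
        · exact absurd h hr
      rw [abs_of_pos hpos] at h2
      linarith
    have hsq : ∀ (r : Fin t) (c : Crd t), sg r c ≠ 0 → 1 ≤ sg r c * (2 * sg r c) := by
      intro r c hr
      have := sg_sq hr
      nlinarith
    -- levels other than `l0`
    have hother : ∀ l, l ≠ l0 → Sig R (fun c => x (l, c), 1) = 1 := by
      intro l hl
      apply Sig_on R (q := h l)
      · intro c hc
        by_cases hd : (l, c) ∈ J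
        · have : x (l, c) = 2 * sg (h l) c := by
            simp only [hx, hd, if_true, hl, if_false]
          simp only [this]
          exact hsq _ _ hc
        · simp only [hxp _ hd]
          rcases (mem_Al.1 (hh l)) c hc with h1 | h1
          · exact absurd h1 hd
          · exact hfix (h l) (l, c) hd hc h1
      · intro c
        exact hxR _
    have hx0 : ∀ c, (l0, c) ∈ J → sg q c ≠ 0 → x (l0, c) = 2 * sg q c := by
      intro c hd hc
      simp only [hx, hd, if_true, ne_eq, hc, not_false_eq_true]
    have hxl0 : Sig R (fun c => x (l0, c), 1) = 1 := by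
      apply Sig_on R (q := q)
      · intro c hc
        by_cases hd : (l0, c) ∈ J
        · simp only [hx0 c hd hc]
          exact hsq _ _ hc
        · simp only [hxp _ hd]
          rcases hq c hc with h1 | h1
          · exact absurd h1 hd
          · exact hfix q (l0, c) hd hc h1
      · intro c
        exact hxR _
    have hyl0 : Sig R (fun c => y (l0, c), 1) = 1 := by
      apply Sig_on R (q := q')
      · intro c hc
        by_cases hcc : c = cs
        · subst hcc
          simp only [hy, Function.update_self]
          exact hsq _ _ hc
        · have hdc : (l0, c) ≠ (l0, cs) := fun h' => hcc (by simpa using h')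
          by_cases hd : (l0, c) ∈ J
          · have : y (l0, c) = 2 * sg q' c := by
              rw [hy, Function.update_of_ne hdc]
              by_cases hc2 : sg q c ≠ 0
              · rw [hx0 c hd hc2]
                -- signs agree
                have : sg q c = sg q' c := by
                  by_contra hne
                  apply hcc
                  apply conflict_unique hc2 _ hcs1 hcs2
                  rcases sg_cases q c with e1 | e1 | e1 <;> rcases sg_cases q' c with e2 | e2 | e2
                  · exact absurd (e1.trans e2.symm) hne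
                  · rw [e1, e2]
                  · exact absurd e2 hc
                  · rw [e1, e2]; norm_num
                  · exact absurd (e1.trans e2.symm) hne
                  · exact absurd e2 hc
                  · exact absurd e1 hc2
                  · exact absurd e1 hc2
                  · exact absurd e1 hc2
                rw [this]
              · simp only [hx, hd, if_true, hc2, if_false]
            simp only [this]
            exact hsq _ _ hc
          · simp only [hyp _ hd]
            rcases hq' c hc with h1 | h1
            · exact absurd h1 hd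
            · exact hfix q' (l0, c) hd hc h1
      · intro c
        exact hyR _
    have hyother : ∀ l, l ≠ l0 → ∀ c, y (l, c) = x (l, c) := by
      intro l hl c
      have hdc : (l, c) ≠ (l0, cs) := fun h' => hl (by simpa using congrArg Prod.fst h')
      rw [hy, Function.update_of_ne hdc]
    have hyl0c : ∀ c, c ≠ cs → y (l0, c) = x (l0, c) := by
      intro c hc
      have hdc : (l0, c) ≠ (l0, cs) := fun h' => hc (by simpa using h')
      rw [hy, Function.update_of_ne hdc]
    have hmidc : ∀ e, midpoint ℝ x y e = (x e + y e) / 2 := by
      intro e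
      simp [midpoint_eq_smul_add]
      ring
    have hfx : Phi R N (Function.curry x, 1) = 1 := by
      apply Phi_on
      intro l
      by_cases hl : l = l0
      · subst hl
        exact hxl0
      · exact hother l hl
    have hfy : Phi R N (Function.curry y, 1) = 1 := by
      apply Phi_on
      intro l
      by_cases hl : l = l0
      · subst hl
        exact hyl0
      · have : Function.curry y l = fun c => x (l, c) := by
          ext c
          exact hyother l hl c
        rw [this]
        exact hother l hl
    have hfm : Phi R N (Function.curry (midpoint ℝ x y), 1) = 0 := by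
      apply Phi_off R N _ l0
      · apply Sig_off
        intro r
        by_cases hrq : r = q
        · refine ⟨cs, by rw [hrq]; exact hcs1, ?_⟩
          have : Function.curry (midpoint ℝ x y) l0 cs = 0 := by
            change midpoint ℝ x y (l0, cs) = 0
            rw [hmidc, hx0 cs hfree hcs1, hy, Function.update_self, hcs2]
            ring
          rw [this]
          simp
        · by_cases hrq' : r = q'
          · refine ⟨cs, by rw [hrq']; exact hcs3, ?_⟩
            have : Function.curry (midpoint ℝ x y) l0 cs = 0 := by
              change midpoint ℝ x y (l0, cs) = 0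
              rw [hmidc, hx0 cs hfree hcs1, hy, Function.update_self, hcs2]
              ring
            rw [this]
            simp
          · obtain ⟨c1, h1, h2⟩ := exists_conflict (Ne.symm hrq)
            have hc1 : c1 ≠ cs := conflict_ne h1 h2 hcs1 hcs2 hrq'
            refine ⟨c1, by rw [h2]; exact neg_ne_zero.2 h1, ?_⟩
            have : Function.curry (midpoint ℝ x y) l0 c1 = x (l0, c1) := by
              change midpoint ℝ x y (l0, c1) = x (l0, c1)
              rw [hmidc, hyl0c c1 hc1]
              ring
            rw [this, h2]
            by_cases hd : (l0, c1) ∈ J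
            · rw [hx0 c1 hd h1]
              have := sg_sq h1
              nlinarith
            · rw [hxp _ hd]
              rcases hq c1 h1 with h3 | h3
              · exact absurd h3 hd
              · linarith
      · intro l hl
        have : Function.curry (midpoint ℝ x y) l = fun c => x (l, c) := by
          ext c
          change midpoint ℝ x y (l, c) = x (l, c)
          rw [hmidc, hyother l hl c]
          ring
        rw [this]
        exact hother l hl
    refine ⟨x, y, fun c hc => ⟨hxp c hc, hyp c hc⟩, fun c hc => ⟨hxb c hc, hyb c hc⟩, ?_⟩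
    simp only [hfx, hfy, hfm]
    norm_num

end Pool.Agent.H337_cpwl
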