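import Mathlib
import Pool.Agent.H337_cpwl.Stmts
import Pool.Agent.H337_cpwl.E

/-!
The assembly of the parts.
-/

open Set Finset

namespace Pool.Agent.H337_cpwl

/-- midpoint convexity -/
lemma convex_mid {n : ℕ} {g : (Fin n → ℝ) → ℝ} (hg : ConvexOn ℝ Set.univ g) (x y : Fin n → ℝ) :
    g (midpoint ℝ x y) ≤ (g x + g y) / 2 := by
  have h := hg.2 (Set.mem_univ x) (Set.mem_univ y) (show (0 : ℝ) ≤ 1 / 2 by norm_num)
    (show (0 : ℝ) ≤ 1 / 2 by norm_num) (by norm_num)
  have h2 : midpoint ℝ x y = (1 / 2 : ℝ) • x + (1 / 2 : ℝ) • y := by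
    rw [midpoint_eq_smul_add, smul_add]
    norm_num
  rw [h2]
  simp only [smul_eq_mul] at h
  linarith

theorem t_Main (hF : S_F) (hG : S_G) (hH : S_H) : S_Main := by
  intro p
  obtain ⟨t, N, ht, hN, hq⟩ := hH p
  set n : ℕ := N * (t * t) with hn
  have hn1 : 1 ≤ n := by
    rw [hn]
    exact Nat.one_le_iff_ne_zero.2 (by positivity)
  set R : ℝ := 2 * (4 * ((N * (t * t) : ℕ) : ℝ) + 1) ^ (N * (t * t)) with hR
  have hR1 : 1 ≤ R := by
    have : (1 : ℝ) ≤ (4 * ((N * (t * t) : ℕ) : ℝ) + 1) ^ (N * (t * t)) := one_le_pow₀ (by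
      have : (0 : ℝ) ≤ ((N * (t * t) : ℕ) : ℝ) := Nat.cast_nonneg _
      linarith)
    rw [hR]
    linarith
  obtain ⟨hcpwl, C, hC, hCQ⟩ := hF t N R ht hR1
  set S : Set ℕ := {m : ℕ | ∃ C : CompleteComplex n, C.Compatible (fN N t R) ∧ C.numMax = m}
    with hS
  have hSne : S.Nonempty := ⟨C.numMax, C, hC, rfl⟩
  have hmem : sInf S ∈ S := Nat.sInf_mem hSne
  have hle : sInf S ≤ Qb t N := le_trans (Nat.sInf_le ⟨C, hC, rfl⟩) hCQ
  refine ⟨n, sInf S, hn1, ?_, fN N t R, hcpwl, ⟨hmem, fun m hm => Nat.sInf_le hm⟩, ?_⟩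
  · obtain ⟨C', -, hC'⟩ := hmem
    rw [← hC']
    exact (hG n C').1
  · intro g h _ _ hg hh hfgh P Q hP hQ
    by_contra hcon
    push Not at hcon
    obtain ⟨h1, h2⟩ := hcon
    have h3 : ((max P.numMax Q.numMax : ℕ) : ℝ) ≤
        MvPolynomial.eval ![(n : ℝ), ((sInf S : ℕ) : ℝ)] p := by
      rw [Nat.cast_max]
      exact max_le h1 h2
    have h4 := hq (sInf S) hle _ h3
    obtain ⟨lg, hlg1, hlg2⟩ := (hG n P).2 g hg hP
    obtain ⟨lh, hlh1, hlh2⟩ := (hG n Q).2 h hh hQ
    set T : (Fin N × Crd t → ℝ) →ₗ[ℝ] (Fin n → ℝ) := LinearMap.funLeft ℝ ℝ (eqv N t).symm with hT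
    have hTmid : ∀ x y, T (midpoint ℝ x y) = midpoint ℝ (T x) (T y) := by
      intro x y
      simp only [midpoint_eq_smul_add, map_smul, map_add]
    have hf : ∀ x, fN N t R (T x) = Phi R N (Function.curry x, 1) := by
      intro x
      unfold fN
      congr 2
      ext i c
      simp [unfl, hT, LinearMap.funLeft_apply, Function.curry]
    have key := t_E t N (P.numMax * Q.numMax) R ht le_rfl (fun x => g (T x) + h (T x))
      (fun i => (lg (finProdFinEquiv.symm i).1).comp T.toAffineMap +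
        (lh (finProdFinEquiv.symm i).2).comp T.toAffineMap)
      (fun i x => by
        simp only [AffineMap.coe_add, Pi.add_apply, AffineMap.coe_comp, Function.comp_apply,
          LinearMap.coe_toAffineMap]
        exact add_le_add (hlg1 _ _) (hlh1 _ _))
      (fun x => by
        obtain ⟨i, hi⟩ := hlg2 (T x)
        obtain ⟨j, hj⟩ := hlh2 (T x)
        refine ⟨finProdFinEquiv (i, j), ?_⟩
        simp only [AffineMap.coe_add, Pi.add_apply, AffineMap.coe_comp, Function.comp_apply,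
          LinearMap.coe_toAffineMap, Equiv.symm_apply_apply]
        rw [hi, hj])
      (fun x y hxy => by
        simp only [hTmid] at hxy
        rw [← hf, ← hf, ← hf, hTmid, hfgh, hfgh, hfgh]
        have e1 := convex_mid hg (T x) (T y)
        have e2 := convex_mid hh (T x) (T y)
        linarith)
    have h5 : P.numMax * Q.numMax ≤ max P.numMax Q.numMax * max P.numMax Q.numMax :=
      Nat.mul_le_mul (le_max_left _ _) (le_max_right _ _)
    omega

end Pool.Agent.H337_cpwl
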